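import Pool.Agent.H312.Sub.Fin
import Pool.Agent.H312.Barnes.Ms
import Pool.Agent.H312.Barnes.Exp

set_option autoImplicit false

/-!
# The criterion for pointwise bounds
-/

namespace Pool.Agent.H312.Sub

open Filter Topology MeasureTheory Complex Set Asymptotics
open Pool.Agent.H131R5.BZ Pool.Agent.Y930.Bz Pool.Agent.Y616.BM
open Pool.Agent.H312.Barnes (nd nd_nonneg Dio SimApprox)

variable {r : ℕ} {a : ℝ} {w : Fin r → ℝ} {c : ℕ → ℂ}

lemma di_of_dio {σ θ : ℝ} (h : Dio w (2 * σ) (2 * θ)) : Di w σ θ := by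
  obtain ⟨c, hc, hD⟩ := h
  refine ⟨Real.sqrt c, Real.sqrt_pos.2 hc, fun ρ y hρ hy hy1 => ?_⟩
  have hρ0 : 0 < ρ := by linarith
  have h1 := hD ρ y hρ hy hy1
  have h0 : 0 ≤ ∏ j, max (nd (ρ * w j)) y :=
    Finset.prod_nonneg fun j _ => hy.le.trans (le_max_right _ _)
  refine le_of_sq_le_sq ?_ h0
  rw [Finset.prod_pow] at h1
  refine le_trans (le_of_eq ?_) h1
  rw [mul_pow, mul_pow, Real.sq_sqrt hc.le]
  congr 1
  rw [← Real.rpow_natCast (y ^ (σ + θ)), ← Real.rpow_mul hy.le, ← Real.rpow_natCast (ρ ^ (-θ)),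
    ← Real.rpow_mul hρ0.le]
  congr 2
  · push_cast; ring
  · push_cast; ring

/-- `Z` is the continuation of the Dirichlet series -/
structure Cont (r : ℕ) (a : ℝ) (w : Fin r → ℝ) (Z : ℂ → ℂ) : Prop where
  hol : ∀ s ∈ Om r, DifferentiableAt ℂ Z s
  ser : ∀ s : ℂ, (r : ℝ) < s.re →
    Z s = ∑' m : Fin r → ℕ, ((Pool.Agent.H131R5.BZ.lam a w m : ℝ) : ℂ) ^ (-s)

lemma Cont.eq (ha : 0 < a) (hw : ∀ j, 0 < w j) {Z : ℂ → ℂ} (hZ : Cont r a w Z) (hc : Tay a w c)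
    (σ : ℝ) {t : ℝ} (ht : 0 < t) : Z ((σ : ℂ) + t * I) = FF a w c ((σ : ℂ) + t * I) := by
  have hE := eq_FF ha hw hc (fun s hs => hZ.hol s hs) (fun s hs => hZ.ser s hs)
  refine hE _ ?_
  intro k _ _ h
  have := congrArg Complex.im h
  simp at this
  linarith

/-- a pointwise bound with the exponents `η + ε` -/
def Pt (Z : ℂ → ℂ) (σ η : ℝ) : Prop :=
  ∀ ε : ℝ, 0 < ε → ∃ C : ℝ, ∀ t : ℝ, 2 ≤ t → ‖Z ((σ : ℂ) + t * I)‖ ≤ C * t ^ (η + ε)

/-- the upper bound -/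
theorem pt_upper (hr : 0 < r) (ha : 0 < a) (hw : ∀ j, 0 < w j) {Z : ℂ → ℂ} (hZ : Cont r a w Z)
    {σ η : ℝ} (hσ : 0 < σ) (hη : 1 / 2 ≤ η) (h : ∀ ε : ℝ, 0 < ε → Dio w (2 * σ) (1 + 2 * η + ε)) :
    Pt Z σ η := by
  intro ε hε
  obtain ⟨c, hc⟩ := exists_taylor a hw
  have h1 : Di w σ (1 / 2 + η + ε / 2) := by
    apply di_of_dio
    have h2 := h ε hε
    have e : 2 * (1 / 2 + η + ε / 2) = 1 + 2 * η + ε := by ring
    rwa [e]
  obtain ⟨C, -, h2⟩ := line_di hr ha hw hc hσ (by linarith : 1 ≤ 1 / 2 + η + ε / 2) h1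
    (by positivity : 0 < ε / 2)
  refine ⟨C, fun t ht => ?_⟩
  rw [hZ.eq ha hw hc σ (by linarith)]
  have h3 := h2 t (by linarith)
  have e : 1 / 2 + η + ε / 2 - 1 / 2 + ε / 2 = η + ε := by ring
  rwa [e] at h3

/-- a pointwise bound gives bounds for all moments -/
theorem moment_of_pt {Z : ℂ → ℂ} (hZ : ∀ s ∈ Om r, DifferentiableAt ℂ Z s) {σ η : ℝ} (hη : 0 ≤ η)
    (h : Pt Z σ η) (n : ℕ) {ε : ℝ} (hε : 0 < ε) :
    (fun T : ℝ => ∫ t in (1 : ℝ)..T, ‖Z ((σ : ℂ) + (t : ℂ) * I)‖ ^ n)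
      =O[atTop] fun T : ℝ => T ^ (1 + n * η + ε) := by
  set δ : ℝ := ε / (n + 1) with hδ
  have hδ0 : 0 < δ := by positivity
  have hnδ : n * δ ≤ ε := by
    rw [hδ, mul_div_assoc', div_le_iff₀ (by positivity)]
    nlinarith
  obtain ⟨C₀, hC₀⟩ := h δ hδ0
  have hcont := Pool.Agent.H312.Barnes.line_cont hZ σ
  obtain ⟨M, hM⟩ := (isCompact_Icc (a := (1 : ℝ)) (b := 2)).exists_bound_of_continuousOn
    (hcont.mono (fun t ht => ht.1))
  set C : ℝ := max 0 (max C₀ M) with hC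
  have hC0 : 0 ≤ C := le_max_left _ _
  have hpt : ∀ t : ℝ, 1 ≤ t → ‖Z ((σ : ℂ) + (t : ℂ) * I)‖ ≤ C * t ^ (η + δ) := by
    intro t ht
    have ht1 : 1 ≤ t ^ (η + δ) := Real.one_le_rpow ht (by linarith)
    rcases le_total 2 t with h2 | h2
    · refine (hC₀ t h2).trans ?_
      gcongr
      exact (le_max_left _ _).trans (le_max_right _ _)
    · calc _ ≤ M := hM t ⟨ht, h2⟩
        _ ≤ C * 1 := by
            rw [mul_one]
            exact (le_max_right _ _).trans (le_max_right _ _)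
        _ ≤ _ := by gcongr
  refine IsBigO.of_bound (C ^ n) ?_
  filter_upwards [eventually_ge_atTop (1 : ℝ)] with T hT
  have hT0 : 0 < T := by linarith
  rw [Real.norm_eq_abs, Real.norm_eq_abs, abs_of_nonneg (Real.rpow_nonneg hT0.le _),
    abs_of_nonneg (intervalIntegral.integral_nonneg hT fun t _ => by positivity)]
  have h1 : ∀ t ∈ Set.Icc 1 T, ‖Z ((σ : ℂ) + (t : ℂ) * I)‖ ^ n ≤ (C * T ^ (η + δ)) ^ n := by
    intro t ht
    have ht0 : 0 < t := by linarith [ht.1]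
    refine pow_le_pow_left₀ (norm_nonneg _) ((hpt t ht.1).trans ?_) n
    gcongr
    exact ht.2
  have hci : IntervalIntegrable (fun t : ℝ => ‖Z ((σ : ℂ) + (t : ℂ) * I)‖ ^ n) volume 1 T := by
    apply ContinuousOn.intervalIntegrable
    rw [Set.uIcc_of_le hT]
    exact ((hcont.mono (fun t ht => ht.1)).norm).pow n
  calc ∫ t in (1 : ℝ)..T, ‖Z ((σ : ℂ) + (t : ℂ) * I)‖ ^ n ≤
      ∫ _t in (1 : ℝ)..T, (C * T ^ (η + δ)) ^ n :=
        intervalIntegral.integral_mono_on hT hci intervalIntegrable_const h1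
    _ = (T - 1) * (C * T ^ (η + δ)) ^ n := by
        rw [intervalIntegral.integral_const, smul_eq_mul]
    _ ≤ T * (C * T ^ (η + δ)) ^ n := by
        gcongr
        linarith
    _ = C ^ n * (T ^ (1 : ℝ) * T ^ ((η + δ) * n)) := by
        rw [mul_pow, ← Real.rpow_natCast (T ^ (η + δ)), ← Real.rpow_mul hT0.le, Real.rpow_one]
        ring
    _ ≤ C ^ n * T ^ (1 + n * η + ε) := by
        rw [← Real.rpow_add hT0]
        refine mul_le_mul_of_nonneg_left (Real.rpow_le_rpow_of_exponent_le hT ?_) (by positivity)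
        nlinarith

/-- moment bounds with the exponents `1 + n η + ε` give the criterion -/
theorem dio_of_moments (ha : 0 < a) (hw : ∀ j, 0 < w j) {Z : ℂ → ℂ} (hZ : Cont r a w Z)
    {n : ℕ} (hn : 1 ≤ n) {σ η : ℝ} (hσ : 1 / 2 < σ) (hη : 0 ≤ η)
    (h : ∀ ε : ℝ, 0 < ε → (fun T : ℝ => ∫ t in (1 : ℝ)..T, ‖Z ((σ : ℂ) + (t : ℂ) * I)‖ ^ n)
      =O[atTop] fun T : ℝ => T ^ (1 + n * η + ε)) {ε : ℝ} (hε : 0 < ε) :
    Dio w (2 * σ) (1 + 2 * η + ε) := by
  have hn0 : (0 : ℝ) < n := by exact_mod_cast hn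
  have h1 := h (n * (ε / 2)) (by positivity)
  have h2 := Pool.Agent.H312.Barnes.dio_of_moment ha hw hZ.hol hZ.ser hn hσ
    (η := η + ε / 2) (by linarith) (by
      refine h1.congr_right fun T => ?_
      congr 1
      ring)
  have e : 1 + 2 * (η + ε / 2) = 1 + 2 * η + ε := by ring
  rwa [e] at h2

/-- **Criterion for pointwise bounds.** -/
theorem pt_iff (hr : 0 < r) (ha : 0 < a) (hw : ∀ j, 0 < w j) {Z : ℂ → ℂ} (hZ : Cont r a w Z)
    {σ η : ℝ} (hσ : 1 / 2 < σ) (hη : 1 / 2 ≤ η) :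
    Pt Z σ η ↔ ∀ ε : ℝ, 0 < ε → Dio w (2 * σ) (1 + 2 * η + ε) := by
  refine ⟨fun h ε hε => ?_, fun h => pt_upper hr ha hw hZ (by linarith) hη h⟩
  exact dio_of_moments ha hw hZ (n := 1) le_rfl hσ (by linarith)
    (fun ε hε => moment_of_pt hZ.hol (by linarith) h 1 hε) hε

/-- the criterion for all moments -/
theorem mom_iff (hr : 0 < r) (ha : 0 < a) (hw : ∀ j, 0 < w j) {Z : ℂ → ℂ} (hZ : Cont r a w Z)
    {σ η : ℝ} (hσ : 1 / 2 < σ) (hη : 1 / 2 ≤ η) {n : ℕ} (hn : 1 ≤ n) :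
    (∀ ε : ℝ, 0 < ε → (fun T : ℝ => ∫ t in (1 : ℝ)..T, ‖Z ((σ : ℂ) + (t : ℂ) * I)‖ ^ n)
      =O[atTop] fun T : ℝ => T ^ (1 + n * η + ε)) ↔
      ∀ ε : ℝ, 0 < ε → Dio w (2 * σ) (1 + 2 * η + ε) := by
  refine ⟨fun h ε hε => dio_of_moments ha hw hZ hn hσ (by linarith) h hε, fun h ε hε => ?_⟩
  exact moment_of_pt hZ.hol (by linarith) (pt_upper hr ha hw hZ (by linarith) hη h) n hε

/-- the universal bound -/
theorem pt_univ (hr : 0 < r) (ha : 0 < a) (hw : ∀ j, 0 < w j) {Z : ℂ → ℂ} (hZ : Cont r a w Z)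
    {σ : ℝ} (hσ : 0 < σ) (hσr : σ ≤ r - 1) : Pt Z σ (r - σ - 1 / 2) := by
  refine pt_upper hr ha hw hZ hσ (by linarith) fun ε hε => ?_
  exact Pool.Agent.H312.Barnes.dio_trivial w (by linarith) (by linarith)

/-- uniformity in a strip to the right of a line -/
theorem pt_strip (ha : 0 < a) (hw : ∀ j, 0 < w j) {Z : ℂ → ℂ} (hZ : Cont r a w Z)
    {σ η : ℝ} (hσ : 0 < σ) (hη : 0 ≤ η) (h : Pt Z σ η) {ε : ℝ} (hε : 0 < ε) (σ₁ : ℝ) :
    ∃ C : ℝ, ∀ σ' t : ℝ, σ ≤ σ' → σ' ≤ σ₁ → 2 ≤ t →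
      ‖Z ((σ' : ℂ) + t * I)‖ ≤ C * t ^ (η + ε) := by
  obtain ⟨c, hc⟩ := exists_taylor a hw
  obtain ⟨C₀, hC₀⟩ := h ε hε
  set β : ℝ := max (max σ₁ r) σ + 1 with hβ
  have hβr : (r : ℝ) < β := by
    have := (le_max_right σ₁ (r : ℝ)).trans (le_max_left _ σ)
    linarith
  have hβσ : σ₁ ≤ β := by
    have := (le_max_left σ₁ (r : ℝ)).trans (le_max_left _ σ)
    linarith
  have hσβ : σ < β := by
    have := le_max_right (max σ₁ (r : ℝ)) σ
    linarith
  obtain ⟨A, hA, h1⟩ := FF_line_bdd ha hw hc hβr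
  obtain ⟨CG, hCG, hG⟩ := FF_growth ha hw hc (α := σ) (β := β) hσ
  set C₁ : ℝ := max 0 C₀ + CG * Real.exp 10 with hC₁
  have hC₁0 : 0 ≤ C₁ := by positivity
  obtain ⟨C, hC, h2⟩ := interp ha hw hc (α := σ) (β := β) hσ hσβ (μ := η + ε) (by linarith) hC₁0 hA
    (fun y hy => by
      have hy1 : 1 ≤ y ^ (η + ε) := Real.one_le_rpow hy (by linarith)
      rcases le_total 2 y with hy2 | hy2
      · have h3 := hC₀ y hy2
        rw [hZ.eq ha hw hc σ (by linarith)] at h3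
        refine h3.trans ?_
        gcongr
        refine (le_max_right 0 C₀).trans ?_
        rw [hC₁]
        have : 0 ≤ CG * Real.exp 10 := by positivity
        linarith
      · have h3 := hG ((σ : ℂ) + y * I) (by simp) (by simpa using hσβ.le) (by simpa using hy)
        have him : ((σ : ℂ) + y * I).im = y := by simp
        rw [him] at h3
        calc _ ≤ CG * Real.exp (5 * y) := h3
          _ ≤ CG * Real.exp 10 := by
              gcongr
              linarith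
          _ ≤ C₁ * 1 := by
              rw [hC₁, mul_one]
              have : 0 ≤ max 0 C₀ := le_max_left _ _
              linarith
          _ ≤ _ := by gcongr) h1
  refine ⟨C, fun σ' t hσ' hσ1 ht => ?_⟩
  rw [hZ.eq ha hw hc σ' (by linarith)]
  refine (h2 σ' t hσ' (hσ1.trans hβσ) ht).trans (mul_le_mul_of_nonneg_left ?_ hC)
  apply Real.rpow_le_rpow_of_exponent_le (by linarith)
  rw [div_le_iff₀ (by linarith)]
  exact mul_le_mul_of_nonneg_left (by linarith) (by linarith)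

/-- the exact exponent in terms of simultaneous approximation -/
theorem dio_exact (hr : 0 < r) {σ η κ₀ : ℝ} (hκ₀ : 0 ≤ κ₀)
    (h1 : ∀ κ : ℝ, 0 < κ → κ < κ₀ → SimApprox w Finset.univ κ)
    (h2 : ∀ κ : ℝ, κ₀ < κ → ¬ SimApprox w Finset.univ κ)
    (hσ0 : 0 ≤ r - σ) (hσ : r - σ ≤ 1 + κ₀) (hη : 0 ≤ η) :
    (∀ ε : ℝ, 0 < ε → Dio w (2 * σ) (1 + 2 * η + ε)) ↔
      (r - σ) * κ₀ ≤ (1 + κ₀) * (η + 1 / 2) := by
  constructor
  · intro h
    rcases hκ₀.eq_or_lt with h0 | h0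
    · rw [← h0]
      nlinarith
    · have key : ∀ κ : ℝ, 0 < κ → κ < κ₀ → 2 * κ * (r - σ) ≤ (1 + κ) * (1 + 2 * η) := by
        intro κ hκ hκ1
        refine le_of_forall_pos_le_add fun ε hε => ?_
        have hκ1' : 0 < 1 + κ := by linarith
        have h3 := Pool.Agent.H312.Barnes.approx_dio hκ (h1 κ hκ hκ1)
          (h (ε / (1 + κ)) (by positivity))
        have e : (1 + κ) * (1 + 2 * η + ε / (1 + κ)) = (1 + κ) * (1 + 2 * η) + ε := by
          field_simp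
        rwa [e] at h3
      have h4 : 2 * κ₀ * (r - σ) ≤ (1 + κ₀) * (1 + 2 * η) := by
        by_contra hcon
        rw [not_le] at hcon
        set g : ℝ := 2 * κ₀ * (r - σ) - (1 + κ₀) * (1 + 2 * η) with hg
        have hg0 : 0 < g := by linarith
        set κ : ℝ := max (κ₀ / 2) (κ₀ - g / (2 * (2 * (r - σ) + 1))) with hκ
        have hD : 0 < 2 * (2 * (r - σ) + 1) := by linarith
        have hκ0 : 0 < κ := lt_of_lt_of_le (by linarith) (le_max_left _ _)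
        have hκ1 : κ < κ₀ := max_lt (by linarith) (by
          have : 0 < g / (2 * (2 * (r - σ) + 1)) := by positivity
          linarith)
        have h5 := key κ hκ0 hκ1
        have h6 : κ₀ - κ ≤ g / (2 * (2 * (r - σ) + 1)) := by
          have := le_max_right (κ₀ / 2) (κ₀ - g / (2 * (2 * (r - σ) + 1)))
          linarith
        have h7 : (κ₀ - κ) * (2 * (2 * (r - σ) + 1)) ≤ g := by
          rwa [le_div_iff₀ hD] at h6
        have h8 : 0 < κ₀ - κ := by linarith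
        nlinarith
      linarith
  · intro h ε hε
    have hD : 0 < 2 * (r - σ) + 1 := by linarith
    set κ : ℝ := κ₀ + ε / (2 * (r - σ) + 1) with hκ
    have hκκ : 0 < ε / (2 * (r - σ) + 1) := by positivity
    have hκ0 : 0 < κ := by linarith
    have h3 := Pool.Agent.H312.Barnes.dio_of_napprox hr hκ0 (h2 κ (by linarith)) hσ0
      (by linarith : (r : ℝ) - σ ≤ 1 + κ)
    refine h3.mono ?_
    rw [div_le_iff₀ (by linarith)]
    have h4 : (κ - κ₀) * (2 * (r - σ) + 1) = ε := by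
      rw [hκ]
      field_simp
      ring
    have h5 : 0 < κ - κ₀ := by linarith
    have h6 : 2 * (r - σ) * κ = 2 * ((r - σ) * κ₀) + 2 * (r - σ) * (κ - κ₀) := by ring
    have h7 : 2 * (r - σ) * (κ - κ₀) ≤ ε := by nlinarith
    have h8 : (1 + κ) * (1 + 2 * η + ε) = (1 + κ₀) * (1 + 2 * η) + (κ - κ₀) * (1 + 2 * η) +
        (1 + κ) * ε := by ring
    have h9 : 0 ≤ (κ - κ₀) * (1 + 2 * η) := by positivity
    nlinarith

end Pool.Agent.H312.Sub
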