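import Pool.Agent.H312.Sub.Cnt1

set_option autoImplicit false

/-!
# The measure of the set of near resonances in a box
-/

namespace Pool.Agent.H312.Sub

open Filter Topology MeasureTheory Set
open Pool.Agent.H312.Barnes (nd nd_nonneg nd_le_half nd_le nd_sub nd_nat_mul nd_meas vol_le)

variable {r : ℕ} {w : Fin r → ℝ}

theorem box1_le (hr : 0 < r) (hw : ∀ j, 0 < w j) {s θ : ℝ} (hs : 0 ≤ s) (hθ : 1 ≤ θ)
    (h : Di w s θ) {p₀ : ℝ} (hp₀ : 0 < p₀) :
    ∃ C : ℝ, 0 < C ∧ ∀ (b u₀ y : ℝ) (z : Fin r → ℝ), 0 < b → p₀ ≤ b * Real.exp (-u₀) → 0 < y →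
      y ≤ 1 → (∀ j, y ≤ z j) → (∀ j, z j ≤ 1) →
      volume {u : ℝ | u ∈ Icc u₀ (u₀ + 1) ∧ ∀ j, nd (b * Real.exp (-u) * w j) ≤ z j} ≤
        ENNReal.ofReal (C * (∏ j, z j) * ((b * Real.exp (-u₀)) ^ (θ - 1) *
          y ^ (1 - s - θ))) := by
  classical
  have hθ0 : 0 < θ := by linarith
  set W : ℝ := ∑ j, 1 / w j with hW
  have hWj : ∀ j, 1 / w j ≤ W := fun j =>
    Finset.single_le_sum (f := fun j => 1 / w j) (fun j _ => by have := hw j; positivity)
      (Finset.mem_univ j)
  set V : ℝ := 1 + ∑ j, w j with hV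
  have hVj : ∀ j, w j ≤ V := fun j => by
    have := Finset.single_le_sum (f := fun j => w j) (fun j _ => (hw j).le) (Finset.mem_univ j)
    linarith
  have hV0 : 0 < V := by
    have : 0 ≤ ∑ j, w j := Finset.sum_nonneg fun j _ => (hw j).le
    linarith
  set ρ₀ : ℝ := min (p₀ / 3) (1 / (2 * V)) with hρ₀
  have hρ₀0 : 0 < ρ₀ := lt_min (by positivity) (by positivity)
  obtain ⟨c, hc, hD⟩ := h.ext hθ0.le hρ₀0
  set A : ℝ := 2 ^ ((s + θ) / θ) with hA
  have hA0 : 0 < A := by positivity
  have hAθ : A ^ θ = 2 ^ (s + θ) := by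
    rw [hA, ← Real.rpow_mul (by norm_num)]
    congr 1
    field_simp
  set B : ℝ := 2 ^ r * A ^ (θ - 1) / (c * 2 ^ (s + θ)) with hB
  have hB0 : 0 < B := by positivity
  set C₁ : ℝ := 4 ^ r / p₀ ^ (θ - 1) with hC₁
  have hC₁0 : 0 < C₁ := by positivity
  have hW0 : 0 ≤ W := Finset.sum_nonneg fun j _ => by have := hw j; positivity
  set C₂ : ℝ := (1 + A) * (6 * W) * B with hC₂
  have hC₂0 : 0 ≤ C₂ := by positivity
  refine ⟨C₁ + C₂, by positivity, fun b u₀ y z hb hP hy hy1 hyz hz1 => ?_⟩
  set P : ℝ := b * Real.exp (-u₀) with hPdef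
  have hP0 : 0 < P := by positivity
  set S : Set ℝ := {u : ℝ | u ∈ Icc u₀ (u₀ + 1) ∧ ∀ j, nd (b * Real.exp (-u) * w j) ≤ z j}
    with hS
  have hz0 : ∀ j, 0 < z j := fun j => hy.trans_le (hyz j)
  set Q : ℝ := ∏ j, z j with hQ
  have hQ0 : 0 < Q := Finset.prod_pos fun j _ => hz0 j
  have hexp : 1 - s - θ ≤ 0 := by linarith
  have hpow0 : 0 < P ^ (θ - 1) := by positivity
  have hypow : 0 < y ^ (1 - s - θ) := by positivity
  rcases S.eq_empty_or_nonempty with hne | ⟨u₁, hu₁⟩
  · rw [hne]; simp
  have : Nonempty (Fin r) := ⟨⟨0, hr⟩⟩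
  obtain ⟨j₀, -, hj₀⟩ := Finset.exists_min_image Finset.univ z Finset.univ_nonempty
  have hmin : ∀ j, z j₀ ≤ z j := fun j => hj₀ j (Finset.mem_univ j)
  set δ : ℝ := z j₀ with hδ
  have hδ0 : 0 < δ := hz0 j₀
  have hSsub : S ⊆ Icc u₀ (u₀ + 1) := fun u hu => hu.1
  by_cases hbig : 1 / 4 ≤ δ
  · -- large boxes
    have h1 : volume S ≤ ENNReal.ofReal 1 := by
      refine (measure_mono hSsub).trans ?_
      rw [Real.volume_Icc]
      apply ENNReal.ofReal_le_ofReal
      linarith
    refine h1.trans (ENNReal.ofReal_le_ofReal ?_)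
    have h2 : (1 / 4 : ℝ) ^ r ≤ Q := by
      rw [hQ]
      have : (1 / 4 : ℝ) ^ r = ∏ _j : Fin r, (1 / 4 : ℝ) := by
        rw [Finset.prod_const, Finset.card_univ, Fintype.card_fin]
      rw [this]
      refine Finset.prod_le_prod (fun _ _ => by norm_num) (fun j _ => ?_)
      exact hbig.trans (hmin j)
    have h3 : p₀ ^ (θ - 1) ≤ P ^ (θ - 1) := Real.rpow_le_rpow hp₀.le hP (by linarith)
    have h4 : 1 ≤ y ^ (1 - s - θ) := Real.one_le_rpow_of_pos_of_le_one_of_nonpos hy hy1 hexp
    have h5 : 0 < p₀ ^ (θ - 1) := by positivity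
    calc (1 : ℝ) = C₁ * (1 / 4 : ℝ) ^ r * (p₀ ^ (θ - 1) * 1) := by
          rw [hC₁, one_div_pow]
          field_simp
      _ ≤ (C₁ + C₂) * Q * (P ^ (θ - 1) * y ^ (1 - s - θ)) := by
          gcongr
          linarith
  · rw [not_le] at hbig
    -- the size of the points of `S`
    have hρrange : ∀ u ∈ Icc u₀ (u₀ + 1), P / 3 ≤ b * Real.exp (-u) ∧ b * Real.exp (-u) ≤ P := by
      intro u hu
      constructor
      · have h1 : Real.exp (-u₀) * Real.exp (-1) ≤ Real.exp (-u) := by
          rw [← Real.exp_add]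
          apply Real.exp_le_exp.2
          linarith [hu.2]
        have h2 : (1 : ℝ) / 3 ≤ Real.exp (-1) := by
          rw [Real.exp_neg, ← one_div]
          exact one_div_le_one_div_of_le (Real.exp_pos _) (by linarith [Real.exp_one_lt_d9])
        have h3 := Real.exp_pos (-u₀)
        calc P / 3 = b * (Real.exp (-u₀) * (1 / 3)) := by rw [hPdef]; ring
          _ ≤ b * (Real.exp (-u₀) * Real.exp (-1)) := by gcongr
          _ ≤ _ := by gcongr
      · rw [hPdef]
        gcongr
        exact hu.1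
    have hone : c * (δ ^ (s + θ) * P ^ (-θ)) ≤ Q := by
      have h1 := hρrange u₁ hu₁.1
      have h2 := hD (b * Real.exp (-u₁)) δ ((min_le_left _ _).trans (by linarith)) hδ0
        (by linarith)
      have h3 : ∏ j, max (nd (b * Real.exp (-u₁) * w j)) δ ≤ Q := by
        refine Finset.prod_le_prod (fun j _ => hδ0.le.trans (le_max_right _ _)) (fun j _ => ?_)
        exact max_le (hu₁.2 j) (hmin j)
      refine le_trans ?_ (h2.trans h3)
      have h4 : P ^ (-θ) ≤ (b * Real.exp (-u₁)) ^ (-θ) :=
        Real.rpow_le_rpow_of_nonpos (by positivity) h1.2 (by linarith)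
      gcongr
    set R : ℝ := (c * (2 * δ) ^ (s + θ) / (2 ^ r * Q)) ^ (1 / θ) with hR
    have hR0 : 0 < R := by positivity
    have hRθ : R ^ θ = c * (2 * δ) ^ (s + θ) / (2 ^ r * Q) := by
      rw [hR, ← Real.rpow_mul (by positivity), one_div, inv_mul_cancel₀ hθ0.ne', Real.rpow_one]
    have hgap : ∀ t : ℝ, ρ₀ ≤ t → (∀ j, nd (t * w j) ≤ 2 * z j) → R ≤ t := by
      intro t ht htj
      have ht0 : 0 < t := hρ₀0.trans_le ht
      have h1 := hD t (2 * δ) ht (by positivity) (by linarith)
      have h2 : ∏ j, max (nd (t * w j)) (2 * δ) ≤ 2 ^ r * Q := by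
        have h3 : (2 : ℝ) ^ r * Q = ∏ j, (2 * z j) := by
          rw [Finset.prod_mul_distrib, Finset.prod_const, Finset.card_univ, Fintype.card_fin]
        rw [h3]
        refine Finset.prod_le_prod (fun j _ => by positivity) (fun j _ => ?_)
        refine max_le (htj j) ?_
        have := hmin j
        linarith
      have h4 := h1.trans h2
      have h5 : R ^ θ ≤ t ^ θ := by
        rw [hRθ, div_le_iff₀ (by positivity)]
        rw [Real.rpow_neg ht0.le] at h4
        have h6 : 0 < t ^ θ := by positivity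
        calc c * (2 * δ) ^ (s + θ) = (c * ((2 * δ) ^ (s + θ) * (t ^ θ)⁻¹)) * t ^ θ := by
              field_simp
          _ ≤ (2 ^ r * Q) * t ^ θ := by gcongr
          _ = _ := by ring
      exact (Real.rpow_le_rpow_iff hR0.le ht0.le hθ0).1 h5
    have hRP : R ≤ A * P := by
      have h1 : R ^ θ ≤ (A * P) ^ θ := by
        rw [hRθ, Real.mul_rpow hA0.le hP0.le, hAθ, div_le_iff₀ (by positivity),
          Real.mul_rpow (by norm_num) hδ0.le]
        have h2 : 0 < P ^ θ := by positivity
        have h3 : c * δ ^ (s + θ) ≤ Q * P ^ θ := by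
          rw [Real.rpow_neg hP0.le] at hone
          calc c * δ ^ (s + θ) = (c * (δ ^ (s + θ) * (P ^ θ)⁻¹)) * P ^ θ := by field_simp
            _ ≤ Q * P ^ θ := by gcongr
        have h4 : (1 : ℝ) ≤ 2 ^ r := one_le_pow₀ (by norm_num)
        have h5 : 0 < (2 : ℝ) ^ (s + θ) := by positivity
        calc c * (2 ^ (s + θ) * δ ^ (s + θ)) = 2 ^ (s + θ) * (c * δ ^ (s + θ)) := by ring
          _ ≤ 2 ^ (s + θ) * (Q * P ^ θ) := by gcongr
          _ = 2 ^ (s + θ) * P ^ θ * (1 * Q) := by ring
          _ ≤ 2 ^ (s + θ) * P ^ θ * (2 ^ r * Q) := by gcongr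
      exact (Real.rpow_le_rpow_iff hR0.le (by positivity) hθ0).1 h1
    have hvol := vol_le (S := S) (u₀ := u₀) (l := 6 * W * δ / P) (R := R / P) (by positivity)
      (by positivity) hSsub (by
        intro u hu v hv huv hlt
        have hu' := hρrange u hu.1
        have hv' := hρrange v hv.1
        set t : ℝ := b * Real.exp (-u) - b * Real.exp (-v) with ht
        have e1 : Real.exp (-v) = Real.exp (-u) * Real.exp (-(v - u)) := by
          rw [← Real.exp_add]; congr 1; ring
        have e2 : Real.exp (-u) = Real.exp (-v) * Real.exp (v - u) := by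
          rw [← Real.exp_add]; congr 1; ring
        have ht1 : t ≤ P * (v - u) := by
          have h1 : t = b * Real.exp (-u) * (1 - Real.exp (-(v - u))) := by rw [ht, e1]; ring
          have h2 : 1 - Real.exp (-(v - u)) ≤ v - u := by
            have := Real.add_one_le_exp (-(v - u))
            linarith
          have h3 : 0 ≤ 1 - Real.exp (-(v - u)) := by
            have : Real.exp (-(v - u)) ≤ 1 := Real.exp_le_one_iff.2 (by linarith)
            linarith
          rw [h1]
          exact mul_le_mul hu'.2 h2 h3 hP0.le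
        have ht2 : P / 3 * (v - u) ≤ t := by
          have h1 : t = b * Real.exp (-v) * (Real.exp (v - u) - 1) := by rw [ht, e2]; ring
          have h2 : v - u ≤ Real.exp (v - u) - 1 := by
            have := Real.add_one_le_exp (v - u)
            linarith
          rw [h1]
          exact mul_le_mul hv'.1 h2 (by linarith) (by positivity)
        have ht0 : 0 < t := lt_of_lt_of_le (mul_pos (by positivity) (by linarith)) ht2
        have htR : t < R := by
          refine ht1.trans_lt ?_
          rw [lt_div_iff₀ hP0] at hlt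
          linarith
        have htj : ∀ j, nd (t * w j) ≤ 2 * z j := by
          intro j
          have h1 : t * w j = b * Real.exp (-u) * w j - b * Real.exp (-v) * w j := by
            rw [ht]; ring
          rw [h1]
          have h2 := nd_sub (b * Real.exp (-u) * w j) (b * Real.exp (-v) * w j)
          have h3 := hu.2 j
          have h4 := hv.2 j
          linarith
        have hN : t * w j₀ ≤ 2 * δ := by
          by_contra hcon
          rw [not_le] at hcon
          have h1 := htj j₀
          have h2 : 1 ≤ round (t * w j₀) := by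
            by_contra h3
            rw [not_le] at h3
            have h4 : round (t * w j₀) ≤ 0 := by omega
            have h5 : ((round (t * w j₀) : ℤ) : ℝ) ≤ 0 := by exact_mod_cast h4
            have h6 : t * w j₀ ≤ nd (t * w j₀) := by
              unfold nd
              rw [abs_of_nonneg (by nlinarith [mul_pos ht0 (hw j₀)])]
              linarith
            linarith
          have h3 : (1 : ℝ) ≤ ((round (t * w j₀) : ℤ) : ℝ) := by exact_mod_cast h2
          have h4 : ((round (t * w j₀) : ℤ) : ℝ) - t * w j₀ ≤ nd (t * w j₀) := by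
            unfold nd
            rw [abs_sub_comm]
            exact le_abs_self _
          have h5 : 1 / 2 ≤ t * w j₀ := by linarith
          have h6 : ρ₀ ≤ t := by
            refine (min_le_right _ _).trans ?_
            rw [div_le_iff₀ (by positivity)]
            have h7 := hVj j₀
            nlinarith
          exact absurd (hgap t h6 htj) (not_le.2 htR)
        have hwj := hw j₀
        have h1 : P / 3 * (v - u) ≤ 2 * δ / w j₀ := by
          rw [le_div_iff₀ hwj]
          calc P / 3 * (v - u) * w j₀ ≤ t * w j₀ := by gcongr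
            _ ≤ 2 * δ := hN
        rw [le_div_iff₀ hP0]
        have h2 : 2 * δ / w j₀ ≤ 2 * δ * W := by
          rw [div_eq_mul_one_div]
          have := hWj j₀
          gcongr
        nlinarith)
    refine hvol.trans (ENNReal.ofReal_le_ofReal ?_)
    have hRpow : δ ^ (s + θ) ≤ B * (Q * R * P ^ (θ - 1)) := by
      have h1 : R ^ θ = R * R ^ (θ - 1) := by
        rw [← Real.rpow_one_add' hR0.le (by linarith)]
        congr 1; ring
      have h2 : R ^ (θ - 1) ≤ A ^ (θ - 1) * P ^ (θ - 1) := by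
        rw [← Real.mul_rpow hA0.le hP0.le]
        exact Real.rpow_le_rpow hR0.le hRP (by linarith)
      have h3 : c * (2 ^ (s + θ) * δ ^ (s + θ)) = R ^ θ * (2 ^ r * Q) := by
        rw [hRθ, Real.mul_rpow (by norm_num) hδ0.le]
        field_simp
      rw [h1] at h3
      have h4 : c * (2 ^ (s + θ) * δ ^ (s + θ)) ≤ R * (A ^ (θ - 1) * P ^ (θ - 1)) * (2 ^ r * Q) := by
        rw [h3]
        gcongr
      rw [hB, div_mul_eq_mul_div, le_div_iff₀ (by positivity)]
      calc δ ^ (s + θ) * (c * 2 ^ (s + θ)) = c * (2 ^ (s + θ) * δ ^ (s + θ)) := by ring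
        _ ≤ _ := h4
        _ = _ := by ring
    have hδy : δ ^ (1 - s - θ) ≤ y ^ (1 - s - θ) :=
      Real.rpow_le_rpow_of_nonpos hy (hyz j₀) hexp
    have hδR : δ / R ≤ B * (Q * P ^ (θ - 1)) * y ^ (1 - s - θ) := by
      rw [div_le_iff₀ hR0]
      have h1 : δ = δ ^ (s + θ) * δ ^ (1 - s - θ) := by
        rw [← Real.rpow_add hδ0]
        have : s + θ + (1 - s - θ) = 1 := by ring
        rw [this, Real.rpow_one]
      calc δ = δ ^ (s + θ) * δ ^ (1 - s - θ) := h1
        _ ≤ B * (Q * R * P ^ (θ - 1)) * y ^ (1 - s - θ) := by gcongr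
        _ = _ := by ring
    have h1 : (1 / (R / P) + 1) * (6 * W * δ / P) ≤ (1 + A) * (6 * W) * (δ / R) := by
      have h2 : 1 / (R / P) + 1 ≤ (1 + A) * (P / R) := by
        have h3 : 1 ≤ A * (P / R) := by
          rw [← mul_div_assoc, le_div_iff₀ hR0]
          linarith
        rw [one_div_div]
        linarith
      calc (1 / (R / P) + 1) * (6 * W * δ / P) ≤ ((1 + A) * (P / R)) * (6 * W * δ / P) := by
            gcongr
        _ = _ := by field_simp
    calc _ ≤ _ := h1
      _ ≤ (1 + A) * (6 * W) * (B * (Q * P ^ (θ - 1)) * y ^ (1 - s - θ)) := by gcongr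
      _ = C₂ * Q * (P ^ (θ - 1) * y ^ (1 - s - θ)) := by rw [hC₂]; ring
      _ ≤ _ := by
          gcongr
          linarith

end Pool.Agent.H312.Sub
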