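import Mathlib

set_option autoImplicit false

/-!
# Partial summation
-/

open Finset MeasureTheory Filter Topology

namespace Pool.Agent.H312.Sub

lemma pow_repr {σ a x X : ℝ} (hσ : σ ≠ 0) (ha : 0 < a) (hax : a ≤ x) (hxX : x ≤ X) :
    x ^ (-σ) = X ^ (-σ) + ∫ u in a..X, (if x ≤ u then σ * u ^ (-σ - 1) else 0) := by
  have hx0 : 0 < x := ha.trans_le hax
  have hX0 : 0 < X := hx0.trans_le hxX
  have hg : ∀ p q : ℝ, 0 < p → 0 < q → IntervalIntegrable (fun u : ℝ => σ * u ^ (-σ - 1)) volume p q := by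
    intro p q hp hq
    apply ContinuousOn.intervalIntegrable
    intro u hu
    have hu0 : 0 < u := by
      have := hu.1
      have h1 : 0 < min p q := lt_min hp hq
      exact h1.trans_le this
    exact (continuousAt_const.mul (Real.continuousAt_rpow_const u _ (Or.inl hu0.ne'))).continuousWithinAt
  have h1 : ∫ u in a..x, (if x ≤ u then σ * u ^ (-σ - 1) else 0) = 0 := by
    have : ∫ u in a..x, (if x ≤ u then σ * u ^ (-σ - 1) else 0) = ∫ u in a..x, (0 : ℝ) := by
      apply intervalIntegral.integral_congr_ae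
      have hne : ∀ᵐ u : ℝ, u ≠ x := by
        have := measure_singleton (μ := (volume : Measure ℝ)) x
        rw [ae_iff]
        simp
      filter_upwards [hne] with u hu hu2
      rw [Set.uIoc_of_le hax] at hu2
      have : ¬ x ≤ u := fun h => hu (le_antisymm hu2.2 h)
      rw [if_neg this]
    rw [this]
    simp
  have h2 : ∫ u in x..X, (if x ≤ u then σ * u ^ (-σ - 1) else 0) =
      ∫ u in x..X, σ * u ^ (-σ - 1) := by
    apply intervalIntegral.integral_congr_ae
    refine ae_of_all _ fun u hu => ?_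
    rw [Set.uIoc_of_le hxX] at hu
    rw [if_pos hu.1.le]
  have hi1 : IntervalIntegrable (fun u : ℝ => if x ≤ u then σ * u ^ (-σ - 1) else 0) volume a x := by
    have : IntervalIntegrable (fun _ : ℝ => (0 : ℝ)) volume a x := intervalIntegrable_const
    refine this.congr_ae ?_
    have hne : ∀ᵐ u : ℝ, u ≠ x := by
      rw [ae_iff]
      simp
    rw [Filter.EventuallyEq, ae_restrict_iff' measurableSet_uIoc]
    filter_upwards [hne] with u hu hu2
    rw [Set.uIoc_of_le hax] at hu2
    have : ¬ x ≤ u := fun h => hu (le_antisymm hu2.2 h)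
    rw [if_neg this]
  have hi2 : IntervalIntegrable (fun u : ℝ => if x ≤ u then σ * u ^ (-σ - 1) else 0) volume x X := by
    refine (hg x X hx0 hX0).congr ?_
    intro u hu
    rw [Set.uIoc_of_le hxX] at hu
    simp only
    rw [if_pos hu.1.le]
  rw [← intervalIntegral.integral_add_adjacent_intervals hi1 hi2, h1, h2, zero_add,
    intervalIntegral.integral_const_mul, integral_rpow (Or.inr ⟨by
      intro h
      apply hσ
      linarith, fun h => by
        rw [Set.uIcc_of_le hxX] at h
        exact absurd h.1 (not_le.2 hx0)⟩)]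
  have e : -σ - 1 + 1 = -σ := by ring
  rw [e]
  field_simp
  ring

/-- partial summation for finitely many positive numbers -/
theorem abel_bound {ι : Type} (A : Finset ι) (lam : ι → ℝ) (c : ι → ℂ) {a X σ ρ B : ℝ} (ha : 0 < a)
    (haX : a ≤ X) (hσ : 0 < σ) (hρ : σ < ρ) (hB : 0 ≤ B) (h1 : ∀ m ∈ A, a ≤ lam m)
    (h2 : ∀ m ∈ A, lam m ≤ X)
    (h : ∀ u : ℝ, a ≤ u → u ≤ X → ‖∑ m ∈ A with lam m ≤ u, c m‖ ≤ B * u ^ ρ) :
    ‖∑ m ∈ A, ((lam m ^ (-σ) : ℝ) : ℂ) * c m‖ ≤ B * (1 + σ / (ρ - σ)) * X ^ (ρ - σ) := by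
  have hX0 : 0 < X := ha.trans_le haX
  set f : ι → ℝ → ℝ := fun m u => if lam m ≤ u then σ * u ^ (-σ - 1) else 0 with hf
  have hg : IntervalIntegrable (fun u : ℝ => σ * u ^ (-σ - 1)) volume a X := by
    apply ContinuousOn.intervalIntegrable
    intro u hu
    rw [Set.uIcc_of_le haX] at hu
    have hu0 : 0 < u := ha.trans_le hu.1
    exact (continuousAt_const.mul (Real.continuousAt_rpow_const u _ (Or.inl hu0.ne'))).continuousWithinAt
  have hfi : ∀ m ∈ A, IntervalIntegrable (f m) volume a X := by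
    intro m _
    have h3 : f m = Set.indicator (Set.Ici (lam m)) (fun u : ℝ => σ * u ^ (-σ - 1)) := by
      funext u
      simp only [hf, Set.indicator, Set.mem_Ici]
    rw [h3, intervalIntegrable_iff]
    rw [intervalIntegrable_iff] at hg
    exact hg.indicator measurableSet_Ici
  have hfi' : ∀ m ∈ A, IntervalIntegrable (fun u => ((f m u : ℝ) : ℂ) * c m) volume a X := by
    intro m hm
    have h3 : IntervalIntegrable (fun u => ((f m u : ℝ) : ℂ)) volume a X := by
      have h4 := hfi m hm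
      rw [intervalIntegrable_iff] at h4 ⊢
      exact h4.ofReal
    exact h3.mul_const (c m)
  have hrep : ∑ m ∈ A, ((lam m ^ (-σ) : ℝ) : ℂ) * c m =
      ((X ^ (-σ) : ℝ) : ℂ) * ∑ m ∈ A, c m +
        ∫ u in a..X, ∑ m ∈ A, ((f m u : ℝ) : ℂ) * c m := by
    rw [intervalIntegral.integral_finsetSum hfi', Finset.mul_sum, ← Finset.sum_add_distrib]
    refine Finset.sum_congr rfl fun m hm => ?_
    rw [pow_repr hσ.ne' ha (h1 m hm) (h2 m hm), intervalIntegral.integral_mul_const,
      intervalIntegral.integral_ofReal]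
    push_cast
    ring
  rw [hrep]
  have hsum : ∀ u : ℝ, ∑ m ∈ A, ((f m u : ℝ) : ℂ) * c m =
      ((σ * u ^ (-σ - 1) : ℝ) : ℂ) * ∑ m ∈ A with lam m ≤ u, c m := by
    intro u
    rw [Finset.mul_sum, Finset.sum_filter]
    refine Finset.sum_congr rfl fun m _ => ?_
    simp only [hf]
    split_ifs with h3
    · rfl
    · simp
  have hall : ∑ m ∈ A with lam m ≤ X, c m = ∑ m ∈ A, c m := by
    rw [Finset.filter_true_of_mem h2]
  have hXb := h X haX le_rfl
  rw [hall] at hXb
  have hint : ‖∫ u in a..X, ∑ m ∈ A, ((f m u : ℝ) : ℂ) * c m‖ ≤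
      B * σ / (ρ - σ) * X ^ (ρ - σ) := by
    have hbi : IntervalIntegrable (fun u : ℝ => B * σ * u ^ (ρ - σ - 1)) volume a X := by
      apply ContinuousOn.intervalIntegrable
      intro u hu
      rw [Set.uIcc_of_le haX] at hu
      have hu0 : 0 < u := ha.trans_le hu.1
      exact (continuousAt_const.mul (Real.continuousAt_rpow_const u _ (Or.inl hu0.ne'))).continuousWithinAt
    refine (intervalIntegral.norm_integral_le_of_norm_le haX (g := fun u : ℝ => B * σ * u ^ (ρ - σ - 1))
      (ae_of_all _ fun u hu => ?_) hbi).trans ?_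
    · have hu0 : 0 < u := ha.trans hu.1
      rw [hsum u, norm_mul, Complex.norm_real, Real.norm_of_nonneg (by positivity)]
      calc σ * u ^ (-σ - 1) * ‖∑ m ∈ A with lam m ≤ u, c m‖ ≤
          σ * u ^ (-σ - 1) * (B * u ^ ρ) := by
            gcongr
            exact h u hu.1.le hu.2
        _ = B * σ * (u ^ ρ * u ^ (-σ - 1)) := by ring
        _ = B * σ * u ^ (ρ - σ - 1) := by
            rw [← Real.rpow_add hu0]
            congr 2
            ring
    · rw [intervalIntegral.integral_const_mul, integral_rpow (Or.inl (by linarith))]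
      have e : ρ - σ - 1 + 1 = ρ - σ := by ring
      rw [e]
      have h3 : 0 < ρ - σ := by linarith
      have h4 : 0 ≤ a ^ (ρ - σ) := by positivity
      calc B * σ * ((X ^ (ρ - σ) - a ^ (ρ - σ)) / (ρ - σ)) ≤ B * σ * (X ^ (ρ - σ) / (ρ - σ)) := by
            gcongr
            linarith
        _ = _ := by ring
  refine (norm_add_le _ _).trans ?_
  rw [norm_mul, Complex.norm_real, Real.norm_of_nonneg (by positivity)]
  calc X ^ (-σ) * ‖∑ m ∈ A, c m‖ + ‖∫ u in a..X, ∑ m ∈ A, ((f m u : ℝ) : ℂ) * c m‖ ≤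
      X ^ (-σ) * (B * X ^ ρ) + B * σ / (ρ - σ) * X ^ (ρ - σ) := by gcongr
    _ = B * (X ^ (-σ) * X ^ ρ) + B * σ / (ρ - σ) * X ^ (ρ - σ) := by ring
    _ = B * X ^ (ρ - σ) + B * σ / (ρ - σ) * X ^ (ρ - σ) := by
        rw [← Real.rpow_add hX0]
        congr 3
        ring
    _ = _ := by ring

end Pool.Agent.H312.Sub
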