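import Pool.Graph.R_pool_sql_team_seeded_47a924f7.T6.H49.BZ.Sch
import Pool.Agent.H312.Sub.Jb1
import Pool.Agent.H312.Barnes.Exp

set_option autoImplicit false

/-!
# Weights with algebraic ratios
-/

namespace Pool.Agent.H312.Sub

open Filter Topology MeasureTheory Set
open Pool.Agent.H131R5.BZ Pool.Agent.Y930.Bz Pool.Agent.Y616.BM
open Pool.Agent.H312.Barnes (nd nd_nonneg)

variable {r : ℕ} {a : ℝ} {w : Fin r → ℝ} {c : ℕ → ℂ}

/-- a basis among the weights -/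
lemma exists_basis (w : Fin r → ℝ) :
    ∃ B : Finset (Fin r), LinearIndepOn ℚ w (B : Set (Fin r)) ∧
      B.card = Module.finrank ℚ (Submodule.span ℚ (Set.range w)) := by
  classical
  obtain ⟨κ, f, hf, hspan, hli⟩ := exists_linearIndependent' ℚ w
  have : Finite κ := Finite.of_injective f hf
  have : Fintype κ := Fintype.ofFinite κ
  refine ⟨Finset.univ.image f, ?_, ?_⟩
  · rw [Finset.coe_image, Finset.coe_univ, Set.image_univ]
    exact (linearIndepOn_range_iff hf w).2 hli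
  · rw [Finset.card_image_of_injective _ hf, ← hspan, finrank_span_eq_card hli, Finset.card_univ]

/-- the Diophantine condition for weights with algebraic ratios -/
theorem di_alg (hr : 0 < r) (hw : ∀ j, 0 < w j) (halg : ∀ i j, IsAlgebraic ℚ (w i / w j)) {s ε : ℝ}
    (hs : (r : ℝ) - Module.finrank ℚ (Submodule.span ℚ (Set.range w)) ≤ s) (hε : 0 < ε) :
    Di w s (1 + ε) := by
  classical
  obtain ⟨B, hB, hBc⟩ := exists_basis w
  obtain ⟨c, hc, h⟩ := Pool.Agent.T6.H49.BZ.sch_all hw (hw ⟨0, hr⟩) (fun i => halg i ⟨0, hr⟩) hε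
  set d := Module.finrank ℚ (Submodule.span ℚ (Set.range w)) with hd
  have hd1 : 1 ≤ d := Pool.Agent.H312.Barnes.finrank_pos hr hw
  have hBne : B.Nonempty := by
    rw [← Finset.card_pos, hBc]
    omega
  have hdr : d ≤ r := by
    rw [← hBc]
    have := Finset.card_le_univ B
    rwa [Fintype.card_fin] at this
  refine ⟨c, hc, fun ρ y hρ hy hy1 => ?_⟩
  have hρ0 : 0 < ρ := by linarith
  obtain ⟨i0, hi0, hmin⟩ := Finset.exists_min_image B (fun i => nd (w i * ρ)) hBne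
  have h1 : c * ρ ^ (-1 - ε) ≤ ∏ i ∈ B.erase i0, nd (w i * ρ) := h B hB i0 hi0 ρ hρ hmin
  have hcard : (B.erase i0).card = d - 1 := by rw [Finset.card_erase_of_mem hi0, hBc]
  have h2 : ∏ i ∈ B.erase i0, nd (w i * ρ) ≤ ∏ i ∈ B.erase i0, max (nd (ρ * w i)) y := by
    refine Finset.prod_le_prod (fun i _ => nd_nonneg _) (fun i _ => ?_)
    rw [mul_comm]
    exact le_max_left _ _
  have h3 : y ^ (r - (d - 1)) ≤ ∏ i ∈ (B.erase i0)ᶜ, max (nd (ρ * w i)) y := by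
    have e1 : y ^ (r - (d - 1)) = ∏ _i ∈ (B.erase i0)ᶜ, y := by
      rw [Finset.prod_const, Finset.card_compl, Fintype.card_fin, hcard]
    rw [e1]
    exact Finset.prod_le_prod (fun i _ => hy.le) (fun i _ => le_max_right _ _)
  have h4 : ∏ i, max (nd (ρ * w i)) y =
      (∏ i ∈ B.erase i0, max (nd (ρ * w i)) y) * ∏ i ∈ (B.erase i0)ᶜ, max (nd (ρ * w i)) y :=
    (Finset.prod_mul_prod_compl _ _).symm
  rw [h4]
  have h5 : y ^ (s + (1 + ε)) ≤ y ^ (r - (d - 1)) := by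
    rw [← Real.rpow_natCast]
    apply Real.rpow_le_rpow_of_exponent_ge hy hy1
    rw [Nat.cast_sub (by omega), Nat.cast_sub hd1]
    push_cast
    linarith
  have h6 : -(1 + ε) = -1 - ε := by ring
  rw [h6]
  calc c * (y ^ (s + (1 + ε)) * ρ ^ (-1 - ε)) = (c * ρ ^ (-1 - ε)) * y ^ (s + (1 + ε)) := by ring
    _ ≤ (∏ i ∈ B.erase i0, max (nd (ρ * w i)) y) * ∏ i ∈ (B.erase i0)ᶜ, max (nd (ρ * w i)) y := by
        refine mul_le_mul (h1.trans h2) (h5.trans h3) (by positivity) ?_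
        exact Finset.prod_nonneg fun i _ => hy.le.trans (le_max_right _ _)

/-- the bound on the left lines -/
theorem line_alg (hr : 0 < r) (ha : 0 < a) (hw : ∀ j, 0 < w j)
    (halg : ∀ i j, IsAlgebraic ℚ (w i / w j)) (hc : Tay a w c) {σ ε : ℝ} (hσ : 0 < σ)
    (hσd : (r : ℝ) - Module.finrank ℚ (Submodule.span ℚ (Set.range w)) ≤ σ) (hε : 0 < ε) :
    ∃ C : ℝ, 0 ≤ C ∧ ∀ t : ℝ, 1 ≤ t →
      ‖FF a w c ((σ : ℂ) + t * Complex.I)‖ ≤ C * t ^ (1 / 2 + ε) := by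
  obtain ⟨C₁, U, hC₁, hz⟩ := zone1 ha hw hc hσ
  obtain ⟨C₂, hC₂, hJ⟩ := JL_le hr ha hw hσ (by linarith : 1 ≤ 1 + ε / 3)
    (di_alg hr hw halg hσd (by positivity : 0 < ε / 3)) (by positivity : 0 < ε / 3) U
  refine ⟨C₁ + C₁ * C₂, by positivity, fun t ht => ?_⟩
  have ht0 : 0 < t := by linarith
  have h1 := hz t ht t ⟨le_rfl, by linarith⟩
  have h2 := hJ t ht
  have h3 : ‖FF a w c ((σ : ℂ) + t * Complex.I)‖ₑ ≤
      ENNReal.ofReal (C₁ * t ^ (1 / 2 : ℝ) + C₁ * t ^ (1 / 2 - σ) *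
        (C₂ * t ^ (σ + (1 + ε / 3) - 1 + 2 * (ε / 3)))) := by
    refine h1.trans ?_
    rw [ENNReal.ofReal_add (by positivity) (by positivity),
      ENNReal.ofReal_mul (by positivity : 0 ≤ C₁ * t ^ (1 / 2 - σ))]
    gcongr
  have h4 : ‖FF a w c ((σ : ℂ) + t * Complex.I)‖ ≤ C₁ * t ^ (1 / 2 : ℝ) + C₁ * t ^ (1 / 2 - σ) *
        (C₂ * t ^ (σ + (1 + ε / 3) - 1 + 2 * (ε / 3))) := by
    rw [← ofReal_norm] at h3
    exact (ENNReal.ofReal_le_ofReal_iff (by positivity)).1 h3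
  refine h4.trans ?_
  have e1 : t ^ (1 / 2 - σ) * t ^ (σ + (1 + ε / 3) - 1 + 2 * (ε / 3)) = t ^ (1 / 2 + ε) := by
    rw [← Real.rpow_add ht0]
    congr 1
    ring
  have e2 : t ^ (1 / 2 : ℝ) ≤ t ^ (1 / 2 + ε) := Real.rpow_le_rpow_of_exponent_le ht (by linarith)
  calc _ = C₁ * t ^ (1 / 2 : ℝ) + C₁ * C₂ *
        (t ^ (1 / 2 - σ) * t ^ (σ + (1 + ε / 3) - 1 + 2 * (ε / 3))) := by ring
    _ ≤ C₁ * t ^ (1 / 2 + ε) + C₁ * C₂ * t ^ (1 / 2 + ε) := by
        rw [e1]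
        gcongr
    _ = _ := by ring

end Pool.Agent.H312.Sub
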