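import Pool.Graph.R_seed8.Y616.BM.Pt2

set_option autoImplicit false

/-!
# A maximum principle in a rectangle
-/

namespace Pool.Agent.H312.Sub

open Filter Topology MeasureTheory Complex Set
open Pool.Agent.Y616.BM (gauss_norm)

theorem cmp {α β μL μR M : ℝ} (hαβ : α < β) (hμ : μR ≤ μL) (hM : 0 ≤ M) :
    ∃ D : ℝ, 0 ≤ D ∧ ∀ (f : ℂ → ℂ) (K t σ : ℝ), 0 ≤ K → 2 ≤ t → α ≤ σ → σ ≤ β →
      0 ≤ (μL * (β - σ) + μR * (σ - α)) / (β - α) →
      (∀ z : ℂ, 1 ≤ z.im → DifferentiableAt ℂ f z) →
      (∀ x y : ℝ, α ≤ x → x ≤ β → 1 ≤ y → y ≤ 2 * t + 12 →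
        ‖f ((x : ℂ) + y * I)‖ ≤ K * (Real.exp (5 * y) * t ^ M)) →
      (∀ y : ℝ, 1 ≤ y → y ≤ 2 * t + 12 →
        ‖f ((α : ℂ) + y * I)‖ * Real.exp (-(y - t) ^ 2) ≤ K * t ^ μL) →
      (∀ y : ℝ, 1 ≤ y → y ≤ 2 * t + 12 →
        ‖f ((β : ℂ) + y * I)‖ * Real.exp (-(y - t) ^ 2) ≤ K * t ^ μR) →
      ‖f ((σ : ℂ) + t * I)‖ ≤ D * K * t ^ ((μL * (β - σ) + μR * (σ - α)) / (β - α)) := by
  have hL : 0 < β - α := by linarith
  set m : ℝ := μL - μR with hm
  have hm0 : 0 ≤ m := by linarith
  set E : ℝ := Real.exp ((β - α) ^ 2) with hE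
  have hE0 : 0 < E := Real.exp_pos _
  set D : ℝ := E + Real.exp 5 * E * Real.exp ((M + m) ^ 2) with hD
  have hD0 : 0 ≤ D := by positivity
  refine ⟨D, hD0, fun f K t σ hK ht hσ hσ1 hν hfd hgrow hleft hright => ?_⟩
  have ht0 : 0 < t := by linarith
  have ht1 : 1 ≤ t := by linarith
  set ν : ℝ := (μL * (β - σ) + μR * (σ - α)) / (β - α) with hνdef
  set ℓ : ℝ := m / (β - α) * Real.log t with hℓ
  have hlog0 : 0 ≤ Real.log t := Real.log_nonneg ht1
  have hℓ0 : 0 ≤ ℓ := by positivity
  set s : ℂ := (σ : ℂ) + t * I with hs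
  have hsre : s.re = σ := by simp [hs]
  have hsim : s.im = t := by simp [hs]
  set Y : ℝ := 2 * t + 12 with hY
  set B : ℝ := D * K * t ^ ν with hB
  have hpow1 : 1 ≤ t ^ ν := Real.one_le_rpow ht1 hν
  set g : ℂ → ℂ := fun z => f z * (cexp ((z - s) ^ 2) * cexp ((z - s) * (ℓ : ℂ))) with hgdef
  have hgn : ∀ x y : ℝ, ‖g ((x : ℂ) + y * I)‖ =
      ‖f ((x : ℂ) + y * I)‖ * (Real.exp ((x - σ) ^ 2 - (y - t) ^ 2) *
        Real.exp ((x - σ) * ℓ)) := by
    intro x y
    simp only [hgdef]
    rw [norm_mul, norm_mul, hs, gauss_norm]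
    congr 2
    rw [Complex.norm_exp]
    congr 1
    simp
  have hxσ : ∀ x : ℝ, α ≤ x → x ≤ β → (x - σ) ^ 2 ≤ (β - α) ^ 2 := by
    intro x h2 h3
    apply sq_le_sq'
    · linarith
    · linarith
  set U : Set ℂ := Ioo α β ×ℂ Ioo 1 Y with hU
  have hY1 : (1 : ℝ) < Y := by linarith
  have hclU : closure U = Icc α β ×ℂ Icc 1 Y := by
    rw [hU, closure_reProdIm, closure_Ioo hαβ.ne, closure_Ioo hY1.ne]
  have hgd : DiffContOnCl ℂ g U := by
    apply DifferentiableOn.diffContOnCl
    intro z hz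
    rw [hclU] at hz
    have h2 : 1 ≤ z.im := hz.2.1
    exact ((hfd z h2).mul (by fun_prop)).differentiableWithinAt
  have hbd : Bornology.IsBounded U :=
    (Metric.isBounded_Ioo α β).reProdIm (Metric.isBounded_Ioo 1 Y)
  have hlogt : Real.log t ≤ t - 1 := Real.log_le_sub_one_of_pos ht0
  -- the vertical factor
  have hver : ∀ x : ℝ, Real.exp ((x - σ) * ℓ) = t ^ (m * (x - σ) / (β - α)) := by
    intro x
    rw [Real.rpow_def_of_pos ht0]
    congr 1
    rw [hℓ]
    ring
  have hhor : ∀ x : ℝ, α ≤ x → x ≤ β → (x - σ) * ℓ ≤ m * Real.log t := by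
    intro x h2 h3
    have h4 : x - σ ≤ β - α := by linarith
    calc (x - σ) * ℓ ≤ (β - α) * ℓ := by gcongr
      _ = m * Real.log t := by rw [hℓ]; field_simp
  have htM : t ^ M = Real.exp (M * Real.log t) := by
    rw [Real.rpow_def_of_pos ht0, mul_comm]
  have hMm : M * Real.log t + m * Real.log t ≤ (M + m) * (t - 1) := by
    rw [← add_mul]
    gcongr
  have hcase : ∀ z ∈ frontier U, ‖g z‖ ≤ B := by
    intro z hz
    rw [hU, frontier_reProdIm, closure_Ioo hαβ.ne, closure_Ioo hY1.ne, frontier_Ioo hαβ,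
      frontier_Ioo hY1] at hz
    have hzz : z = (z.re : ℂ) + (z.im : ℂ) * I := (Complex.re_add_im z).symm
    rw [hzz, hgn]
    rcases hz with hz | hz
    · have hx1 : α ≤ z.re := hz.1.1
      have hx2 : z.re ≤ β := hz.1.2
      have hxs := hxσ z.re hx1 hx2
      have hh := hhor z.re hx1 hx2
      rcases hz.2 with hy | hy
      · -- the bottom side
        rw [show z.im = 1 from hy]
        have h3 := hgrow z.re 1 hx1 hx2 le_rfl hY1.le
        rw [mul_one] at h3
        have h5 : t ^ M * (Real.exp ((z.re - σ) ^ 2 - (1 - t) ^ 2) * Real.exp ((z.re - σ) * ℓ)) ≤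
            E * Real.exp ((M + m) ^ 2) := by
          rw [htM, ← Real.exp_add, ← Real.exp_add, hE, ← Real.exp_add]
          apply Real.exp_le_exp.2
          nlinarith [sq_nonneg ((M + m) - 2 * (t - 1)), sq_nonneg (M + m)]
        calc _ ≤ K * (Real.exp 5 * t ^ M) * (Real.exp ((z.re - σ) ^ 2 - (1 - t) ^ 2) *
              Real.exp ((z.re - σ) * ℓ)) := by gcongr
          _ = K * Real.exp 5 * (t ^ M * (Real.exp ((z.re - σ) ^ 2 - (1 - t) ^ 2) *
              Real.exp ((z.re - σ) * ℓ))) := by ring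
          _ ≤ K * Real.exp 5 * (E * Real.exp ((M + m) ^ 2)) := by gcongr
          _ ≤ D * K * 1 := by
              rw [hD, mul_one]
              have e1 : 0 ≤ E * K := by positivity
              nlinarith
          _ ≤ B := by rw [hB]; gcongr
      · -- the top side
        rw [show z.im = Y from hy]
        have h3 := hgrow z.re Y hx1 hx2 hY1.le le_rfl
        have h5 : Real.exp (5 * Y) * t ^ M * (Real.exp ((z.re - σ) ^ 2 - (Y - t) ^ 2) *
            Real.exp ((z.re - σ) * ℓ)) ≤ E * Real.exp ((M + m) ^ 2) := by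
          rw [htM, ← Real.exp_add, ← Real.exp_add, ← Real.exp_add, hE, ← Real.exp_add]
          apply Real.exp_le_exp.2
          rw [hY]
          nlinarith [sq_nonneg ((M + m) - 2 * (t - 1)), sq_nonneg (M + m)]
        calc _ ≤ K * (Real.exp (5 * Y) * t ^ M) * (Real.exp ((z.re - σ) ^ 2 - (Y - t) ^ 2) *
            Real.exp ((z.re - σ) * ℓ)) := by gcongr
          _ = K * (Real.exp (5 * Y) * t ^ M * (Real.exp ((z.re - σ) ^ 2 - (Y - t) ^ 2) *
            Real.exp ((z.re - σ) * ℓ))) := by ring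
          _ ≤ K * (E * Real.exp ((M + m) ^ 2)) := by gcongr
          _ ≤ D * K * 1 := by
              rw [hD, mul_one]
              have e1 : 0 ≤ E * K := by positivity
              have e2 : (1 : ℝ) ≤ Real.exp 5 := Real.one_le_exp (by norm_num)
              have e3 : 0 ≤ K * (E * Real.exp ((M + m) ^ 2)) := by positivity
              nlinarith
          _ ≤ B := by rw [hB]; gcongr
    · have hy1 : 1 ≤ z.im := hz.2.1
      have hy2 : z.im ≤ Y := hz.2.2
      have hgy : ∀ x : ℝ, α ≤ x → x ≤ β →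
          Real.exp ((x - σ) ^ 2 - (z.im - t) ^ 2) ≤ E * Real.exp (-(z.im - t) ^ 2) := by
        intro x h2 h3
        rw [hE, ← Real.exp_add]
        apply Real.exp_le_exp.2
        linarith [hxσ x h2 h3]
      have hED : E * K ≤ D * K := by
        apply mul_le_mul_of_nonneg_right _ hK
        rw [hD]
        have : 0 ≤ Real.exp 5 * E * Real.exp ((M + m) ^ 2) := by positivity
        linarith
      rcases hz.1 with hx | hx
      · -- the left side
        rw [show z.re = α from hx, hver]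
        have h3 := hleft z.im hy1 hy2
        have h5 := hgy α le_rfl hαβ.le
        have h6 : t ^ μL * t ^ (m * (α - σ) / (β - α)) = t ^ ν := by
          rw [← Real.rpow_add ht0]
          congr 1
          rw [hνdef, hm]
          field_simp
          ring
        calc ‖f ((α : ℂ) + z.im * I)‖ * (Real.exp ((α - σ) ^ 2 - (z.im - t) ^ 2) *
              t ^ (m * (α - σ) / (β - α))) ≤ ‖f ((α : ℂ) + z.im * I)‖ *
              (E * Real.exp (-(z.im - t) ^ 2) * t ^ (m * (α - σ) / (β - α))) := by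
              gcongr
          _ = E * (‖f ((α : ℂ) + z.im * I)‖ * Real.exp (-(z.im - t) ^ 2)) *
              t ^ (m * (α - σ) / (β - α)) := by ring
          _ ≤ E * (K * t ^ μL) * t ^ (m * (α - σ) / (β - α)) := by gcongr
          _ = E * K * (t ^ μL * t ^ (m * (α - σ) / (β - α))) := by ring
          _ = E * K * t ^ ν := by rw [h6]
          _ ≤ B := by
              rw [hB]
              gcongr
      · -- the right side
        rw [show z.re = β from hx, hver]
        have h3 := hright z.im hy1 hy2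
        have h5 := hgy β hαβ.le le_rfl
        have h6 : t ^ μR * t ^ (m * (β - σ) / (β - α)) = t ^ ν := by
          rw [← Real.rpow_add ht0]
          congr 1
          rw [hνdef, hm]
          field_simp
          ring
        calc ‖f ((β : ℂ) + z.im * I)‖ * (Real.exp ((β - σ) ^ 2 - (z.im - t) ^ 2) *
              t ^ (m * (β - σ) / (β - α))) ≤ ‖f ((β : ℂ) + z.im * I)‖ *
              (E * Real.exp (-(z.im - t) ^ 2) * t ^ (m * (β - σ) / (β - α))) := by
              gcongr
          _ = E * (‖f ((β : ℂ) + z.im * I)‖ * Real.exp (-(z.im - t) ^ 2)) *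
              t ^ (m * (β - σ) / (β - α)) := by ring
          _ ≤ E * (K * t ^ μR) * t ^ (m * (β - σ) / (β - α)) := by gcongr
          _ = E * K * (t ^ μR * t ^ (m * (β - σ) / (β - α))) := by ring
          _ = E * K * t ^ ν := by rw [h6]
          _ ≤ B := by
              rw [hB]
              gcongr
  have hsU : s ∈ closure U := by
    rw [hclU]
    exact ⟨by simpa [hsre] using And.intro hσ hσ1, by
      show s.im ∈ Icc 1 Y
      rw [hsim]
      exact ⟨by linarith, by linarith⟩⟩
  have hfinal := Complex.norm_le_of_forall_mem_frontier_norm_le hbd hgd hcase hsU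
  have hgs : g s = f s := by simp [hgdef]
  rw [hgs] at hfinal
  exact hfinal

end Pool.Agent.H312.Sub
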