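import Pool.Agent.H312.Barnes.Cnt

set_option autoImplicit false

/-!
# Near resonances, first power
-/

namespace Pool.Agent.H312.Sub

open Filter Topology MeasureTheory Set
open Pool.Agent.H312.Barnes (nd nd_nonneg nd_le_half nd_le nd_sub nd_nat_mul nd_meas vol_le)

variable {r : ℕ} {w : Fin r → ℝ}

/-- the Diophantine condition for the first power -/
def Di (w : Fin r → ℝ) (s θ : ℝ) : Prop :=
  ∃ c : ℝ, 0 < c ∧ ∀ ρ y : ℝ, 1 ≤ ρ → 0 < y → y ≤ 1 →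
    c * (y ^ (s + θ) * ρ ^ (-θ)) ≤ ∏ j, max (nd (ρ * w j)) y

lemma Di.ext {s θ : ℝ} (hθ : 0 ≤ θ) (h : Di w s θ) {ρ₀ : ℝ} (hρ₀ : 0 < ρ₀) :
    ∃ c : ℝ, 0 < c ∧ ∀ ρ y : ℝ, ρ₀ ≤ ρ → 0 < y → y ≤ 1 →
      c * (y ^ (s + θ) * ρ ^ (-θ)) ≤ ∏ j, max (nd (ρ * w j)) y := by
  obtain ⟨c, hc, hD⟩ := h
  obtain ⟨m, hm⟩ := exists_nat_ge (max 1 (1 / ρ₀))
  have hm1 : (1 : ℝ) ≤ m := (le_max_left _ _).trans hm
  have hm2 : 1 / ρ₀ ≤ m := (le_max_right _ _).trans hm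
  have hm0 : (0 : ℝ) < m := by linarith
  refine ⟨c * (m : ℝ) ^ (-θ) / (m : ℝ) ^ r, by positivity, fun ρ y hρ hy hy1 => ?_⟩
  have hρ0 : 0 < ρ := hρ₀.trans_le hρ
  have h1 : 1 ≤ m * ρ := by
    rw [div_le_iff₀ hρ₀] at hm2
    nlinarith
  have h2 := hD (m * ρ) y h1 hy hy1
  have h3 : ∏ j, max (nd (m * ρ * w j)) y ≤ ∏ j, ((m : ℝ) * max (nd (ρ * w j)) y) := by
    refine Finset.prod_le_prod (fun j _ => hy.le.trans (le_max_right _ _)) (fun j _ => ?_)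
    have hmax0 : 0 < max (nd (ρ * w j)) y := hy.trans_le (le_max_right _ _)
    refine max_le ?_ ?_
    · rw [mul_assoc]
      refine (nd_nat_mul _ _).trans ?_
      gcongr
      exact le_max_left _ _
    · calc y ≤ max (nd (ρ * w j)) y := le_max_right _ _
        _ ≤ m * max (nd (ρ * w j)) y := le_mul_of_one_le_left hmax0.le hm1
  rw [Finset.prod_mul_distrib, Finset.prod_const, Finset.card_univ, Fintype.card_fin] at h3
  have h4 := h2.trans h3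
  rw [Real.mul_rpow hm0.le hρ0.le] at h4
  have h5 : 0 < (m : ℝ) ^ r := by positivity
  calc c * (m : ℝ) ^ (-θ) / (m : ℝ) ^ r * (y ^ (s + θ) * ρ ^ (-θ)) =
      (c * (y ^ (s + θ) * ((m : ℝ) ^ (-θ) * ρ ^ (-θ)))) / (m : ℝ) ^ r := by ring
    _ ≤ _ := by
      rw [div_le_iff₀ h5]
      linarith

end Pool.Agent.H312.Sub
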