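import Pool.Agent.H312.Sub.Crit
import Pool.Agent.H312.Barnes.Dir

set_option autoImplicit false

/-!
# The exact exponent and simultaneous approximation
-/

namespace Pool.Agent.H312.Sub

open Filter Topology Set
open Pool.Agent.H312.Barnes (nd nd_nonneg Dio SimApprox)

variable {r : ℕ} {a : ℝ} {w : Fin r → ℝ}

lemma simApprox_mono {κ κ' : ℝ} (h : SimApprox w Finset.univ κ) (hκ : κ' ≤ κ) :
    SimApprox w Finset.univ κ' := by
  obtain ⟨C, hC⟩ := h
  refine ⟨max C 0, fun X => ?_⟩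
  obtain ⟨D, hD, hj⟩ := hC (max X 1)
  have hD1 : 1 ≤ D := (le_max_right _ _).trans hD
  refine ⟨D, (le_max_left _ _).trans hD, fun j hj' => ?_⟩
  obtain ⟨N, hN⟩ := hj j hj'
  refine ⟨N, hN.trans ?_⟩
  have h1 : D ^ (-κ) ≤ D ^ (-κ') := Real.rpow_le_rpow_of_exponent_le hD1 (by linarith)
  have h2 : 0 < D ^ (-κ) := by positivity
  calc C * D ^ (-κ) ≤ max C 0 * D ^ (-κ) := by
        gcongr
        exact le_max_left _ _
    _ ≤ _ := by gcongr

/-- the criterion in terms of simultaneous approximation -/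
theorem dio_approx_iff (hr : 0 < r) {σ η κ₁ : ℝ} (hη : 0 ≤ η) (hκ₁ : 0 < κ₁)
    (hA : SimApprox w Finset.univ κ₁) (hσ0 : 0 ≤ r - σ) (hσ : r - σ ≤ 1 + κ₁) :
    (∀ ε : ℝ, 0 < ε → Dio w (2 * σ) (1 + 2 * η + ε)) ↔
      ∀ κ : ℝ, 0 < κ → SimApprox w Finset.univ κ → 2 * κ * (r - σ) ≤ (1 + κ) * (1 + 2 * η) := by
  constructor
  · intro h κ hκ hS
    refine le_of_forall_pos_le_add fun ε hε => ?_
    have hκ1 : 0 < 1 + κ := by linarith
    have h3 := Pool.Agent.H312.Barnes.approx_dio hκ hS (h (ε / (1 + κ)) (by positivity))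
    have e : (1 + κ) * (1 + 2 * η + ε / (1 + κ)) = (1 + κ) * (1 + 2 * η) + ε := by
      field_simp
    rwa [e] at h3
  · intro h
    by_cases hbd : ∃ K : ℝ, ∀ κ : ℝ, SimApprox w Finset.univ κ → κ ≤ K
    · obtain ⟨K, hK⟩ := hbd
      set S : Set ℝ := {κ | SimApprox w Finset.univ κ} with hS
      have hbdd : BddAbove S := ⟨K, fun κ hκ => hK κ hκ⟩
      have hne : S.Nonempty := ⟨κ₁, hA⟩
      set κ₀ : ℝ := sSup S with hκ₀
      have hκ10 : κ₁ ≤ κ₀ := le_csSup hbdd hA
      have hκ00 : 0 < κ₀ := hκ₁.trans_le hκ10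
      have h1 : ∀ κ : ℝ, 0 < κ → κ < κ₀ → SimApprox w Finset.univ κ := by
        intro κ _ hκ
        obtain ⟨κ', hκ', hlt⟩ := exists_lt_of_lt_csSup hne hκ
        exact simApprox_mono hκ' hlt.le
      have h2 : ∀ κ : ℝ, κ₀ < κ → ¬ SimApprox w Finset.univ κ := by
        intro κ hκ hS'
        exact absurd (le_csSup hbdd hS') (not_le.2 hκ)
      rw [dio_exact hr hκ00.le h1 h2 hσ0 (by linarith) hη]
      -- the limit
      by_contra hcon
      rw [not_le] at hcon
      set g : ℝ := 2 * κ₀ * (r - σ) - (1 + κ₀) * (1 + 2 * η) with hg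
      have hg0 : 0 < g := by
        rw [hg]
        nlinarith
      set κ : ℝ := max (κ₀ / 2) (κ₀ - g / (2 * (2 * (r - σ) + 1))) with hκ
      have hD : 0 < 2 * (2 * (r - σ) + 1) := by linarith
      have hκ0 : 0 < κ := lt_of_lt_of_le (by linarith) (le_max_left _ _)
      have hκ1 : κ < κ₀ := max_lt (by linarith) (by
        have : 0 < g / (2 * (2 * (r - σ) + 1)) := by positivity
        linarith)
      have h5 := h κ hκ0 (h1 κ hκ0 hκ1)
      have h6 : κ₀ - κ ≤ g / (2 * (2 * (r - σ) + 1)) := by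
        have := le_max_right (κ₀ / 2) (κ₀ - g / (2 * (2 * (r - σ) + 1)))
        linarith
      have h7 : (κ₀ - κ) * (2 * (2 * (r - σ) + 1)) ≤ g := by
        rwa [le_div_iff₀ hD] at h6
      have h8 : 0 < κ₀ - κ := by linarith
      nlinarith
    · push Not at hbd
      intro ε hε
      have h1 : 2 * (r - σ) ≤ 1 + 2 * η := by
        refine le_of_forall_pos_le_add fun δ hδ => ?_
        obtain ⟨κ, hκ, hlt⟩ := hbd (max 1 (2 * (r - σ) / δ))
        have hκ1 : 1 < κ := (le_max_left _ _).trans_lt hlt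
        have hκ2 : 2 * (r - σ) / δ < κ := (le_max_right _ _).trans_lt hlt
        rw [div_lt_iff₀ hδ] at hκ2
        have h3 := h κ (by linarith) hκ
        by_contra hcon
        rw [not_le] at hcon
        nlinarith
      exact Pool.Agent.H312.Barnes.dio_trivial w (by linarith) (by linarith)

end Pool.Agent.H312.Sub
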