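import Pool.Agent.H312.Sub.Main
import Pool.Agent.H312.Sub.Alg
import Pool.Agent.H312.Barnes.Kap

set_option autoImplicit false

/-!
# Subconvexity: the classes of weights
-/

namespace Pool.Agent.H312.Sub

open Filter Topology MeasureTheory Complex Set
open Pool.Agent.H131R5.BZ Pool.Agent.Y930.Bz Pool.Agent.Y616.BM
open Pool.Agent.H312.Barnes (nd nd_nonneg)

variable {r : ℕ} {a : ℝ} {w : Fin r → ℝ} {c : ℕ → ℂ}

/-- the bound on the left lines from the Diophantine condition -/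
theorem line_di (hr : 0 < r) (ha : 0 < a) (hw : ∀ j, 0 < w j) (hc : Tay a w c) {σ ε θ : ℝ}
    (hσ : 0 < σ) (hθ : 1 ≤ θ) (hD : Di w σ θ) (hε : 0 < ε) :
    ∃ C : ℝ, 0 ≤ C ∧ ∀ t : ℝ, 1 ≤ t →
      ‖FF a w c ((σ : ℂ) + t * I)‖ ≤ C * t ^ (θ - 1 / 2 + ε) := by
  obtain ⟨C₁, U, hC₁, hz⟩ := zone1 ha hw hc hσ
  obtain ⟨C₂, hC₂, hJ⟩ := JL_le hr ha hw hσ hθ hD (by positivity : 0 < ε / 2) U
  refine ⟨C₁ + C₁ * C₂, by positivity, fun t ht => ?_⟩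
  have ht0 : 0 < t := by linarith
  have h1 := hz t ht t ⟨le_rfl, by linarith⟩
  have h2 := hJ t ht
  have h3 : ‖FF a w c ((σ : ℂ) + t * I)‖ₑ ≤
      ENNReal.ofReal (C₁ * t ^ (1 / 2 : ℝ) + C₁ * t ^ (1 / 2 - σ) *
        (C₂ * t ^ (σ + θ - 1 + 2 * (ε / 2)))) := by
    refine h1.trans ?_
    rw [ENNReal.ofReal_add (by positivity) (by positivity),
      ENNReal.ofReal_mul (by positivity : 0 ≤ C₁ * t ^ (1 / 2 - σ))]
    gcongr
  have h4 : ‖FF a w c ((σ : ℂ) + t * I)‖ ≤ C₁ * t ^ (1 / 2 : ℝ) + C₁ * t ^ (1 / 2 - σ) *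
        (C₂ * t ^ (σ + θ - 1 + 2 * (ε / 2))) := by
    rw [← ofReal_norm] at h3
    exact (ENNReal.ofReal_le_ofReal_iff (by positivity)).1 h3
  refine h4.trans ?_
  have e1 : t ^ (1 / 2 - σ) * t ^ (σ + θ - 1 + 2 * (ε / 2)) = t ^ (θ - 1 / 2 + ε) := by
    rw [← Real.rpow_add ht0]
    congr 1
    ring
  have e2 : t ^ (1 / 2 : ℝ) ≤ t ^ (θ - 1 / 2 + ε) :=
    Real.rpow_le_rpow_of_exponent_le ht (by linarith)
  calc _ = C₁ * t ^ (1 / 2 : ℝ) + C₁ * C₂ *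
        (t ^ (1 / 2 - σ) * t ^ (σ + θ - 1 + 2 * (ε / 2))) := by ring
    _ ≤ C₁ * t ^ (θ - 1 / 2 + ε) + C₁ * C₂ * t ^ (θ - 1 / 2 + ε) := by
        rw [e1]
        gcongr
    _ = _ := by ring

lemma Di.mono {s s' θ θ' : ℝ} (h : Di w s θ) (hs : s + θ ≤ s' + θ') (hθ : θ ≤ θ') :
    Di w s' θ' := by
  obtain ⟨c, hc, hD⟩ := h
  refine ⟨c, hc, fun ρ y hρ hy hy1 => ?_⟩
  refine le_trans ?_ (hD ρ y hρ hy hy1)
  have hρ0 : 0 < ρ := by linarith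
  have h1 : y ^ (s' + θ') ≤ y ^ (s + θ) := Real.rpow_le_rpow_of_exponent_ge hy hy1 hs
  have h2 : ρ ^ (-θ') ≤ ρ ^ (-θ) := Real.rpow_le_rpow_of_exponent_le hρ (by linarith)
  gcongr

/-- the condition on the left lines for generic weights -/
theorem line_gen (hr : 0 < r) (ha : 0 < a) (hw : ∀ j, 0 < w j) (hc : Tay a w c) {d : ℝ}
    (hD : ∀ ε : ℝ, 0 < ε → Di w (r - d) (1 + ε)) {σ ε : ℝ} (hσ : 0 < σ) (hσd : (r : ℝ) - d < σ)
    (hε : 0 < ε) : ∃ C : ℝ, 0 ≤ C ∧ ∀ t : ℝ, 1 ≤ t →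
      ‖FF a w c ((σ : ℂ) + t * I)‖ ≤ C * t ^ (1 / 2 + ε) := by
  have h1 := line_di hr ha hw hc hσ (by linarith : 1 ≤ 1 + ε / 2)
    ((hD (ε / 2) (by positivity)).mono (by linarith) le_rfl) (by positivity : 0 < ε / 2)
  have e : 1 + ε / 2 - 1 / 2 + ε / 2 = 1 / 2 + ε := by ring
  rwa [e] at h1

/-- two weights -/
theorem di_two {α : ℝ} (hα : 0 < α) (hirr : Irrational α) (h : ∀ μ : ℝ, 2 < μ → ¬ LiouvilleWith μ α)
    {ε : ℝ} (hε : 0 < ε) : Di ![1, α] 0 (1 + ε) := by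
  have h1 : ¬ Pool.Agent.H312.Barnes.SimApprox ![1, α] Finset.univ (1 + ε) := by
    rw [Pool.Agent.H312.Barnes.simApprox_two hα hirr (by linarith)]
    exact h _ (by linarith)
  obtain ⟨c, hc, hc1, hn⟩ := Pool.Agent.H312.Barnes.napprox (by linarith) h1
  refine ⟨c, hc, fun ρ y hρ hy hy1 => ?_⟩
  have hρ0 : 0 < ρ := by linarith
  obtain ⟨j, hj⟩ := hn ρ hρ
  have hy2 : y ^ (0 + (1 + ε)) ≤ y := by
    calc y ^ (0 + (1 + ε)) ≤ y ^ (1 : ℝ) :=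
          Real.rpow_le_rpow_of_exponent_ge hy hy1 (by linarith)
      _ = y := Real.rpow_one y
  have hcρ : 0 < c * ρ ^ (-(1 + ε)) := by positivity
  have key : ∀ p q : ℝ, c * ρ ^ (-(1 + ε)) ≤ p → c * (y ^ (0 + (1 + ε)) * ρ ^ (-(1 + ε))) ≤
      max p y * max q y := by
    intro p q hp
    calc c * (y ^ (0 + (1 + ε)) * ρ ^ (-(1 + ε))) = (c * ρ ^ (-(1 + ε))) * y ^ (0 + (1 + ε)) := by
          ring
      _ ≤ max p y * max q y := by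
          refine mul_le_mul (hp.trans (le_max_left _ _)) (hy2.trans (le_max_right _ _))
            (by positivity) (hy.le.trans (le_max_right _ _))
  rw [Fin.prod_univ_two]
  fin_cases j
  · exact key _ _ hj
  · rw [mul_comm (max _ _)]
    exact key _ _ hj

/-- the gain at the left edge of the strip -/
lemma gn_edge {d : ℕ} (hd : 1 ≤ d) :
    gn d (d / 2) = 1 / (128 * d * (d + 1) * (2 * d + 1) ^ 2 * 4 ^ d) := by
  have hd' : (1 : ℝ) ≤ d := by exact_mod_cast hd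
  have hd0 : (0 : ℝ) < d := by linarith
  have he : eta (2 * d + 1) = 1 / (8 * (2 * d + 1) * 4 ^ d) := by
    unfold eta
    have h2 : (2 : ℝ) ^ (2 * d + 1) = 2 * 4 ^ d := by
      rw [pow_succ, pow_mul]
      norm_num
      ring
    rw [h2]
    push_cast
    congr 1
    ring
  have hmin : min (eta (2 * d + 1)) ((d : ℝ) / 2 / 2) = 1 / (8 * (2 * d + 1) * 4 ^ d) := by
    rw [← he]
    apply min_eq_left
    have := eta_le (Q := 2 * d + 1) (by omega)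
    linarith
  unfold gn sh
  rw [hmin]
  field_simp
  ring

lemma gn_eq (d : ℕ) (x : ℝ) : gn d x = min (1 / (8 * (2 * (d : ℝ) + 1) * 4 ^ d)) (x / 2) *
    (d - x) / (8 * (d : ℝ) ^ 2 * (d + 1) * (2 * d + 1)) := by
  have he : eta (2 * d + 1) = 1 / (8 * (2 * d + 1) * 4 ^ d) := by
    unfold eta
    have h2 : (2 : ℝ) ^ (2 * d + 1) = 2 * 4 ^ d := by
      rw [pow_succ, pow_mul]
      norm_num
      ring
    rw [h2]
    push_cast
    congr 1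
    ring
  unfold gn sh
  rw [he, div_mul_eq_mul_div, div_div]
  congr 1
  ring

/-- the whole strip -/
theorem strip (ha : 0 < a) (hw : ∀ j, 0 < w j) (hc : Tay a w c) {d : ℕ} (hd : 1 ≤ d)
    (hdr : d ≤ r)
    (hline : ∀ σ ε : ℝ, 0 < σ → (r : ℝ) - d < σ → 0 < ε → ∃ C : ℝ, 0 ≤ C ∧
      ∀ t : ℝ, 1 ≤ t → ‖FF a w c ((σ : ℂ) + t * I)‖ ≤ C * t ^ (1 / 2 + ε)) (σ₁ : ℝ) :
    ∃ C : ℝ, 0 ≤ C ∧ ∀ σ t : ℝ, (r : ℝ) - d / 2 ≤ σ → σ ≤ σ₁ → 2 ≤ t →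
      ‖FF a w c ((σ : ℂ) + t * I)‖ ≤
        C * t ^ (1 / 4 - 1 / (128 * (d : ℝ) * (d + 1) * (2 * d + 1) ^ 2 * 4 ^ d)) := by
  have hd' : (1 : ℝ) ≤ d := by exact_mod_cast hd
  have hd0 : (0 : ℝ) < d := by linarith
  have hdr' : (d : ℝ) ≤ r := by exact_mod_cast hdr
  obtain ⟨C₀, hC₀, h0⟩ := subconv ha hw hc hd hdr hline (x := d / 2) (by positivity) (by linarith)
  rw [gn_edge hd] at h0
  have e1 : (d : ℝ) / 2 / (2 * d) = 1 / 4 := by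
    field_simp
    norm_num
  rw [e1] at h0
  set μ : ℝ := 1 / 4 - 1 / (128 * (d : ℝ) * (d + 1) * (2 * d + 1) ^ 2 * 4 ^ d) with hμ
  have hμ0 : 0 ≤ μ := by
    have h1 : 1 / (128 * (d : ℝ) * (d + 1) * (2 * d + 1) ^ 2 * 4 ^ d) ≤ 1 / 4 := by
      apply one_div_le_one_div_of_le (by norm_num)
      have h2 : (1 : ℝ) ≤ 4 ^ d := one_le_pow₀ (by norm_num)
      have h3 : (1 : ℝ) ≤ (2 * d + 1) ^ 2 := one_le_pow₀ (by linarith)
      have h4 : (1 : ℝ) ≤ d * (d + 1) := by nlinarith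
      calc (4 : ℝ) ≤ 128 * 1 * 1 * 1 := by norm_num
        _ ≤ 128 * (d * (d + 1)) * (2 * d + 1) ^ 2 * 4 ^ d := by gcongr
        _ = _ := by ring
    linarith
  set β : ℝ := max σ₁ r + 1 with hβ
  have hβr : (r : ℝ) < β := by
    have := le_max_right σ₁ (r : ℝ)
    linarith
  have hβσ : σ₁ ≤ β := by
    have := le_max_left σ₁ (r : ℝ)
    linarith
  obtain ⟨A, hA, h1⟩ := FF_line_bdd ha hw hc hβr
  have hαβ : (r : ℝ) - d / 2 < β := by linarith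
  obtain ⟨C, hC, h2⟩ := interp ha hw hc (α := (r : ℝ) - d / 2) (β := β) (by linarith) hαβ hμ0 hC₀ hA
    (fun y hy => by
      have := h0 y hy
      simpa using this) h1
  refine ⟨C, hC, fun σ t hσ hσ1 ht => ?_⟩
  refine (h2 σ t hσ (hσ1.trans hβσ) ht).trans (mul_le_mul_of_nonneg_left ?_ hC)
  apply Real.rpow_le_rpow_of_exponent_le (by linarith)
  rw [div_le_iff₀ (by linarith)]
  exact mul_le_mul_of_nonneg_left (by linarith) hμ0

end Pool.Agent.H312.Sub
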