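import Pool.Agent.H312.Sub.MainR
import Pool.Agent.H312.Sub.Crit

set_option autoImplicit false

/-!
# The lines on which the order is at most one half
-/

namespace Pool.Agent.H312.Sub

open Filter Topology MeasureTheory Complex Set
open Pool.Agent.H131R5.BZ Pool.Agent.Y930.Bz Pool.Agent.Y616.BM
open Pool.Agent.H312.Barnes (nd nd_nonneg Dio SimApprox)

variable {r : ℕ} {a : ℝ} {w : Fin r → ℝ}

theorem half_of_di (hr : 0 < r) (ha : 0 < a) (hw : ∀ j, 0 < w j) {Z : ℂ → ℂ} (hZ : Cont r a w Z)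
    {D : ℝ} (h : ∀ ε : ℝ, 0 < ε → Di w (r - D) (1 + ε)) {σ : ℝ} (hσ : 0 < σ)
    (hσD : (r : ℝ) - D < σ) : Pt Z σ (1 / 2) := by
  intro ε hε
  obtain ⟨c, hc⟩ := exists_taylor a hw
  obtain ⟨C, -, h1⟩ := line_gen hr ha hw hc h hσ hσD hε
  refine ⟨C, fun t ht => ?_⟩
  rw [hZ.eq ha hw hc σ (by linarith)]
  exact h1 t (by linarith)

theorem di_of_half (hr : 0 < r) (ha : 0 < a) (hw : ∀ j, 0 < w j) {Z : ℂ → ℂ} (hZ : Cont r a w Z)
    {D : ℝ} (hD : D ≤ r - 1 / 2) (h : ∀ σ : ℝ, 0 < σ → (r : ℝ) - D < σ → Pt Z σ (1 / 2)) {ε : ℝ}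
    (hε : 0 < ε) : Di w (r - D) (1 + ε) := by
  have h1 := h (r - D + ε / 2) (by linarith) (by linarith)
  have h2 := (pt_iff hr ha hw hZ (by linarith : 1 / 2 < (r : ℝ) - D + ε / 2) le_rfl).1 h1 ε hε
  have h3 : Di w (r - D + ε / 2) (1 + ε / 2) := by
    apply di_of_dio
    have e : 2 * (1 + ε / 2) = 1 + 2 * (1 / 2) + ε := by ring
    rwa [e]
  exact h3.mono (by linarith) (by linarith)

theorem di_one (w : Fin r → ℝ) {ε : ℝ} (hε : 0 < ε) : Di w (r - 1) (1 + ε) := by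
  refine ⟨1, one_pos, fun ρ y hρ hy hy1 => ?_⟩
  have h1 : y ^ ((r : ℝ) - 1 + (1 + ε)) ≤ y ^ (r : ℝ) :=
    Real.rpow_le_rpow_of_exponent_ge hy hy1 (by linarith)
  have h2 : ρ ^ (-(1 + ε)) ≤ 1 := Real.rpow_le_one_of_one_le_of_nonpos hρ (by linarith)
  have h3 : y ^ (r : ℝ) = ∏ _j : Fin r, y := by
    rw [Finset.prod_const, Finset.card_univ, Fintype.card_fin, Real.rpow_natCast]
  have h4 : ∏ _j : Fin r, y ≤ ∏ j, max (nd (ρ * w j)) y :=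
    Finset.prod_le_prod (fun _ _ => hy.le) fun j _ => le_max_right _ _
  have h5 : 0 < y ^ ((r : ℝ) - 1 + (1 + ε)) := Real.rpow_pos_of_pos hy _
  calc 1 * (y ^ ((r : ℝ) - 1 + (1 + ε)) * ρ ^ (-(1 + ε))) ≤
      1 * (y ^ ((r : ℝ) - 1 + (1 + ε)) * 1) := by gcongr
    _ ≤ y ^ (r : ℝ) := by linarith
    _ ≤ _ := by rw [h3]; exact h4

theorem di_approx (hr : 0 < r) {κ : ℝ} (hκ : 1 ≤ κ)
    (h : ∀ κ' : ℝ, κ < κ' → ¬ SimApprox w Finset.univ κ') {ε : ℝ} (hε : 0 < ε) :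
    Di w (r - (1 + 1 / κ)) (1 + ε) := by
  have hκ0 : 0 < κ := by linarith
  have h1κ : 1 / κ ≤ 1 := by
    rw [div_le_one hκ0]
    exact hκ
  have h0κ : 0 < 1 / κ := by positivity
  have h1 := Pool.Agent.H312.Barnes.dio_of_napprox (σ := (r : ℝ) - (1 + 1 / κ)) hr
    (by linarith : 0 < κ + ε) (h (κ + ε) (by linarith)) (by linarith) (by linarith)
  apply di_of_dio
  refine h1.mono ?_
  have e1 : (r : ℝ) - (r - (1 + 1 / κ)) = 1 + 1 / κ := by ring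
  rw [e1, div_le_iff₀ (by linarith)]
  have e2 : 2 * (1 + 1 / κ) * (κ + ε) = 2 * (κ + ε + 1 + ε * (1 / κ)) := by
    field_simp
    ring
  rw [e2]
  have h2 : ε * (1 / κ) ≤ ε * 1 := mul_le_mul_of_nonneg_left h1κ hε.le
  nlinarith

end Pool.Agent.H312.Sub
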