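import Pool.Agent.H312.Sub.LogSum

set_option autoImplicit false

/-!
# Sums of `n^{it}` over long intervals
-/

open Finset

namespace Pool.Agent.H312.Sub

open Pool.Agent.H469R2.NK (e norm_e)

lemma geom_le {q : ℝ} (hq : 1 < q) (k : ℕ) : ∑ i ∈ range k, q ^ i ≤ q ^ k / (q - 1) := by
  have h0 : 0 < q - 1 := by linarith
  rw [le_div_iff₀ h0]
  have h := geom_sum_mul q k
  rw [h]
  linarith

/-- the saving in the exponential sums -/
noncomputable def eta (Q : ℕ) : ℝ := 1 / (4 * (Q : ℝ) * 2 ^ Q)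

lemma eta_pos {Q : ℕ} (hQ : 1 ≤ Q) : 0 < eta Q := by
  have hQ' : (1 : ℝ) ≤ Q := by exact_mod_cast hQ
  unfold eta
  positivity

lemma eta_le {Q : ℕ} (hQ : 1 ≤ Q) : eta Q ≤ 1 / 8 := by
  have hQ' : (1 : ℝ) ≤ Q := by exact_mod_cast hQ
  unfold eta
  have h2 : (2 : ℝ) ≤ 2 ^ Q := by
    calc (2 : ℝ) = 2 ^ 1 := by norm_num
      _ ≤ 2 ^ Q := pow_le_pow_right₀ (by norm_num) hQ
  rw [div_le_div_iff₀ (by positivity) (by norm_num)]
  nlinarith

/-- a block, for all sizes -/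
lemma block_all (Q : ℕ) (hQ : 1 ≤ Q) :
    ∃ C : ℝ, 0 < C ∧ ∀ θ : ℝ, 0 < θ → θ ≤ eta Q → ∀ (N a : ℝ) (L : ℕ) (Z : ℝ), 1 ≤ N → N ≤ a →
      (L : ℝ) ≤ N → a + L ≤ 3 * N → 1 ≤ Z → N ^ (1 / 2 : ℝ) ≤ Z →
      ‖∑ n ∈ range L, e (Z * Real.log (a + n))‖ ≤ C * N ^ (1 - θ) * Z ^ (θ / Q) := by
  obtain ⟨C, hC, h⟩ := log_sum_bound Q hQ
  have hQ' : (1 : ℝ) ≤ Q := by exact_mod_cast hQ
  have hQ0 : (0 : ℝ) < Q := by linarith
  refine ⟨C + 1, by positivity, fun θ hθ hθ1 N a L Z hN ha hL haL hZ hNZ => ?_⟩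
  have hN0 : 0 < N := by linarith
  have hZ0 : 0 < Z := by linarith
  rcases le_total Z (N ^ Q) with h1 | h1
  · refine (h N a L Z hN ha hL haL hNZ h1).trans ?_
    have h2 : N ^ (1 - 1 / (4 * (Q : ℝ) * 2 ^ Q)) ≤ N ^ (1 - θ) := by
      apply Real.rpow_le_rpow_of_exponent_le hN
      unfold eta at hθ1
      linarith
    have h3 : 1 ≤ Z ^ (θ / Q) := Real.one_le_rpow hZ (by positivity)
    calc C * N ^ (1 - 1 / (4 * (Q : ℝ) * 2 ^ Q)) ≤ (C + 1) * N ^ (1 - θ) * 1 := by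
          rw [mul_one]
          gcongr
          linarith
      _ ≤ _ := by gcongr
  · have htriv : ‖∑ n ∈ range L, e (Z * Real.log (a + n))‖ ≤ N := by
      refine (norm_sum_le _ _).trans ?_
      simp only [norm_e, sum_const, card_range, nsmul_eq_mul, mul_one]
      exact hL
    have h2 : N ^ θ ≤ Z ^ (θ / Q) := by
      calc N ^ θ = (N ^ Q) ^ (θ / Q) := by
            rw [← Real.rpow_natCast, ← Real.rpow_mul hN0.le]
            congr 1
            field_simp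
        _ ≤ _ := Real.rpow_le_rpow (by positivity) h1 (by positivity)
    calc _ ≤ N := htriv
      _ = 1 * N ^ (1 - θ) * N ^ θ := by
          rw [one_mul, ← Real.rpow_add hN0]
          have : 1 - θ + θ = 1 := by ring
          rw [this, Real.rpow_one]
      _ ≤ (C + 1) * N ^ (1 - θ) * Z ^ (θ / Q) := by
          gcongr
          linarith

lemma dyadic (Q : ℕ) (hQ : 1 ≤ Q) :
    ∃ C : ℝ, 0 < C ∧ ∀ θ : ℝ, 0 < θ → θ ≤ eta Q → ∀ (Z : ℝ), 1 ≤ Z → ∀ (k : ℕ) (a : ℝ) (L : ℕ),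
      (2 : ℝ) ^ k ≤ Z ^ 2 → 0 < a → a + L ≤ 2 ^ k →
      ‖∑ n ∈ range L, e (Z * Real.log (a + n))‖ ≤
        C * Z ^ (θ / Q) * ∑ i ∈ range k, ((2 : ℝ) ^ (1 - θ)) ^ i := by
  obtain ⟨C, hC, h⟩ := block_all Q hQ
  refine ⟨C + 1, by positivity, fun θ hθ hθ1 Z hZ => ?_⟩
  have hQ' : (1 : ℝ) ≤ Q := by exact_mod_cast hQ
  have hZ0 : 0 < Z := by linarith
  have h8 := eta_le hQ
  have hZp : 1 ≤ Z ^ (θ / Q) := Real.one_le_rpow hZ (by positivity)
  intro k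
  induction k with
  | zero =>
    intro a L _ ha haL
    have hL : L = 0 := by
      rw [pow_zero] at haL
      have : (L : ℝ) < 1 := by linarith
      have : L < 1 := by exact_mod_cast this
      omega
    subst hL
    simp
  | succ k ih =>
    intro a L hk ha haL
    have hkk : (2 : ℝ) ^ k ≤ Z ^ 2 := by
      refine le_trans ?_ hk
      rw [pow_succ]
      have : (0 : ℝ) < 2 ^ k := by positivity
      linarith
    have h2k : (1 : ℝ) ≤ 2 ^ k := one_le_pow₀ (by norm_num)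
    have hroot : ((2 : ℝ) ^ k) ^ (1 / 2 : ℝ) ≤ Z := by
      rw [← Real.sqrt_eq_rpow]
      exact Real.sqrt_le_iff.2 ⟨hZ0.le, hkk⟩
    have hNpow : ((2 : ℝ) ^ k) ^ (1 - θ) = ((2 : ℝ) ^ (1 - θ)) ^ k := by
      rw [← Real.rpow_natCast, ← Real.rpow_natCast, ← Real.rpow_mul (by norm_num),
        ← Real.rpow_mul (by norm_num), mul_comm]
    have hNge : 1 ≤ ((2 : ℝ) ^ (1 - θ)) ^ k := by
      rw [← hNpow]
      exact Real.one_le_rpow h2k (by linarith)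
    have hbig : ∀ (a' : ℝ) (L' : ℕ), (2 : ℝ) ^ k ≤ a' → a' + L' ≤ 2 ^ (k + 1) →
        ‖∑ n ∈ range L', e (Z * Real.log (a' + n))‖ ≤
          C * ((2 : ℝ) ^ (1 - θ)) ^ k * Z ^ (θ / Q) := by
      intro a' L' ha' haL'
      rw [pow_succ] at haL'
      have h1 := h θ hθ hθ1 (2 ^ k) a' L' Z h2k ha' (by linarith) (by linarith) hZ hroot
      rwa [hNpow] at h1
    rw [Finset.sum_range_succ]
    set S := ∑ i ∈ range k, ((2 : ℝ) ^ (1 - θ)) ^ i with hS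
    have hS0 : 0 ≤ S := Finset.sum_nonneg fun i _ => by positivity
    rcases le_or_gt ((2 : ℝ) ^ k) a with h1 | h1
    · have h2 := hbig a L h1 haL
      have h3 : 0 ≤ (C + 1) * Z ^ (θ / Q) * S := by positivity
      have h4 : 0 ≤ ((2 : ℝ) ^ (1 - θ)) ^ k * Z ^ (θ / Q) := by positivity
      calc _ ≤ _ := h2
        _ ≤ (C + 1) * Z ^ (θ / Q) * S + (C + 1) * Z ^ (θ / Q) * ((2 : ℝ) ^ (1 - θ)) ^ k := by
            nlinarith
        _ = _ := by ring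
    · set L₁ : ℕ := ⌊(2 : ℝ) ^ k - a⌋₊ with hL₁
      have hf1 : (L₁ : ℝ) ≤ 2 ^ k - a := Nat.floor_le (by linarith)
      have hf2 : (2 : ℝ) ^ k - a < L₁ + 1 := Nat.lt_floor_add_one _
      rcases Nat.lt_or_ge L₁ L with hlt | hge
      · obtain ⟨L₂, hL₂⟩ : ∃ L₂, L = L₁ + 1 + L₂ := ⟨L - (L₁ + 1), by omega⟩
        rw [hL₂, Finset.sum_range_add, Finset.sum_range_succ]
        have h2 := ih a L₁ hkk ha (by linarith)
        have h3 : ‖e (Z * Real.log (a + L₁))‖ ≤ 1 := (norm_e _).le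
        have h4 := hbig (a + (L₁ + 1)) L₂ (by linarith) (by
          rw [hL₂] at haL
          push_cast at haL
          linarith)
        have e1 : ∑ x ∈ range L₂, e (Z * Real.log (a + ((L₁ + 1 + x : ℕ) : ℝ))) =
            ∑ n ∈ range L₂, e (Z * Real.log (a + (L₁ + 1) + n)) := by
          refine Finset.sum_congr rfl fun n _ => ?_
          congr 3
          push_cast
          ring
        rw [e1]
        refine (norm_add_le _ _).trans ?_
        refine (add_le_add (norm_add_le _ _) le_rfl).trans ?_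
        have h5 : (1 : ℝ) ≤ Z ^ (θ / Q) * ((2 : ℝ) ^ (1 - θ)) ^ k := by
          nlinarith
        calc _ ≤ ((C + 1) * Z ^ (θ / Q) * S + 1) + C * ((2 : ℝ) ^ (1 - θ)) ^ k * Z ^ (θ / Q) := by
              gcongr
          _ ≤ ((C + 1) * Z ^ (θ / Q) * S + Z ^ (θ / Q) * ((2 : ℝ) ^ (1 - θ)) ^ k) +
              C * ((2 : ℝ) ^ (1 - θ)) ^ k * Z ^ (θ / Q) := by gcongr
          _ = _ := by ring
      · have hLa : a + L ≤ 2 ^ k := by
          have : (L : ℝ) ≤ L₁ := by exact_mod_cast hge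
          linarith
        refine (ih a L hkk ha hLa).trans ?_
        have : 0 ≤ (C + 1) * Z ^ (θ / Q) * ((2 : ℝ) ^ (1 - θ)) ^ k := by positivity
        linarith

/-- **Sums of `n^{it}`** over arbitrary intervals of the positive numbers up to `t²`. -/
theorem inner_bound (Q : ℕ) (hQ : 1 ≤ Q) :
    ∃ C : ℝ, 0 < C ∧ ∀ θ : ℝ, 0 < θ → θ ≤ eta Q → ∀ (Z u a : ℝ) (L : ℕ), 1 ≤ Z → 1 ≤ u →
      2 * u ≤ Z ^ 2 → 0 < a → a + L ≤ u →
      ‖∑ n ∈ range L, e (Z * Real.log (a + n))‖ ≤ C * u ^ (1 - θ) * Z ^ (θ / Q) := by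
  obtain ⟨C, hC, h⟩ := dyadic Q hQ
  have h8 := eta_le hQ
  refine ⟨C * (2 * 4), by positivity, fun θ hθ hθ1 Z u a L hZ hu huZ ha haL => ?_⟩
  have hZ0 : 0 < Z := by linarith
  have hu0 : 0 < u := by linarith
  obtain ⟨k, hk1, hk2⟩ := exists_nat_pow_near hu (one_lt_two)
  have hk3 : (2 : ℝ) ^ (k + 1) ≤ 2 * u := by
    rw [pow_succ]
    linarith
  have h1 := h θ hθ hθ1 Z hZ (k + 1) a L (hk3.trans huZ) ha (haL.trans hk2.le)
  refine h1.trans ?_
  set q : ℝ := (2 : ℝ) ^ (1 - θ) with hq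
  have hq1 : 5 / 4 ≤ q := by
    have e1 : (2 : ℝ) ^ (1 / 2 : ℝ) ≤ q := Real.rpow_le_rpow_of_exponent_le (by norm_num) (by linarith)
    have e2 : (5 / 4 : ℝ) ≤ (2 : ℝ) ^ (1 / 2 : ℝ) := by
      rw [← Real.sqrt_eq_rpow]
      exact Real.le_sqrt_of_sq_le (by norm_num)
    exact e2.trans e1
  have hgeo := geom_le (q := q) (by linarith) (k + 1)
  have hqk : q ^ (k + 1) = ((2 : ℝ) ^ (k + 1)) ^ (1 - θ) := by
    rw [hq, ← Real.rpow_natCast, ← Real.rpow_natCast, ← Real.rpow_mul (by norm_num),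
      ← Real.rpow_mul (by norm_num), mul_comm]
  have h2u : ((2 : ℝ) ^ (k + 1)) ^ (1 - θ) ≤ 2 * u ^ (1 - θ) := by
    calc ((2 : ℝ) ^ (k + 1)) ^ (1 - θ) ≤ (2 * u) ^ (1 - θ) :=
          Real.rpow_le_rpow (by positivity) hk3 (by linarith)
      _ = 2 ^ (1 - θ) * u ^ (1 - θ) := Real.mul_rpow (by norm_num) hu0.le
      _ ≤ 2 ^ (1 : ℝ) * u ^ (1 - θ) := by
          gcongr
          · norm_num
          · linarith
      _ = _ := by rw [Real.rpow_one]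
  have hsum : ∑ i ∈ range (k + 1), q ^ i ≤ 4 * (2 * u ^ (1 - θ)) := by
    refine hgeo.trans ?_
    rw [hqk, div_le_iff₀ (by linarith)]
    have h3 : 0 < u ^ (1 - θ) := by positivity
    nlinarith
  calc C * Z ^ (θ / Q) * ∑ i ∈ range (k + 1), q ^ i ≤ C * Z ^ (θ / Q) * (4 * (2 * u ^ (1 - θ))) := by
        gcongr
    _ = _ := by ring

end Pool.Agent.H312.Sub
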