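import Pool.Agent.H312.Sub.Inner
import Pool.Agent.H312.Sub.Abel

set_option autoImplicit false

/-!
# Dirichlet polynomials over the lattice points of a simplex
-/

open Finset

namespace Pool.Agent.H312.Sub

open Pool.Agent.H469R2.NK (e norm_e e_add norm_sum_neg)

/-- the linear form -/
noncomputable def lam {r : ℕ} (a : ℝ) (w : Fin r → ℝ) (m : Fin r → ℕ) : ℝ :=
  a + ∑ i, (m i : ℝ) * w i

/-- the lattice points of the simplex -/
noncomputable def AA {r : ℕ} (a : ℝ) (w : Fin r → ℝ) (U : ℝ) : Finset (Fin r → ℕ) :=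
  {m ∈ Finset.Iic (fun i => ⌊U / w i⌋₊) | lam a w m ≤ U}

variable {r : ℕ} {a : ℝ}

lemma lam_ge {w : Fin r → ℝ} (hw : ∀ i, 0 < w i) (m : Fin r → ℕ) : a ≤ lam a w m := by
  unfold lam
  have : 0 ≤ ∑ i, (m i : ℝ) * w i :=
    Finset.sum_nonneg fun i _ => mul_nonneg (Nat.cast_nonneg _) (hw i).le
  linarith

lemma mem_AA (ha : 0 < a) {w : Fin r → ℝ} (hw : ∀ i, 0 < w i) (U : ℝ) (m : Fin r → ℕ) :
    m ∈ AA a w U ↔ lam a w m ≤ U := by
  unfold AA
  rw [Finset.mem_filter]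
  refine ⟨fun h => h.2, fun h => ⟨?_, h⟩⟩
  rw [Finset.mem_Iic]
  intro i
  apply Nat.le_floor
  rw [le_div_iff₀ (hw i)]
  have h1 : (m i : ℝ) * w i ≤ ∑ i, (m i : ℝ) * w i :=
    Finset.single_le_sum (f := fun i => (m i : ℝ) * w i)
      (fun i _ => mul_nonneg (Nat.cast_nonneg _) (hw i).le) (Finset.mem_univ i)
  unfold lam at h
  linarith

lemma card_AA (ha : 0 < a) {w : Fin r → ℝ} (hw : ∀ i, 0 < w i) {U : ℝ} (hU : a ≤ U) :
    ((AA a w U).card : ℝ) ≤ (∏ i, (1 / w i + 1 / a)) * U ^ r := by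
  have hU0 : 0 < U := ha.trans_le hU
  have h1 : (AA a w U).card ≤ (Finset.Iic (fun i => ⌊U / w i⌋₊)).card :=
    Finset.card_le_card (Finset.filter_subset _ _)
  have h2 : (Finset.Iic (fun i => ⌊U / w i⌋₊)).card = ∏ i, (⌊U / w i⌋₊ + 1) := by
    rw [Pi.card_Iic]
    simp
  have h3 : (((∏ i, (⌊U / w i⌋₊ + 1) : ℕ)) : ℝ) ≤ ∏ i, ((1 / w i + 1 / a) * U) := by
    push_cast
    refine Finset.prod_le_prod (fun i _ => by positivity) (fun i _ => ?_)
    have h4 : (⌊U / w i⌋₊ : ℝ) ≤ U / w i := Nat.floor_le (by have := hw i; positivity)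
    have h5 : 1 ≤ U / a := by rw [le_div_iff₀ ha]; linarith
    calc (⌊U / w i⌋₊ : ℝ) + 1 ≤ U / w i + U / a := add_le_add h4 h5
      _ = _ := by ring
  rw [Finset.prod_mul_distrib, Finset.prod_const, Finset.card_univ, Fintype.card_fin] at h3
  calc ((AA a w U).card : ℝ) ≤ (((∏ i, (⌊U / w i⌋₊ + 1) : ℕ)) : ℝ) := by
        rw [← h2]
        exact_mod_cast h1
    _ ≤ _ := h3

lemma lam_cons {w : Fin (r + 1) → ℝ} (n : ℕ) (m : Fin r → ℕ) :
    lam a w (Fin.cons n m : Fin (r + 1) → ℕ) = lam a (fun i => w i.succ) m + n * w 0 := by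
  unfold lam
  rw [Fin.sum_univ_succ]
  simp only [Fin.cons_zero, Fin.cons_succ]
  ring

lemma split_sum (ha : 0 < a) {w : Fin (r + 1) → ℝ} (hw : ∀ i, 0 < w i) (U : ℝ)
    (F : (Fin (r + 1) → ℕ) → ℂ) :
    ∑ m ∈ AA a w U, F m = ∑ m ∈ AA a (fun i => w i.succ) U,
      ∑ n ∈ range (⌊(U - lam a (fun i => w i.succ) m) / w 0⌋₊ + 1),
        F (Fin.cons n m : Fin (r + 1) → ℕ) := by
  rw [Finset.sum_sigma']
  have hw0 := hw 0
  refine Finset.sum_bij' (fun m _ => (⟨fun i => m i.succ, m 0⟩ : (_ : Fin r → ℕ) × ℕ))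
    (fun x _ => (Fin.cons x.2 x.1 : Fin (r + 1) → ℕ)) ?_ ?_ ?_ ?_ ?_
  · intro m hm
    rw [mem_AA ha hw] at hm
    have h1 : m = (Fin.cons (m 0) (fun i => m i.succ) : Fin (r + 1) → ℕ) := (Fin.cons_self_tail m).symm
    rw [h1, lam_cons] at hm
    rw [Finset.mem_sigma, mem_AA ha (fun i => hw i.succ)]
    simp only
    have h2 : 0 ≤ (m 0 : ℝ) * w 0 := by positivity
    refine ⟨by linarith, ?_⟩
    rw [Finset.mem_range, Nat.lt_add_one_iff]
    apply Nat.le_floor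
    rw [le_div_iff₀ hw0]
    linarith
  · rintro ⟨m, n⟩ hx
    rw [Finset.mem_sigma, mem_AA ha (fun i => hw i.succ)] at hx
    simp only at hx
    rw [mem_AA ha hw, lam_cons]
    have h2 := hx.2
    rw [Finset.mem_range, Nat.lt_add_one_iff, Nat.le_floor_iff (div_nonneg (by linarith [hx.1]) hw0.le),
      le_div_iff₀ hw0] at h2
    linarith
  · intro m _
    exact Fin.cons_self_tail m
  · rintro ⟨m, n⟩ _
    rfl
  · intro m _
    congr 1
    exact (Fin.cons_self_tail m).symm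

/-- the unweighted sums -/
theorem unit_bound (Q : ℕ) (hQ : 1 ≤ Q) (ha : 0 < a) {w : Fin (r + 1) → ℝ} (hw : ∀ i, 0 < w i) :
    ∃ C κ : ℝ, 0 < C ∧ 0 < κ ∧ ∀ θ : ℝ, 0 < θ → θ ≤ eta Q → ∀ Z U : ℝ, 1 ≤ Z → a ≤ U →
      U ≤ κ * Z ^ 2 →
      ‖∑ m ∈ AA a w U, e (-(Z * Real.log (lam a w m)))‖ ≤
        C * Z ^ (θ / Q) * U ^ ((r : ℝ) + 1 - θ) := by
  obtain ⟨C, hC, h⟩ := inner_bound Q hQ
  have h8 := eta_le hQ
  have hw0 := hw 0
  set K : ℝ := 1 / w 0 + 1 / a with hK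
  have hK0 : 0 < K := by positivity
  set P : ℝ := ∏ i : Fin r, (1 / w i.succ + 1 / a) with hP
  have hP0 : 0 < P := Finset.prod_pos fun i _ => by
    have := hw i.succ
    positivity
  refine ⟨C * (1 + K) * P, 1 / (2 * K), by positivity, by positivity,
    fun θ hθ hθ1 Z U hZ hU hUZ => ?_⟩
  have hU0 : 0 < U := ha.trans_le hU
  have hZ0 : 0 < Z := by linarith
  rw [split_sum ha hw]
  have hin : ∀ m ∈ AA a (fun i => w i.succ) U,
      ‖∑ n ∈ range (⌊(U - lam a (fun i => w i.succ) m) / w 0⌋₊ + 1),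
        e (-(Z * Real.log (lam a w (Fin.cons n m : Fin (r + 1) → ℕ))))‖ ≤
      C * (1 + K) * U ^ (1 - θ) * Z ^ (θ / Q) := by
    intro m hm
    rw [mem_AA ha (fun i => hw i.succ)] at hm
    set b := lam a (fun i => w i.succ) m with hb
    have hb0 : 0 < b := ha.trans_le (lam_ge (fun i => hw i.succ) m)
    set L := ⌊(U - b) / w 0⌋₊ + 1 with hL
    have hLle : (L : ℝ) ≤ (U - b) / w 0 + 1 := by
      rw [hL]
      push_cast
      have := Nat.floor_le (div_nonneg (by linarith : (0 : ℝ) ≤ U - b) hw0.le)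
      linarith
    set u : ℝ := U / w 0 + 1 with hu
    have hu1 : 1 ≤ u := by
      rw [hu]
      have : 0 ≤ U / w 0 := by positivity
      linarith
    have huK : u ≤ K * U := by
      have : 1 ≤ U / a := by rw [le_div_iff₀ ha]; linarith
      calc u ≤ U / w 0 + U / a := by rw [hu]; linarith
        _ = K * U := by rw [hK]; ring
    have h1 := h θ hθ hθ1 Z u (b / w 0) L hZ hu1 (by
      calc 2 * u ≤ 2 * (K * U) := by linarith
        _ ≤ 2 * (K * (1 / (2 * K) * Z ^ 2)) := by gcongr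
        _ = Z ^ 2 := by field_simp) (by positivity) (by
      calc b / w 0 + L ≤ b / w 0 + ((U - b) / w 0 + 1) := by linarith
        _ = u := by rw [hu]; ring)
    have h2 : ∑ n ∈ range L, e (-(Z * Real.log (lam a w (Fin.cons n m : Fin (r + 1) → ℕ)))) =
        e (-(Z * Real.log (w 0))) * ∑ n ∈ range L, e (-(Z * Real.log (b / w 0 + n))) := by
      rw [Finset.mul_sum]
      refine Finset.sum_congr rfl fun n _ => ?_
      rw [lam_cons, ← e_add]
      congr 1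
      have h3 : b + n * w 0 = w 0 * (b / w 0 + n) := by field_simp
      have h4 : 0 < b / w 0 + n := by positivity
      rw [h3, Real.log_mul hw0.ne' h4.ne']
      ring
    rw [h2, norm_mul, norm_e, one_mul, norm_sum_neg]
    refine h1.trans ?_
    have h5 : u ^ (1 - θ) ≤ (1 + K) * U ^ (1 - θ) := by
      calc u ^ (1 - θ) ≤ (K * U) ^ (1 - θ) := Real.rpow_le_rpow (by linarith) huK (by linarith)
        _ = K ^ (1 - θ) * U ^ (1 - θ) := Real.mul_rpow hK0.le hU0.le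
        _ ≤ (1 + K) * U ^ (1 - θ) := by
            gcongr
            calc K ^ (1 - θ) ≤ (1 + K) ^ (1 - θ) :=
                  Real.rpow_le_rpow hK0.le (by linarith) (by linarith)
              _ ≤ (1 + K) ^ (1 : ℝ) :=
                  Real.rpow_le_rpow_of_exponent_le (by linarith) (by linarith)
              _ = 1 + K := Real.rpow_one _
    calc C * u ^ (1 - θ) * Z ^ (θ / Q) ≤ C * ((1 + K) * U ^ (1 - θ)) * Z ^ (θ / Q) := by gcongr
      _ = _ := by ring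
  refine (norm_sum_le _ _).trans ((Finset.sum_le_sum hin).trans ?_)
  rw [Finset.sum_const, nsmul_eq_mul]
  have hcard := card_AA ha (w := fun i => w i.succ) (fun i => hw i.succ) hU
  calc ((AA a (fun i => w i.succ) U).card : ℝ) * (C * (1 + K) * U ^ (1 - θ) * Z ^ (θ / Q)) ≤
      (P * U ^ r) * (C * (1 + K) * U ^ (1 - θ) * Z ^ (θ / Q)) := by gcongr
    _ = C * (1 + K) * P * Z ^ (θ / Q) * (U ^ r * U ^ (1 - θ)) := by ring
    _ = _ := by
        rw [← Real.rpow_natCast, ← Real.rpow_add hU0]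
        congr 2
        ring

/-- the Dirichlet polynomial -/
noncomputable def PP {r : ℕ} (a : ℝ) (w : Fin r → ℝ) (X : ℝ) (s : ℂ) : ℂ :=
  ∑ m ∈ AA a w X, ((lam a w m : ℝ) : ℂ) ^ (-s)

lemma PP_diff (ha : 0 < a) {w : Fin r → ℝ} (hw : ∀ i, 0 < w i) (X : ℝ) :
    Differentiable ℂ (PP a w X) := by
  unfold PP
  refine Differentiable.fun_sum fun m _ => ?_
  have h0 : ((lam a w m : ℝ) : ℂ) ≠ 0 := by
    exact_mod_cast (ha.trans_le (lam_ge hw m)).ne'
  exact (differentiable_neg).const_cpow (Or.inl h0)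

lemma term_eq {x : ℝ} (hx : 0 < x) (σ t : ℝ) :
    ((x : ℝ) : ℂ) ^ (-((σ : ℂ) + t * Complex.I)) =
      ((x ^ (-σ) : ℝ) : ℂ) * e (-(t / (2 * Real.pi) * Real.log x)) := by
  have hp := Real.pi_pos
  have hx0 : ((x : ℝ) : ℂ) ≠ 0 := by exact_mod_cast hx.ne'
  rw [Complex.cpow_def_of_ne_zero hx0, ← Complex.ofReal_log hx.le, Real.rpow_def_of_pos hx]
  unfold Pool.Agent.H469R2.NK.e
  rw [Complex.ofReal_exp, ← Complex.exp_add]
  congr 1
  have h1 : (2 * Real.pi * (-(t / (2 * Real.pi) * Real.log x))) = -(t * Real.log x) := by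
    field_simp
  rw [h1]
  push_cast
  ring

lemma PP_triv (ha : 0 < a) {w : Fin r → ℝ} (hw : ∀ i, 0 < w i) (β : ℝ) :
    ∃ C : ℝ, 0 < C ∧ ∀ (X : ℝ) (z : ℂ), a ≤ X → 0 ≤ z.re → z.re ≤ β → ‖PP a w X z‖ ≤ C * X ^ r := by
  set P : ℝ := ∏ i : Fin r, (1 / w i + 1 / a) with hP
  have hP0 : 0 < P := Finset.prod_pos fun i _ => by
    have := hw i
    positivity
  set M : ℝ := (1 + 1 / a) ^ |β| with hM
  have hM0 : 0 < M := by positivity
  refine ⟨M * P, by positivity, fun X z hX hz hzβ => ?_⟩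
  have hterm : ∀ m ∈ AA a w X, ‖((lam a w m : ℝ) : ℂ) ^ (-z)‖ ≤ M := by
    intro m _
    have hl := lam_ge (a := a) hw m
    have hl0 : 0 < lam a w m := ha.trans_le hl
    rw [Complex.norm_cpow_eq_rpow_re_of_pos hl0, Complex.neg_re]
    calc lam a w m ^ (-z.re) ≤ a ^ (-z.re) := Real.rpow_le_rpow_of_nonpos ha hl (by linarith)
      _ = (1 / a) ^ z.re := by rw [one_div, Real.inv_rpow ha.le, Real.rpow_neg ha.le]
      _ ≤ (1 + 1 / a) ^ z.re := Real.rpow_le_rpow (by positivity) (by linarith) hz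
      _ ≤ (1 + 1 / a) ^ |β| := by
          apply Real.rpow_le_rpow_of_exponent_le
          · have : 0 < 1 / a := by positivity
            linarith
          · exact hzβ.trans (le_abs_self β)
  unfold PP
  refine (norm_sum_le _ _).trans ((Finset.sum_le_sum hterm).trans ?_)
  rw [Finset.sum_const, nsmul_eq_mul]
  have hcard := card_AA ha hw hX
  calc ((AA a w X).card : ℝ) * M ≤ (P * X ^ r) * M := by gcongr
    _ = _ := by ring

/-- **The Dirichlet polynomials.** -/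
theorem PP_bound (Q : ℕ) (hQ : 1 ≤ Q) (hr : 1 ≤ r) (ha : 0 < a) {w : Fin r → ℝ}
    (hw : ∀ i, 0 < w i) {σ θ : ℝ} (hσ : 0 < σ) (hθ : 0 < θ) (hθ1 : θ ≤ eta Q) (hσθ : σ + θ < r) :
    ∃ C κ : ℝ, 0 < C ∧ 0 < κ ∧ ∀ t X : ℝ, 7 ≤ t → a ≤ X → X ≤ κ * t ^ 2 →
      ‖PP a w X ((σ : ℂ) + t * Complex.I)‖ ≤ C * t ^ (θ / Q) * X ^ ((r : ℝ) - σ - θ) := by
  have hp := Real.pi_pos
  obtain ⟨r', rfl⟩ : ∃ r', r = r' + 1 := ⟨r - 1, by omega⟩
  obtain ⟨C, κ, hC, hκ, h⟩ := unit_bound Q hQ ha hw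
  have hr' : (((r' + 1 : ℕ) : ℕ) : ℝ) = (r' : ℝ) + 1 := by push_cast; ring
  rw [hr'] at hσθ ⊢
  have hgap : 0 < (r' : ℝ) + 1 - θ - σ := by linarith
  refine ⟨C * (1 + σ / ((r' : ℝ) + 1 - θ - σ)), κ / (2 * Real.pi) ^ 2, by positivity, by positivity,
    fun t X ht hX hXt => ?_⟩
  set Z : ℝ := t / (2 * Real.pi) with hZ
  have hZ1 : 1 ≤ Z := by
    rw [hZ, le_div_iff₀ (by positivity)]
    have := Real.pi_lt_d2
    linarith
  have hZt : Z ≤ t := by
    rw [hZ, div_le_iff₀ (by positivity)]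
    have := Real.pi_gt_three
    nlinarith
  have hXZ : X ≤ κ * Z ^ 2 := by
    refine hXt.trans (le_of_eq ?_)
    rw [hZ]
    field_simp
  have hQ' : (1 : ℝ) ≤ Q := by exact_mod_cast hQ
  have hrep : PP a w X ((σ : ℂ) + t * Complex.I) = ∑ m ∈ AA a w X,
      ((lam a w m ^ (-σ) : ℝ) : ℂ) * e (-(Z * Real.log (lam a w m))) := by
    unfold PP
    refine Finset.sum_congr rfl fun m _ => ?_
    rw [term_eq (ha.trans_le (lam_ge hw m))]
  rw [hrep]
  have hab := abel_bound (AA a w X) (lam a w) (fun m => e (-(Z * Real.log (lam a w m)))) (a := a)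
    (X := X) (σ := σ) (ρ := (r' : ℝ) + 1 - θ) (B := C * Z ^ (θ / Q)) ha hX hσ (by linarith)
    (by positivity) (fun m _ => lam_ge hw m) (fun m hm => (mem_AA ha hw X m).1 hm) (by
      intro u hu huX
      have h1 : {m ∈ AA a w X | lam a w m ≤ u} = AA a w u := by
        ext m
        rw [Finset.mem_filter, mem_AA ha hw, mem_AA ha hw]
        exact ⟨fun h => h.2, fun h => ⟨h.trans huX, h⟩⟩
      rw [h1]
      exact h θ hθ hθ1 Z u hZ1 hu (huX.trans hXZ))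
  refine hab.trans ?_
  have h2 : Z ^ (θ / Q) ≤ t ^ (θ / Q) := Real.rpow_le_rpow (by linarith) hZt (by positivity)
  have h3 : 0 < 1 + σ / ((r' : ℝ) + 1 - θ - σ) := by positivity
  have hX0 : 0 < X := ha.trans_le hX
  calc C * Z ^ (θ / Q) * (1 + σ / ((r' : ℝ) + 1 - θ - σ)) * X ^ ((r' : ℝ) + 1 - θ - σ) ≤
      C * t ^ (θ / Q) * (1 + σ / ((r' : ℝ) + 1 - θ - σ)) * X ^ ((r' : ℝ) + 1 - θ - σ) := by gcongr
    _ = C * (1 + σ / ((r' : ℝ) + 1 - θ - σ)) * t ^ (θ / Q) * X ^ ((r' : ℝ) + 1 - σ - θ) := by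
        have : (r' : ℝ) + 1 - θ - σ = (r' : ℝ) + 1 - σ - θ := by ring
        rw [this]
        ring

end Pool.Agent.H312.Sub
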