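import Pool.Graph.R_seed8.H469R2.NK.Iter

set_option autoImplicit false

/-!
# Iterated differences of the logarithm and the method of Weyl and van der Corput
-/

open Finset

namespace Pool.Agent.H312.Sub

open Pool.Agent.H469R2.NK (e norm_e e_add conj_e vdcH kusmin_landau_anti norm_sum_neg Cq Cq_pos
  iterate Av Av_le)

/-- the derivatives of the logarithm -/
noncomputable def lg : ℕ → ℝ → ℝ
  | 0, x => Real.log x
  | r + 1, x => (-1) ^ r * r.factorial / x ^ (r + 1)

/-- iterated differences of the derivatives of the logarithm -/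
noncomputable def E : List ℕ → ℕ → ℝ → ℝ
  | [], r, x => lg r x
  | l :: ls, r, x => E ls r (x + l) - E ls r x

lemma hasDerivAt_lg (r : ℕ) {x : ℝ} (hx : 0 < x) : HasDerivAt (lg r) (lg (r + 1) x) x := by
  cases r with
  | zero =>
    have h := Real.hasDerivAt_log hx.ne'
    have e1 : lg 0 = Real.log := by funext y; rfl
    rw [e1]
    refine h.congr_deriv ?_
    simp [lg]
  | succ r =>
    have h1 : HasDerivAt (fun y : ℝ => (y ^ (r + 1))⁻¹)
        (-(((r + 1 : ℕ) : ℝ) * x ^ r) / (x ^ (r + 1)) ^ 2) x := by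
      have := (hasDerivAt_pow (r + 1) x).fun_inv (by positivity)
      simpa using this
    have h2 := h1.const_mul ((-1) ^ r * (r.factorial : ℝ))
    have e1 : lg (r + 1) = fun y : ℝ => (-1) ^ r * (r.factorial : ℝ) * (y ^ (r + 1))⁻¹ := by
      funext y; simp only [lg, div_eq_mul_inv]
    rw [e1]
    refine h2.congr_deriv ?_
    have hx' : x ≠ 0 := hx.ne'
    have e2 : lg (r + 1 + 1) x = (-1) ^ (r + 1) * (r + 1).factorial / x ^ (r + 1 + 1) := rfl
    rw [e2, Nat.factorial_succ]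
    push_cast
    field_simp
    ring

lemma hasDerivAt_E (ls : List ℕ) (r : ℕ) {x : ℝ} (hx : 0 < x) :
    HasDerivAt (E ls r) (E ls (r + 1) x) x := by
  induction ls generalizing x with
  | nil => exact hasDerivAt_lg r hx
  | cons l ls ih =>
    have h1 : HasDerivAt (fun y => E ls r (y + l)) (E ls (r + 1) (x + l)) x := by
      have := (ih (x := x + l) (by positivity))
      exact this.comp_add_const x (l : ℝ)
    exact h1.sub (ih hx)

/-- size of the iterated differences -/
lemma E_bounds (ls : List ℕ) (r : ℕ) {N x : ℝ} (hN : 0 < N) (hx : N ≤ x)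
    (hx2 : x + (ls.sum : ℕ) ≤ 3 * N) (k : ℕ) (hk : ls.length + r = k + 1) :
    ((k.factorial : ℕ) : ℝ) / (3 * N) ^ (k + 1) * (ls.prod : ℕ) ≤ (-1) ^ k * E ls r x ∧
      (-1) ^ k * E ls r x ≤ ((k.factorial : ℕ) : ℝ) / N ^ (k + 1) * (ls.prod : ℕ) := by
  induction ls generalizing r x with
  | nil =>
    simp only [List.length_nil, zero_add] at hk
    subst hk
    simp only [List.prod_nil, Nat.cast_one, mul_one, E] at *
    have h1 : (-1 : ℝ) ^ k * lg (k + 1) x = k.factorial / x ^ (k + 1) := by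
      unfold lg
      rw [← mul_div_assoc, ← mul_assoc, ← mul_pow]
      norm_num
    rw [h1]
    have hx0 : 0 < x := hN.trans_le hx
    have hx3 : x ≤ 3 * N := by simpa using hx2
    constructor <;> gcongr
  | cons l ls ih =>
    simp only [List.length_cons, List.prod_cons, List.sum_cons] at *
    rw [Nat.cast_add] at hx2
    rw [Nat.cast_mul]
    rcases Nat.eq_zero_or_pos l with rfl | hl
    · simp [E]
    have hl' : (0 : ℝ) < l := by exact_mod_cast hl
    obtain ⟨ξ, hξ, hξ2⟩ := exists_hasDerivAt_eq_slope (E ls r) (E ls (r + 1)) (a := x) (b := x + l)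
      (by linarith) (fun y hy => (hasDerivAt_E ls r (by linarith [hy.1])).continuousAt.continuousWithinAt)
      (fun y hy => hasDerivAt_E ls r (by linarith [hy.1]))
    have h1 : E (l :: ls) r x = l * E ls (r + 1) ξ := by
      simp only [E]
      rw [hξ2, add_sub_cancel_left]; field_simp
    have h2 := ih (r := r + 1) (x := ξ) (by linarith [hξ.1]) (by linarith [hξ.2]) (by omega)
    rw [h1]
    have e1 : (-1 : ℝ) ^ k * (l * E ls (r + 1) ξ) = l * ((-1 : ℝ) ^ k * E ls (r + 1) ξ) := by ring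
    rw [e1]
    constructor
    · calc _ = (l : ℝ) * (((k.factorial : ℕ) : ℝ) / (3 * N) ^ (k + 1) * (ls.prod : ℕ)) := by
            ring
        _ ≤ _ := by
            have := h2.1
            gcongr
    · calc _ ≤ (l : ℝ) * (((k.factorial : ℕ) : ℝ) / N ^ (k + 1) * (ls.prod : ℕ)) := by
            have := h2.2
            gcongr
        _ = _ := by ring

/-- the differenced sum -/
noncomputable def TT (Z a : ℝ) (L : ℕ) (ls : List ℕ) : ℂ :=
  ∑ n ∈ range (L - ls.sum), e (Z * E ls 0 (a + n))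

lemma TT_sq (Z a : ℝ) (L H : ℕ) (ls : List ℕ) :
    (H : ℝ) * ‖TT Z a L ls‖ ^ 2 ≤ (L + H) * (L + 2 * ∑ l ∈ Ico 1 H, ‖TT Z a L (l :: ls)‖) := by
  have h := vdcH (fun n => e (Z * E ls 0 (a + n))) (fun n => (norm_e _).le) (L - ls.sum) H
  have h1 : ∀ l, ∑ n ∈ range (L - ls.sum - l), e (Z * E ls 0 (a + ((n + l : ℕ) : ℝ))) *
      (starRingEnd ℂ) (e (Z * E ls 0 (a + n))) = TT Z a L (l :: ls) := by
    intro l
    unfold TT
    rw [List.sum_cons, show L - (l + ls.sum) = L - ls.sum - l by omega]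
    refine sum_congr rfl fun n _ => ?_
    rw [conj_e, ← e_add]
    congr 1
    simp only [E]
    push_cast
    rw [show a + (n : ℝ) + l = a + (n + l) by ring]
    ring
  simp only [h1] at h
  refine h.trans ?_
  have h2 : ((L - ls.sum : ℕ) : ℝ) ≤ L := by exact_mod_cast Nat.sub_le _ _
  gcongr

/-- last step: Kusmin–Landau -/
lemma TT_le (Z : ℝ) (hZ : 0 < Z) (N a : ℝ) (L : ℕ) (hN : 0 < N) (ha : N ≤ a)
    (haL : a + L ≤ 3 * N) (ls : List ℕ) (hls : 0 < ls.prod)
    (hup : 2 * (Z * ((ls.length).factorial / (N : ℝ) ^ (ls.length + 1) * (ls.prod : ℕ))) ≤ 1) :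
    ‖TT Z a L ls‖ ≤ 2 * (3 * N) ^ (ls.length + 1) / (Z * (ls.length).factorial * (ls.prod : ℕ)) := by
  have hP : (0 : ℝ) < (ls.prod : ℕ) := by exact_mod_cast hls
  rcases Nat.lt_or_ge L (ls.sum + 1) with hL | hL
  · unfold TT
    rw [show L - ls.sum = 0 by omega]
    simp only [range_zero, sum_empty, norm_zero]
    positivity
  set θ : ℝ := Z * ((ls.length).factorial / (3 * (N : ℝ)) ^ (ls.length + 1) * (ls.prod : ℕ)) with hθ
  have hθ0 : 0 < θ := by positivity
  set σ : ℝ := (-1) ^ (ls.length) with hσ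
  have hσ1 : σ = 1 ∨ σ = -1 := neg_one_pow_eq_or ℝ _
  have hxN : ∀ n : ℕ, N ≤ a + n := fun n => by
    have : (0 : ℝ) ≤ n := Nat.cast_nonneg n
    linarith
  have hsumle : ∀ n < L - ls.sum, (n : ℝ) + 1 + (ls.sum : ℕ) ≤ L := by
    intro n hn
    have : n + 1 + ls.sum ≤ L := by omega
    exact_mod_cast this
  have hx1 : ∀ n < L - ls.sum, θ ≤ σ * (Z * E (1 :: ls) 0 (a + n)) ∧
      σ * (Z * E (1 :: ls) 0 (a + n)) ≤ 1 / 2 := by
    intro n hn
    have h := E_bounds (1 :: ls) 0 (N := N) (x := a + n) hN (hxN n) (by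
      have := hsumle n hn
      rw [List.sum_cons, Nat.cast_add, Nat.cast_one]
      linarith) ls.length (by simp)
    simp only [List.prod_cons, one_mul] at h
    have e1 : σ * (Z * E (1 :: ls) 0 (a + n)) =
      Z * ((-1) ^ (ls.length) * E (1 :: ls) 0 (a + n)) := by rw [hσ]; ring
    rw [e1]
    constructor
    · exact mul_le_mul_of_nonneg_left h.1 hZ.le
    · have h2 := mul_le_mul_of_nonneg_left h.2 hZ.le
      linarith
  have hθ2 : θ ≤ 1 / 2 := (hx1 0 (by omega)).1.trans (hx1 0 (by omega)).2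
  have hdiff : ∀ n : ℕ, σ * (Z * E ls 0 (a + ((n + 1 : ℕ) : ℝ))) - σ * (Z * E ls 0 (a + n)) =
      σ * (Z * E (1 :: ls) 0 (a + n)) := by
    intro n
    simp only [E]
    push_cast
    rw [show a + (n : ℝ) + 1 = a + (n + 1) by ring]
    ring
  have hdiff2 : ∀ n, n + 1 < L - ls.sum → σ * (Z * E (1 :: ls) 0 (a + ((n + 1 : ℕ) : ℝ))) ≤
      σ * (Z * E (1 :: ls) 0 (a + n)) := by
    intro n hn
    have h := E_bounds (1 :: 1 :: ls) 0 (N := N) (x := a + n) hN (hxN n) (by
      have h1 : ((n + 1 : ℕ) : ℝ) + 1 + (ls.sum : ℕ) ≤ L := hsumle (n + 1) hn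
      rw [List.sum_cons, List.sum_cons, Nat.cast_add, Nat.cast_add, Nat.cast_one]
      rw [Nat.cast_add, Nat.cast_one] at h1
      linarith) (ls.length + 1) (by simp)
    simp only [List.prod_cons, one_mul] at h
    have h0 := h.1
    have h1 : (0 : ℝ) ≤ (-1) ^ (ls.length + 1) * E (1 :: 1 :: ls) 0 (a + n) :=
      le_trans (by positivity) h0
    have h2 : E (1 :: 1 :: ls) 0 (a + n) =
        E (1 :: ls) 0 (a + ((n + 1 : ℕ) : ℝ)) - E (1 :: ls) 0 (a + n) := by
      conv_lhs => rw [E]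
      push_cast
      rw [show a + (n : ℝ) + 1 = a + (n + 1) by ring]
    rw [h2, pow_succ] at h1
    have h3 := mul_nonneg hZ.le h1
    have e3 : Z * ((-1) ^ (ls.length) * -1 * (E (1 :: ls) 0 (a + ((n + 1 : ℕ) : ℝ)) -
        E (1 :: ls) 0 (a + n))) =
      σ * (Z * E (1 :: ls) 0 (a + n)) - σ * (Z * E (1 :: ls) 0 (a + ((n + 1 : ℕ) : ℝ))) := by
      rw [hσ]; ring
    rw [e3] at h3
    linarith
  have hKL := kusmin_landau_anti (fun n => σ * (Z * E ls 0 (a + n))) (L - ls.sum) hθ0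
    (fun n hn => by rw [hdiff]; exact (hx1 n hn).1)
    (fun n hn => by rw [hdiff]; linarith [(hx1 n hn).2])
    (fun n hn => by
      rw [hdiff, hdiff]
      exact hdiff2 n hn)
  have hnorm : ‖TT Z a L ls‖ = ‖∑ n ∈ range (L - ls.sum), e (σ * (Z * E ls 0 (a + n)))‖ := by
    unfold TT
    rcases hσ1 with h | h
    · rw [h]; simp
    · rw [h, ← norm_sum_neg]
      congr 1
      refine sum_congr rfl fun n _ => ?_
      congr 1; ring
  rw [hnorm]
  refine hKL.trans (le_of_eq ?_)
  rw [hθ]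
  field_simp

end Pool.Agent.H312.Sub
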