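import Pool.Agent.H312.Sub.LogD
import Pool.Graph.R_seed8.H469R2.NK.ExpSum

set_option autoImplicit false

/-!
# Sums of `n^{it}` over blocks
-/

open Finset

namespace Pool.Agent.H312.Sub

open Pool.Agent.H469R2.NK (e norm_e e_add conj_e vdcH kusmin_landau_anti norm_sum_neg Cq Cq_pos
  iterate Av Av_le harm_le)

lemma tt_bound (q : ℕ) (Z : ℝ) (hZ : 0 < Z) (N a : ℝ) (L H : ℕ) (hN : 1 ≤ N) (ha : N ≤ a)
    (hL : (L : ℝ) ≤ N) (haL : a + L ≤ 3 * N) (hH : 1 ≤ H) (hHN : (H : ℝ) ≤ N)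
    (hup : 2 * (Z * (q.factorial / (N : ℝ) ^ (q + 1) * (H : ℝ) ^ q)) ≤ 1) :
    (‖TT Z a L []‖ / N) ^ (2 ^ q) ≤ Cq q * (1 / H +
      (2 * (3 * N) ^ (q + 1) / (Z * q.factorial) / N) * ((∑ l ∈ Ico 1 H, (1 : ℝ) / l) / H) ^ q) := by
  have hH' : (1 : ℝ) ≤ H := by exact_mod_cast hH
  have hstep : ∀ ls : List ℕ, (‖TT Z a L ls‖ / N) ^ 2 ≤
      2 / H + 4 * ((∑ l ∈ Ico 1 H, ‖TT Z a L (l :: ls)‖ / N) / H) := by
    intro ls
    have h := TT_sq Z a L H ls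
    set Sg := ∑ l ∈ Ico 1 H, ‖TT Z a L (l :: ls)‖ with hSg
    have hSg0 : 0 ≤ Sg := sum_nonneg fun _ _ => norm_nonneg _
    have h2 : (H : ℝ) * ‖TT Z a L ls‖ ^ 2 ≤ (2 * N) * (N + 2 * Sg) := by
      refine h.trans ?_
      have : (L : ℝ) + H ≤ 2 * N := by linarith
      gcongr
    rw [← sum_div, ← hSg]
    have e1 : 2 / (H : ℝ) + 4 * (Sg / N / H) = ((2 * N) * (N + 2 * Sg)) / (H * N ^ 2) := by
      field_simp
      ring
    rw [e1, div_pow, div_le_div_iff₀ (by positivity) (by positivity)]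
    calc ‖TT Z a L ls‖ ^ 2 * (H * N ^ 2) = ((H : ℝ) * ‖TT Z a L ls‖ ^ 2) * N ^ 2 := by ring
      _ ≤ _ := by gcongr
  have hit := iterate hH (fun ls => ‖TT Z a L ls‖ / N) (fun ls => by positivity) hstep q []
  refine hit.trans ?_
  have hC := Cq_pos q
  gcongr
  have := Av_le (H := H) (T := fun ls => ‖TT Z a L ls‖ / N)
    (κ := 2 * (3 * N) ^ (q + 1) / (Z * q.factorial) / N) q (by
      intro ls hlen hent
      have hpos : 0 < ls.prod := List.prod_pos fun l hl => (hent l hl).1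
      have hle : ls.prod ≤ H ^ q := by
        have := List.prod_le_pow_card ls H (fun l hl => (hent l hl).2.le)
        rwa [hlen] at this
      have hle' : ((ls.prod : ℕ) : ℝ) ≤ (H : ℝ) ^ q := by exact_mod_cast hle
      have h1 := TT_le Z hZ N a L (by linarith) ha haL ls hpos (by
        rw [hlen]
        refine le_trans ?_ hup
        gcongr)
      rw [hlen] at h1
      have hP : (0 : ℝ) < (ls.prod : ℕ) := by exact_mod_cast hpos
      calc ‖TT Z a L ls‖ / N ≤ (2 * (3 * N) ^ (q + 1) / (Z * q.factorial * (ls.prod : ℕ))) / N := by gcongr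
        _ = _ := by field_simp) q [] (by simp) (by simp)
  simpa using this

lemma alg_aux (Z N F W A3 Y G X B : ℝ) (hZ : Z ≠ 0) (hN : N ≠ 0) (hF : F ≠ 0) (hW : W ≠ 0) :
    2 * (A3 * (Y * N)) / (Z * F) / N * (G * X * B / W) = (2 * A3 / F) * B * G * (X * Y / (Z * W)) := by
  field_simp

/-- sums of `e (Z log n)` over blocks -/
theorem log_sum_bound (Q : ℕ) (hQ : 1 ≤ Q) :
    ∃ C : ℝ, 0 < C ∧ ∀ (N a : ℝ) (L : ℕ) (Z : ℝ), 1 ≤ N → N ≤ a → (L : ℝ) ≤ N → a + L ≤ 3 * N →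
      N ^ (1 / 2 : ℝ) ≤ Z → Z ≤ N ^ Q →
      ‖∑ n ∈ range L, e (Z * Real.log (a + n))‖ ≤ C * N ^ (1 - 1 / (4 * (Q : ℝ) * 2 ^ Q)) := by
  set η : ℝ := 1 / (4 * Q * 2 ^ Q) with hη
  have hQ' : (1 : ℝ) ≤ Q := by exact_mod_cast hQ
  have hη0 : 0 < η := by rw [hη]; positivity
  have hη1 : η ≤ 1 := by
    rw [hη, div_le_one (by positivity)]
    have : (1 : ℝ) ≤ 2 ^ Q := one_le_pow₀ (by norm_num)
    nlinarith
  set N0 : ℝ := max 16 ((2 * Q.factorial) ^ 2) with hN0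
  set K : ℝ := Cq Q * (2 + (2 * 3 ^ (Q + 1) / Q.factorial) * 2 ^ Q * (1 + 4 * Q) ^ Q) with hK
  have hCq := Cq_pos Q
  have hK0 : 0 < K := by rw [hK]; positivity
  set C : ℝ := max (max 18 N0) (K ^ ((1 : ℝ) / 2 ^ Q)) with hC
  refine ⟨C, by rw [hC]; positivity, ?_⟩
  intro N a L Z hN' ha hL haL hZ1 hZ2
  have hNpos : (0 : ℝ) < N := by linarith
  have hCN0 : N0 ≤ C := (le_max_right _ _).trans (le_max_left _ _)
  have hCK : K ^ ((1 : ℝ) / 2 ^ Q) ≤ C := le_max_right _ _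
  have hC0 : 0 < C := by rw [hC]; positivity
  have hZ : 0 < Z := lt_of_lt_of_le (by positivity) hZ1
  have hSS : ∑ n ∈ range L, e (Z * Real.log (a + n)) = TT Z a L [] := by
    unfold TT
    simp only [List.sum_nil, Nat.sub_zero]
    rfl
  rw [hSS]
  have htriv : ‖TT Z a L []‖ ≤ N := by
    unfold TT
    refine (norm_sum_le _ _).trans ?_
    simp only [norm_e, sum_const, card_range, nsmul_eq_mul, mul_one, List.sum_nil, Nat.sub_zero]
    exact hL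
  rcases lt_or_ge N N0 with hsmall | hbig
  · refine htriv.trans ?_
    calc N ≤ N0 * 1 := by linarith
      _ ≤ C * N ^ (1 - η) := by
        gcongr
        exact Real.one_le_rpow hN' (by linarith)
  have h16 : (16 : ℝ) ≤ N := (le_max_left _ _).trans hbig
  have hfac : ((2 * Q.factorial : ℕ) : ℝ) ^ 2 ≤ N := by
    push_cast
    exact (le_max_right _ _).trans hbig
  set h : ℝ := (N ^ (Q + 1 / 2 : ℝ) / Z) ^ ((1 : ℝ) / Q) with hh
  have hhQ : h ^ Q = N ^ (Q + 1 / 2 : ℝ) / Z := by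
    rw [hh, ← Real.rpow_natCast, ← Real.rpow_mul (by positivity),
      one_div_mul_cancel (by positivity : (Q : ℝ) ≠ 0), Real.rpow_one]
  have hh0 : 0 ≤ h := by rw [hh]; positivity
  have hlow : N ^ (1 / 2 : ℝ) ≤ h ^ Q := by
    rw [hhQ, le_div_iff₀ hZ]
    calc N ^ (1 / 2 : ℝ) * Z ≤ N ^ (1 / 2 : ℝ) * N ^ Q := by gcongr
      _ = _ := by
        rw [← Real.rpow_natCast, ← Real.rpow_add hNpos]
        congr 1; ring
  have hupp : h ^ Q ≤ N ^ Q := by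
    rw [hhQ, div_le_iff₀ hZ]
    calc N ^ (Q + 1 / 2 : ℝ) = N ^ Q * N ^ (1 / 2 : ℝ) := by
          rw [Real.rpow_add hNpos, Real.rpow_natCast]
      _ ≤ _ := by gcongr
  have hhN : h ≤ N := le_of_pow_le_pow_left₀ (by omega) (by positivity) hupp
  have hN12 : (1 : ℝ) ≤ N ^ (1 / 2 : ℝ) := Real.one_le_rpow hN' (by norm_num)
  have hh1 : 1 ≤ h := by
    by_contra hlt
    rw [not_le] at hlt
    have : h ^ Q < 1 := pow_lt_one₀ hh0 hlt (by omega)
    linarith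
  set H : ℕ := ⌊h⌋₊ with hH
  have hH1 : 1 ≤ H := Nat.one_le_floor_iff _ |>.mpr hh1
  have hHle : (H : ℝ) ≤ h := Nat.floor_le hh0
  have hHN : (H : ℝ) ≤ N := hHle.trans hhN
  have hHge : h / 2 ≤ H := by
    have h1 : h < H + 1 := Nat.lt_floor_add_one h
    have h2 : (1 : ℝ) ≤ H := by exact_mod_cast hH1
    linarith
  have hH1' : (1 : ℝ) ≤ H := by exact_mod_cast hH1
  have hsq : ((2 * Q.factorial : ℕ) : ℝ) ≤ N ^ (1 / 2 : ℝ) := by
    rw [← Real.sqrt_eq_rpow]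
    exact Real.le_sqrt_of_sq_le hfac
  have hZh : Z * h ^ Q = N ^ (Q + 1 / 2 : ℝ) := by rw [hhQ]; field_simp
  have hcond : 2 * (Z * (Q.factorial / N ^ (Q + 1) * (H : ℝ) ^ Q)) ≤ 1 := by
    have e1 : N ^ (Q + 1) = N ^ (Q + 1 / 2 : ℝ) * N ^ (1 / 2 : ℝ) := by
      rw [← Real.rpow_add hNpos, ← Real.rpow_natCast]; congr 1; push_cast; ring
    have e2 : 2 * (Z * (Q.factorial / N ^ (Q + 1) * (H : ℝ) ^ Q)) =
        (2 * Q.factorial : ℕ) * (Z * (H : ℝ) ^ Q) / N ^ (Q + 1) := by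
      push_cast; ring
    rw [e2, div_le_one (by positivity), e1, ← hZh]
    calc ((2 * Q.factorial : ℕ) : ℝ) * (Z * (H : ℝ) ^ Q) ≤ N ^ (1 / 2 : ℝ) * (Z * h ^ Q) := by gcongr
      _ = _ := by ring
  have hb := tt_bound Q Z hZ N a L H hN' ha hL haL hH1 hHN hcond
  -- first term
  have hhlow : N ^ ((1 : ℝ) / (2 * Q)) ≤ h := by
    have : (N ^ ((1 : ℝ) / (2 * Q))) ^ Q ≤ h ^ Q := by
      rw [← Real.rpow_natCast, ← Real.rpow_mul (by positivity)]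
      refine le_trans (le_of_eq ?_) hlow
      congr 1; field_simp
    exact le_of_pow_le_pow_left₀ (by omega) hh0 this
  have hQpos : (0 : ℝ) < Q := by linarith
  have hterm1 : 1 / (H : ℝ) ≤ 2 * N ^ (-(1 : ℝ) / (4 * Q)) := by
    have h1 : (0 : ℝ) < N ^ ((1 : ℝ) / (4 * Q)) := by positivity
    have h2 : N ^ ((1 : ℝ) / (4 * Q)) ≤ N ^ ((1 : ℝ) / (2 * Q)) := by
      apply Real.rpow_le_rpow_of_exponent_le hN'
      gcongr; norm_num
    rw [neg_div, Real.rpow_neg (by positivity), ← div_eq_mul_inv, div_le_div_iff₀ (by positivity) h1]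
    linarith
  have hlog : 1 + Real.log H ≤ (1 + 4 * Q) * N ^ ((1 : ℝ) / (4 * Q)) := by
    have h1 : Real.log H ≤ Real.log N := Real.log_le_log (by positivity) hHN
    have h2 := Real.log_le_rpow_div (x := N) (ε := (1 : ℝ) / (4 * Q)) (by positivity) (by positivity)
    have h3 : N ^ ((1 : ℝ) / (4 * Q)) / ((1 : ℝ) / (4 * Q)) = 4 * Q * N ^ ((1 : ℝ) / (4 * Q)) := by
      field_simp
    have h4 : (1 : ℝ) ≤ N ^ ((1 : ℝ) / (4 * Q)) := Real.one_le_rpow hN' (by positivity)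
    rw [h3] at h2
    nlinarith
  have hterm2 : (2 * (3 * N) ^ (Q + 1) / (Z * Q.factorial) / N) * ((∑ l ∈ Ico 1 H, (1 : ℝ) / l) / H) ^ Q ≤
      (2 * 3 ^ (Q + 1) / Q.factorial) * 2 ^ Q * (1 + 4 * Q) ^ Q * N ^ (-(1 : ℝ) / (4 * Q)) := by
    have hs0 : 0 ≤ ∑ l ∈ Ico 1 H, (1 : ℝ) / l := sum_nonneg fun _ _ => by positivity
    have h1 : ((∑ l ∈ Ico 1 H, (1 : ℝ) / l) / H) ^ Q ≤
        (((1 + 4 * Q) * N ^ ((1 : ℝ) / (4 * Q))) / (h / 2)) ^ Q := by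
      gcongr
      exact (harm_le H).trans hlog
    have h2 : (((1 + 4 * Q) * N ^ ((1 : ℝ) / (4 * Q))) / (h / 2)) ^ Q =
        (1 + 4 * Q) ^ Q * N ^ ((1 : ℝ) / 4) * 2 ^ Q / h ^ Q := by
      rw [div_pow, mul_pow, div_pow, div_div_eq_mul_div]
      congr 3
      rw [← Real.rpow_natCast, ← Real.rpow_mul (by positivity)]
      congr 1; field_simp
    have h3 : N ^ ((1 : ℝ) / 4) * N ^ Q * N ^ ((1 : ℝ) / (4 * Q)) ≤ Z * h ^ Q := by
      rw [hZh, ← Real.rpow_natCast, ← Real.rpow_add hNpos, ← Real.rpow_add hNpos]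
      apply Real.rpow_le_rpow_of_exponent_le hN'
      have : (1 : ℝ) / (4 * Q) ≤ 1 / 4 := by
        rw [div_le_div_iff₀ (by positivity) (by norm_num)]; linarith
      linarith
    have hNQ : (0 : ℝ) < N ^ ((1 : ℝ) / (4 * Q)) := by positivity
    calc _ ≤ (2 * (3 * N) ^ (Q + 1) / (Z * Q.factorial) / N) *
          ((1 + 4 * Q) ^ Q * N ^ ((1 : ℝ) / 4) * 2 ^ Q / h ^ Q) := by rw [← h2]; gcongr
      _ = (2 * 3 ^ (Q + 1) / Q.factorial) * 2 ^ Q * (1 + 4 * Q) ^ Q *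
          ((N ^ ((1 : ℝ) / 4) * N ^ Q) / (Z * h ^ Q)) := by
          rw [mul_pow, pow_succ N Q]
          exact alg_aux _ _ _ _ _ _ _ _ _ hZ.ne' hNpos.ne' (by positivity) (by positivity)
      _ ≤ _ := by
          gcongr
          rw [neg_div, Real.rpow_neg (by positivity), ← one_div, div_le_div_iff₀ (by positivity) hNQ]
          linarith
  have hfin : (‖TT Z a L []‖ / N) ^ (2 ^ Q) ≤ K * N ^ (-(1 : ℝ) / (4 * Q)) := by
    refine hb.trans ?_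
    calc _ ≤ Cq Q * (2 * N ^ (-(1 : ℝ) / (4 * Q)) +
          (2 * 3 ^ (Q + 1) / Q.factorial) * 2 ^ Q * (1 + 4 * Q) ^ Q * N ^ (-(1 : ℝ) / (4 * Q))) := by
          gcongr
      _ = _ := by rw [hK]; ring
  have hroot : ‖TT Z a L []‖ / N ≤ K ^ ((1 : ℝ) / 2 ^ Q) * N ^ (-η) := by
    have h1 : (‖TT Z a L []‖ / N) = ((‖TT Z a L []‖ / N) ^ (2 ^ Q)) ^ ((1 : ℝ) / 2 ^ Q) := by
      rw [← Real.rpow_natCast, ← Real.rpow_mul (by positivity)]
      push_cast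
      rw [mul_one_div_cancel (by positivity), Real.rpow_one]
    rw [h1]
    calc _ ≤ (K * N ^ (-(1 : ℝ) / (4 * Q))) ^ ((1 : ℝ) / 2 ^ Q) := by gcongr
      _ = K ^ ((1 : ℝ) / 2 ^ Q) * N ^ (-(1 : ℝ) / (4 * Q) * (1 / 2 ^ Q)) := by
          rw [Real.mul_rpow hK0.le (by positivity), ← Real.rpow_mul (by positivity)]
      _ = _ := by
          congr 2
          rw [hη]
          field_simp
  rw [div_le_iff₀ hNpos] at hroot
  calc ‖TT Z a L []‖ ≤ K ^ ((1 : ℝ) / 2 ^ Q) * N ^ (-η) * N := hroot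
    _ ≤ C * N ^ (-η) * N := by gcongr
    _ = _ := by
      rw [mul_assoc, sub_eq_neg_add, Real.rpow_add hNpos, Real.rpow_one]

end Pool.Agent.H312.Sub
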