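import Pool.Agent.H312.Sub.Main

set_option autoImplicit false

/-!
# Subconvexity from a bound on a left line, real widths
-/

namespace Pool.Agent.H312.Sub

open Filter Topology MeasureTheory Complex Set
open Pool.Agent.H131R5.BZ Pool.Agent.Y930.Bz Pool.Agent.Y616.BM

variable {r : ℕ} {a : ℝ} {w : Fin r → ℝ} {c : ℕ → ℂ}

/-- the exponent of the length of the Dirichlet polynomial -/
noncomputable def shR (Q : ℕ) (d x : ℝ) : ℝ :=
  min (eta Q) (x / 2) / (4 * d ^ 2 * (2 * d + 1))

/-- the gain in the exponent -/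
noncomputable def gnR (Q : ℕ) (d x : ℝ) : ℝ := shR Q d x * (d - x) / (2 * (d + 1))

lemma shR_pos {Q : ℕ} (hQ : 1 ≤ Q) {d : ℝ} (hd : 1 ≤ d) {x : ℝ} (hx : 0 < x) : 0 < shR Q d x := by
  have h1 := eta_pos hQ
  unfold shR
  have : 0 < min (eta Q) (x / 2) := lt_min h1 (by positivity)
  positivity

lemma gnR_pos {Q : ℕ} (hQ : 1 ≤ Q) {d : ℝ} (hd : 1 ≤ d) {x : ℝ} (hx : 0 < x) (hxd : x < d) :
    0 < gnR Q d x := by
  have h1 := shR_pos hQ hd hx
  have h2 : 0 < d - x := by linarith
  unfold gnR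
  positivity

/-- **Subconvexity.** -/
theorem subconvR (hr : 0 < r) (ha : 0 < a) (hw : ∀ j, 0 < w j) (hc : Tay a w c) {d : ℝ}
    (hd' : 1 ≤ d) (hdr' : d ≤ r) (Q : ℕ) (hQd : 2 * d + 1 ≤ Q)
    (hline : ∀ σ ε : ℝ, 0 < σ → (r : ℝ) - d < σ → 0 < ε → ∃ C : ℝ, 0 ≤ C ∧
      ∀ t : ℝ, 1 ≤ t → ‖FF a w c ((σ : ℂ) + t * I)‖ ≤ C * t ^ (1 / 2 + ε))
    {x : ℝ} (hx : 0 < x) (hxd : x < d) :
    ∃ C : ℝ, 0 ≤ C ∧ ∀ t : ℝ, 1 ≤ t →
      ‖FF a w c (((r - x : ℝ) : ℂ) + t * I)‖ ≤ C * t ^ (x / (2 * d) - gnR Q d x) := by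
  have hd0 : (0 : ℝ) < d := by linarith
  have hr1 : 1 ≤ r := hr
  have hQ0 : (1 : ℝ) ≤ Q := by linarith
  have hQ1 : 1 ≤ Q := by exact_mod_cast hQ0
  have hη0 := eta_pos hQ1
  have hη8 := eta_le hQ1
  set η : ℝ := eta Q with hη
  set θ : ℝ := min η (x / 2) with hθ
  have hθ0 : 0 < θ := lt_min hη0 (by positivity)
  have hθη : θ ≤ η := min_le_left _ _
  have hθx : θ ≤ x / 2 := min_le_right _ _
  set η' : ℝ := shR Q d x with hη'
  have hη'0 : 0 < η' := shR_pos hQ1 hd' hx
  have hη'eq : η' * (4 * (d : ℝ) ^ 2 * (2 * d + 1)) = θ := by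
    rw [hη', shR]
    have : (4 * (d : ℝ) ^ 2 * (2 * d + 1)) ≠ 0 := by positivity
    field_simp
    rfl
  set ξ : ℝ := 1 / (2 * d) + η' with hξ
  have hξ0 : 0 < ξ := by positivity
  have hη'1 : η' ≤ 1 / 2 := by
    have h1 : 1 ≤ 4 * (d : ℝ) ^ 2 * (2 * d + 1) := by nlinarith
    nlinarith
  have hξ1 : ξ ≤ 1 := by
    have : 1 / (2 * (d : ℝ)) ≤ 1 / 2 := by
      rw [div_le_div_iff₀ (by positivity) (by norm_num)]
      linarith
    linarith
  have hdx : 0 < (d : ℝ) - x := by linarith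
  set κ : ℝ := η' * (d - x) / (2 * (d + 5)) with hκ
  have hκ0 : 0 < κ := by positivity
  have hκeq : κ * (2 * (d + 5)) = η' * (d - x) := by rw [hκ]; field_simp
  have hκ1 : κ ≤ (d - x) / 2 := by nlinarith
  have hκ2 : κ ≤ 1 / 4 := by nlinarith
  set α : ℝ := (r : ℝ) - d + κ with hα
  set β : ℝ := (r : ℝ) + κ + 1 with hβ
  have hα0 : 0 < α := by linarith
  have hαβ : α < β := by linarith
  have hβα : β - α = d + 1 := by rw [hα, hβ]; ring
  set σ : ℝ := (r : ℝ) - x with hσ
  have hσ0 : 0 < σ := by linarith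
  have hασ : α ≤ σ := by linarith
  have hσβ : σ ≤ β := by linarith
  set μL : ℝ := 1 / 2 + κ with hμL
  set μR : ℝ := -ξ with hμR
  set M : ℝ := ξ * r with hM
  have hM0 : 0 ≤ M := by positivity
  obtain ⟨CL, hCL, hL⟩ := hline α κ hα0 (by linarith) hκ0
  obtain ⟨CP, κP, hCP, hκP, hP⟩ := PP_bound Q hQ1 hr1 ha hw (σ := α) (θ := η) hα0 hη0 le_rfl
    (by linarith)
  obtain ⟨CS, κS, hCS, hκS, hS⟩ := PP_bound Q hQ1 hr1 ha hw (σ := σ) (θ := θ) hσ0 hθ0 hθη
    (by linarith)
  obtain ⟨CT, hCT, hT⟩ := PP_triv ha hw β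
  obtain ⟨A, hA, htail⟩ := right_tail ha hw hc hκ0
  obtain ⟨CG, hCG, hG⟩ := FF_growth ha hw hc (α := α) (β := β) hα0
  obtain ⟨D, hD, hcmp⟩ := cmp (α := α) (β := β) (μL := μL) (μR := μR) (M := M) hαβ
    (by linarith) hM0
  -- the exponents
  set ν : ℝ := (μL * (β - σ) + μR * (σ - α)) / (β - α) with hν
  have e1β : β - σ = 1 + κ + x := by rw [hβ, hσ]; ring
  have e2α : σ - α = d - x - κ := by rw [hσ, hα]; ring
  have hνle : ν ≤ x / (2 * d) - gnR Q d x := by
    have h1 : μL * (β - σ) + μR * (σ - α) ≤ (x / (2 * d) - gnR Q d x) * (d + 1) := by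
      have e3 : gnR Q d x * (d + 1) = η' * (d - x) / 2 := by
        rw [gnR, ← hη']
        field_simp
      have e4 : (x / (2 * d) - gnR Q d x) * (d + 1) = x / 2 + x / (2 * d) - η' * (d - x) / 2 := by
        rw [sub_mul, e3]
        field_simp
      rw [e1β, e2α, e4, hμL, hμR, hξ]
      exact num1 hd' hx hxd hη'0 hη'1 hκ0 hκ2 hκeq
    rw [hν, hβα, div_le_iff₀ (by positivity)]
    exact h1
  have hν0 : 0 ≤ ν := by
    have h1 : 0 ≤ μL * (β - σ) + μR * (σ - α) := by
      rw [e1β, e2α, hμL, hμR, hξ]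
      exact num2 hd' hx hη'0 hκ0 (num3 hd' hx hxd hη'0 hη'eq hθx)
    rw [hν]
    exact div_nonneg h1 (by linarith)
  -- the threshold
  set t₀ : ℝ := max (max 14 (4 / κP)) (max (1 / κS) ((1 + a) ^ (1 / ξ))) with ht₀
  have ht₀14 : 14 ≤ t₀ := (le_max_left _ _).trans (le_max_left _ _)
  have ht₀P : 4 / κP ≤ t₀ := (le_max_right _ _).trans (le_max_left _ _)
  have ht₀S : 1 / κS ≤ t₀ := (le_max_left _ _).trans (le_max_right _ _)
  have ht₀a : (1 + a) ^ (1 / ξ) ≤ t₀ := (le_max_right _ _).trans (le_max_right _ _)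
  set K : ℝ := CG + CT + CL * 8 + CP * 8 + CT * Real.exp (M ^ 2) + A with hK
  have hK0 : 0 ≤ K := by positivity
  have hmain : ∀ t : ℝ, t₀ ≤ t → ‖FF a w c ((σ : ℂ) + t * I)‖ ≤
      (D * K + CS) * t ^ (x / (2 * d) - gnR Q d x) := by
    intro t ht
    have ht14 : 14 ≤ t := ht₀14.trans ht
    have ht0 : 0 < t := by linarith
    have ht1 : 1 ≤ t := by linarith
    set X : ℝ := t ^ ξ with hX
    have hX0 : 0 < X := by positivity
    have hXt : X ≤ t := by
      calc X ≤ t ^ (1 : ℝ) := Real.rpow_le_rpow_of_exponent_le ht1 hξ1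
        _ = t := Real.rpow_one t
    have haX : a ≤ X := by
      have h1 : ((1 + a) ^ (1 / ξ)) ^ ξ ≤ t ^ ξ :=
        Real.rpow_le_rpow (by positivity) (ht₀a.trans ht) hξ0.le
      rw [← Real.rpow_mul (by positivity), one_div_mul_cancel hξ0.ne', Real.rpow_one] at h1
      linarith
    have hXr : X ^ r = t ^ M := by
      rw [hX, hM, ← Real.rpow_natCast, ← Real.rpow_mul ht0.le]
    have hXm : ∀ p : ℝ, X ^ p = t ^ (ξ * p) := fun p => by
      rw [hX, ← Real.rpow_mul ht0.le]
    -- the difference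
    set f : ℂ → ℂ := fun z => FF a w c z - PP a w X z with hf
    have hfd : ∀ z : ℂ, 1 ≤ z.im → DifferentiableAt ℂ f z := fun z hz =>
      (FF_diff ha hw hc (by
        intro k _ _ h
        have := congrArg Complex.im h
        simp at this
        linarith)).sub (PP_diff ha hw X z)
    have hgrow : ∀ x' y : ℝ, α ≤ x' → x' ≤ β → 1 ≤ y → y ≤ 2 * t + 12 →
        ‖f ((x' : ℂ) + y * I)‖ ≤ K * (Real.exp (5 * y) * t ^ M) := by
      intro x' y hx1 hx2 hy _
      have h1 := hG ((x' : ℂ) + y * I) (by simpa using hx1) (by simpa using hx2) (by simpa using hy)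
      have him : ((x' : ℂ) + y * I).im = y := by simp
      rw [him] at h1
      have h2 := hT X ((x' : ℂ) + y * I) haX (by simp; linarith) (by simpa using hx2)
      rw [hXr] at h2
      have htM : 1 ≤ t ^ M := Real.one_le_rpow ht1 hM0
      have hey : 1 ≤ Real.exp (5 * y) := Real.one_le_exp (by linarith)
      calc ‖f ((x' : ℂ) + y * I)‖ ≤ _ := norm_sub_le _ _
        _ ≤ CG * Real.exp (5 * y) + CT * t ^ M := add_le_add h1 h2
        _ ≤ CG * (Real.exp (5 * y) * t ^ M) + CT * (Real.exp (5 * y) * t ^ M) := by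
            gcongr
            · exact le_mul_of_one_le_right (by positivity) htM
            · exact le_mul_of_one_le_left (by positivity) hey
        _ = (CG + CT) * (Real.exp (5 * y) * t ^ M) := by ring
        _ ≤ _ := by
            apply mul_le_mul_of_nonneg_right _ (by positivity)
            rw [hK]
            have : 0 ≤ CL * 8 + CP * 8 + CT * Real.exp (M ^ 2) + A := by positivity
            linarith
    have hleft : ∀ y : ℝ, 1 ≤ y → y ≤ 2 * t + 12 →
        ‖f ((α : ℂ) + y * I)‖ * Real.exp (-(y - t) ^ 2) ≤ K * t ^ μL := by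
      intro y hy1 hy2
      have hy8 : y ≤ 4 * t := by linarith
      have hμLpow : 1 ≤ t ^ μL := Real.one_le_rpow ht1 (by linarith)
      have hexp1 : Real.exp (-(y - t) ^ 2) ≤ 1 := by
        apply Real.exp_le_one_iff.2
        nlinarith [sq_nonneg (y - t)]
      have h1 : ‖FF a w c ((α : ℂ) + y * I)‖ * Real.exp (-(y - t) ^ 2) ≤ CL * 8 * t ^ μL := by
        have h2 := hL y hy1
        have h3 : y ^ (1 / 2 + κ) ≤ 8 * t ^ μL := by
          calc y ^ (1 / 2 + κ) ≤ (4 * t) ^ (1 / 2 + κ) :=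
                Real.rpow_le_rpow (by linarith) hy8 (by linarith)
            _ = 4 ^ (1 / 2 + κ) * t ^ (1 / 2 + κ) := Real.mul_rpow (by norm_num) ht0.le
            _ ≤ 8 * t ^ μL := by
                rw [hμL]
                gcongr
                calc (4 : ℝ) ^ (1 / 2 + κ) ≤ 4 ^ (1 : ℝ) :=
                      Real.rpow_le_rpow_of_exponent_le (by norm_num) (by linarith)
                  _ ≤ 8 := by norm_num
        calc _ ≤ (CL * y ^ (1 / 2 + κ)) * 1 := by gcongr
          _ ≤ CL * (8 * t ^ μL) * 1 := by gcongr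
          _ = _ := by ring
      have h2 : ‖PP a w X ((α : ℂ) + y * I)‖ * Real.exp (-(y - t) ^ 2) ≤
          (CP * 8 + CT * Real.exp (M ^ 2)) * t ^ μL := by
        rcases le_total (t / 2) y with hyt | hyt
        · have h3 := hP y X (by linarith) haX (by
            have h4 : 4 ≤ κP * t := by
              have := ht₀P.trans ht
              rw [div_le_iff₀ hκP] at this
              linarith
            have h5 : (t / 2) ^ 2 ≤ y ^ 2 := by
              apply pow_le_pow_left₀ (by linarith) hyt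
            calc X ≤ t := hXt
              _ ≤ κP * (t / 2) ^ 2 := by nlinarith
              _ ≤ κP * y ^ 2 := by gcongr)
          have h4 : y ^ (η / Q) ≤ 8 * t ^ (η / Q) := by
            calc y ^ (η / Q) ≤ (4 * t) ^ (η / Q) :=
                  Real.rpow_le_rpow (by linarith) hy8 (by positivity)
              _ = 4 ^ (η / Q) * t ^ (η / Q) := Real.mul_rpow (by norm_num) ht0.le
              _ ≤ 8 * t ^ (η / Q) := by
                  gcongr
                  have h6 : η / Q ≤ 1 := by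
                    rw [div_le_one (by linarith)]
                    linarith
                  calc (4 : ℝ) ^ (η / Q) ≤ 4 ^ (1 : ℝ) :=
                        Real.rpow_le_rpow_of_exponent_le (by norm_num) h6
                    _ ≤ 8 := by norm_num
          have h5 : t ^ (η / Q) * X ^ ((r : ℝ) - α - η) ≤ t ^ μL := by
            rw [hXm, ← Real.rpow_add ht0]
            apply Real.rpow_le_rpow_of_exponent_le ht1
            have e1 : (r : ℝ) - α - η = d - κ - η := by rw [hα]; ring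
            rw [e1, hξ, hμL]
            have h9 : η / Q ≤ η / (2 * d + 1) := by
              apply div_le_div_of_nonneg_left hη0.le (by linarith) hQd
            have h10 := num4 hd' hκ0 hη0 hη8 hη'0 (by rw [hη'eq]; exact hθη)
            linarith
          calc _ ≤ (CP * y ^ (η / Q) * X ^ ((r : ℝ) - α - η)) * 1 := by gcongr
            _ ≤ (CP * (8 * t ^ (η / Q)) * X ^ ((r : ℝ) - α - η)) * 1 := by gcongr
            _ = CP * 8 * (t ^ (η / Q) * X ^ ((r : ℝ) - α - η)) := by ring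
            _ ≤ CP * 8 * t ^ μL := by gcongr
            _ ≤ _ := by
                apply mul_le_mul_of_nonneg_right _ (by positivity)
                have : 0 ≤ CT * Real.exp (M ^ 2) := by positivity
                linarith
        · have h3 := hT X ((α : ℂ) + y * I) haX (by simp; linarith) (by simp; linarith)
          rw [hXr] at h3
          have h4 : Real.exp (-(y - t) ^ 2) ≤ Real.exp (-(t / 2) ^ 2) := by
            apply Real.exp_le_exp.2
            have : (t / 2) ^ 2 ≤ (t - y) ^ 2 := by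
              apply pow_le_pow_left₀ (by linarith)
              linarith
            nlinarith
          calc _ ≤ (CT * t ^ M) * Real.exp (-(t / 2) ^ 2) := by gcongr
            _ = CT * (t ^ M * Real.exp (-(t / 2) ^ 2)) := by ring
            _ ≤ CT * Real.exp (M ^ 2) := by
                gcongr
                exact rpow_gauss hM0 ht1
            _ ≤ (CP * 8 + CT * Real.exp (M ^ 2)) * 1 := by
                rw [mul_one]
                have : 0 ≤ CP * 8 := by positivity
                linarith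
            _ ≤ _ := by gcongr
      calc ‖f ((α : ℂ) + y * I)‖ * Real.exp (-(y - t) ^ 2) ≤
          (‖FF a w c ((α : ℂ) + y * I)‖ + ‖PP a w X ((α : ℂ) + y * I)‖) *
            Real.exp (-(y - t) ^ 2) := by
            gcongr
            exact norm_sub_le _ _
        _ = ‖FF a w c ((α : ℂ) + y * I)‖ * Real.exp (-(y - t) ^ 2) +
            ‖PP a w X ((α : ℂ) + y * I)‖ * Real.exp (-(y - t) ^ 2) := by ring
        _ ≤ CL * 8 * t ^ μL + (CP * 8 + CT * Real.exp (M ^ 2)) * t ^ μL := add_le_add h1 h2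
        _ = (CL * 8 + CP * 8 + CT * Real.exp (M ^ 2)) * t ^ μL := by ring
        _ ≤ _ := by
            apply mul_le_mul_of_nonneg_right _ (by positivity)
            rw [hK]
            linarith
    have hright : ∀ y : ℝ, 1 ≤ y → y ≤ 2 * t + 12 →
        ‖f ((β : ℂ) + y * I)‖ * Real.exp (-(y - t) ^ 2) ≤ K * t ^ μR := by
      intro y _ _
      have hexp1 : Real.exp (-(y - t) ^ 2) ≤ 1 := by
        apply Real.exp_le_one_iff.2
        nlinarith [sq_nonneg (y - t)]
      have h1 := htail X y hX0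
      have h2 : X⁻¹ = t ^ μR := by
        rw [hμR, hX, Real.rpow_neg ht0.le]
      rw [h2] at h1
      calc ‖f ((β : ℂ) + y * I)‖ * Real.exp (-(y - t) ^ 2) ≤ (A * t ^ μR) * 1 := by
            gcongr
        _ ≤ K * t ^ μR := by
            rw [mul_one]
            apply mul_le_mul_of_nonneg_right _ (by positivity)
            rw [hK]
            have : 0 ≤ CG + CT + CL * 8 + CP * 8 + CT * Real.exp (M ^ 2) := by positivity
            linarith
    have h1 := hcmp f K t σ hK0 (by linarith) hασ hσβ hν0 hfd hgrow hleft hright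
    have h2 : ‖PP a w X ((σ : ℂ) + t * I)‖ ≤ CS * t ^ (x / (2 * d) - gnR Q d x) := by
      have h3 := hS t X (by linarith) haX (by
        have h4 : 1 ≤ κS * t := by
          have := ht₀S.trans ht
          rw [div_le_iff₀ hκS] at this
          linarith
        calc X ≤ 1 * t := by linarith
          _ ≤ (κS * t) * t := by gcongr
          _ = κS * t ^ 2 := by ring)
      refine h3.trans ?_
      rw [mul_assoc]
      gcongr
      rw [hXm, ← Real.rpow_add ht0]
      apply Real.rpow_le_rpow_of_exponent_le ht1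
      have e1 : (r : ℝ) - σ - θ = x - θ := by rw [hσ]; ring
      rw [e1, hξ]
      have h9 : θ / Q ≤ θ / (2 * d + 1) := by
        apply div_le_div_of_nonneg_left hθ0.le (by linarith) hQd
      refine (add_le_add_left h9 _).trans ?_
      refine num5 hd' hη'0 hθ0 hη'eq hxd ?_
      rw [gnR, ← hη', div_le_iff₀ (by positivity)]
      have e9 : η' * (d - x) ≤ η' * d := by
        apply mul_le_mul_of_nonneg_left _ hη'0.le
        linarith
      have e10 : η' * d ≤ η' * d * (2 * (d + 1)) := by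
        apply le_mul_of_one_le_right (by positivity)
        linarith
      linarith
    have h3 : t ^ ν ≤ t ^ (x / (2 * d) - gnR Q d x) := Real.rpow_le_rpow_of_exponent_le ht1 hνle
    have e1 : FF a w c ((σ : ℂ) + t * I) = f ((σ : ℂ) + t * I) + PP a w X ((σ : ℂ) + t * I) := by
      rw [hf]
      ring
    rw [e1]
    calc _ ≤ ‖f ((σ : ℂ) + t * I)‖ + ‖PP a w X ((σ : ℂ) + t * I)‖ := norm_add_le _ _
      _ ≤ D * K * t ^ ν + CS * t ^ (x / (2 * d) - gnR Q d x) := add_le_add h1 h2
      _ ≤ D * K * t ^ (x / (2 * d) - gnR Q d x) + CS * t ^ (x / (2 * d) - gnR Q d x) := by gcongr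
      _ = _ := by ring
  -- small ordinates
  have hexp0 : 0 ≤ x / (2 * d) - gnR Q d x := hν0.trans hνle
  refine ⟨(D * K + CS) + CG * Real.exp (5 * t₀), by positivity, fun t ht => ?_⟩
  rcases le_total t₀ t with h | h
  · refine (hmain t h).trans (mul_le_mul_of_nonneg_right ?_ (by positivity))
    have : 0 ≤ CG * Real.exp (5 * t₀) := by positivity
    linarith
  · have h1 := hG ((σ : ℂ) + t * I) (by simpa using hασ) (by simpa using hσβ) (by simpa using ht)
    have him : ((σ : ℂ) + t * I).im = t := by simp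
    rw [him] at h1
    have h2 : 1 ≤ t ^ (x / (2 * d) - gnR Q d x) := Real.one_le_rpow ht hexp0
    calc _ ≤ CG * Real.exp (5 * t) := h1
      _ ≤ (CG * Real.exp (5 * t₀)) * 1 := by
          rw [mul_one]
          gcongr
      _ ≤ (CG * Real.exp (5 * t₀)) * t ^ (x / (2 * d) - gnR Q d x) :=
          mul_le_mul_of_nonneg_left h2 (by positivity)
      _ ≤ _ := by
          refine mul_le_mul_of_nonneg_right ?_ (by positivity)
          have : 0 ≤ D * K + CS := by positivity
          linarith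

lemma gnR_le {Q : ℕ} {d : ℝ} (hd : 1 ≤ d) {x : ℝ} (hx : 0 < x) (hxd : x < d) :
    gnR Q d x ≤ x / (2 * d) := by
  have hd0 : 0 < d := by linarith
  have h1 : shR Q d x ≤ (x / 2) / (4 * d ^ 2 * (2 * d + 1)) := by
    unfold shR
    gcongr
    exact min_le_right _ _
  have h2 : 0 < d - x := by linarith
  have h3 : gnR Q d x ≤ (x / 2) / (4 * d ^ 2 * (2 * d + 1)) * (d - x) / (2 * (d + 1)) := by
    unfold gnR
    gcongr
  refine h3.trans ?_
  have h4 : (x / 2) / (4 * d ^ 2 * (2 * d + 1)) * (d - x) / (2 * (d + 1)) ≤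
      (x / 2) / (4 * d ^ 2 * (2 * d + 1)) * d / (2 * (d + 1)) := by
    gcongr
    linarith
  refine h4.trans ?_
  rw [div_mul_eq_mul_div, div_div, div_le_div_iff₀ (by positivity) (by positivity)]
  have e1 : x / 2 * d * (2 * d) = x * (d ^ 2 * 1 * 1 * 1) := by ring
  have e2 : x * (4 * d ^ 2 * (2 * d + 1) * (2 * (d + 1))) =
      x * (d ^ 2 * 4 * (2 * d + 1) * (2 * (d + 1))) := by ring
  rw [e1, e2]
  gcongr
  · norm_num
  · linarith
  · linarith

/-- the whole strip -/
theorem stripR (hr : 0 < r) (ha : 0 < a) (hw : ∀ j, 0 < w j) (hc : Tay a w c) {d : ℝ}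
    (hd' : 1 ≤ d) (hdr' : d ≤ r) (Q : ℕ) (hQd : 2 * d + 1 ≤ Q)
    (hline : ∀ σ ε : ℝ, 0 < σ → (r : ℝ) - d < σ → 0 < ε → ∃ C : ℝ, 0 ≤ C ∧
      ∀ t : ℝ, 1 ≤ t → ‖FF a w c ((σ : ℂ) + t * I)‖ ≤ C * t ^ (1 / 2 + ε))
    {x : ℝ} (hx : 0 < x) (hxd : x < d) (σ₁ : ℝ) :
    ∃ C : ℝ, 0 ≤ C ∧ ∀ σ t : ℝ, (r : ℝ) - x ≤ σ → σ ≤ σ₁ → 2 ≤ t →
      ‖FF a w c ((σ : ℂ) + t * I)‖ ≤ C * t ^ (x / (2 * d) - gnR Q d x) := by
  obtain ⟨C₀, hC₀, h0⟩ := subconvR hr ha hw hc hd' hdr' Q hQd hline hx hxd
  set μ : ℝ := x / (2 * d) - gnR Q d x with hμ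
  have hμ0 : 0 ≤ μ := by
    have := gnR_le (Q := Q) hd' hx hxd
    linarith
  set β : ℝ := max σ₁ r + 1 with hβ
  have hβr : (r : ℝ) < β := by
    have := le_max_right σ₁ (r : ℝ)
    linarith
  have hβσ : σ₁ ≤ β := by
    have := le_max_left σ₁ (r : ℝ)
    linarith
  obtain ⟨A, hA, h1⟩ := FF_line_bdd ha hw hc hβr
  have hαβ : (r : ℝ) - x < β := by linarith
  obtain ⟨C, hC, h2⟩ := interp ha hw hc (α := (r : ℝ) - x) (β := β) (by linarith) hαβ hμ0 hC₀ hA
    (fun y hy => h0 y hy) h1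
  refine ⟨C, hC, fun σ t hσ hσ1 ht => ?_⟩
  refine (h2 σ t hσ (hσ1.trans hβσ) ht).trans (mul_le_mul_of_nonneg_left ?_ hC)
  apply Real.rpow_le_rpow_of_exponent_le (by linarith)
  rw [div_le_iff₀ (by linarith)]
  exact mul_le_mul_of_nonneg_left (by linarith) hμ0

end Pool.Agent.H312.Sub
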