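import Pool.Agent.H312.Sub.Crit

set_option autoImplicit false

/-!
# Moments with real exponents
-/

namespace Pool.Agent.H312.Sub

open Filter Topology MeasureTheory Complex Set Asymptotics
open Pool.Agent.H131R5.BZ Pool.Agent.Y930.Bz Pool.Agent.Y616.BM
open Pool.Agent.H312.Barnes (nd nd_nonneg Dio SimApprox)

variable {r : ℕ} {a : ℝ} {w : Fin r → ℝ}

/-- the moment with the real exponent `p` is `O(T^(β + ε))` -/
def Mb (Z : ℂ → ℂ) (p σ β : ℝ) : Prop :=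
  ∀ ε : ℝ, 0 < ε → (fun T : ℝ => ∫ t in (1 : ℝ)..T, ‖Z ((σ : ℂ) + (t : ℂ) * I)‖ ^ p)
      =O[atTop] fun T : ℝ => T ^ (β + ε)

lemma mb_nat {Z : ℂ → ℂ} {n : ℕ} {σ β : ℝ} : Mb Z n σ β ↔ ∀ ε : ℝ, 0 < ε →
    (fun T : ℝ => ∫ t in (1 : ℝ)..T, ‖Z ((σ : ℂ) + (t : ℂ) * I)‖ ^ n)
      =O[atTop] fun T : ℝ => T ^ (β + ε) := by
  simp only [Mb, Real.rpow_natCast]

lemma rpow_bigO {a b : ℝ} (h : a ≤ b) :
    (fun T : ℝ => T ^ a) =O[atTop] fun T : ℝ => T ^ b := by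
  refine IsBigO.of_bound 1 ?_
  filter_upwards [eventually_ge_atTop (1 : ℝ)] with T hT
  have hT0 : 0 < T := by linarith
  rw [one_mul, Real.norm_of_nonneg (by positivity), Real.norm_of_nonneg (by positivity)]
  exact Real.rpow_le_rpow_of_exponent_le hT h

lemma Mb.mono {Z : ℂ → ℂ} {p σ β β' : ℝ} (h : Mb Z p σ β) (hβ : β ≤ β') : Mb Z p σ β' :=
  fun ε hε => (h ε hε).trans (rpow_bigO (by linarith))

lemma mb_int {Z : ℂ → ℂ} (hZ : ∀ s ∈ Om r, DifferentiableAt ℂ Z s) (σ : ℝ) {p : ℝ} (hp : 0 ≤ p)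
    {T : ℝ} (hT : 1 ≤ T) :
    IntervalIntegrable (fun t : ℝ => ‖Z ((σ : ℂ) + (t : ℂ) * I)‖ ^ p) volume 1 T := by
  apply ContinuousOn.intervalIntegrable
  rw [Set.uIcc_of_le hT]
  have hcont := Pool.Agent.H312.Barnes.line_cont hZ σ
  exact ((hcont.mono (fun t ht => ht.1)).norm).rpow_const fun t _ => Or.inr hp

lemma young {x A p q₁ q₂ : ℝ} (hx : 0 ≤ x) (hA : 0 < A) (hp : 0 < p) (h1 : q₁ ≤ p)
    (h2 : p ≤ q₂) : x ^ p ≤ A ^ (p - q₁) * x ^ q₁ + A ^ (p - q₂) * x ^ q₂ := by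
  rcases hx.eq_or_lt with h0 | h0
  · rw [← h0, Real.zero_rpow hp.ne']
    have := Real.rpow_nonneg (le_refl (0 : ℝ)) q₁
    have := Real.rpow_nonneg (le_refl (0 : ℝ)) q₂
    positivity
  · rcases le_total x A with h | h
    · have e : x ^ p = x ^ (p - q₁) * x ^ q₁ := by
        rw [← Real.rpow_add h0]; congr 1; ring
      have h3 : x ^ (p - q₁) ≤ A ^ (p - q₁) := Real.rpow_le_rpow h0.le h (by linarith)
      have h4 : 0 ≤ A ^ (p - q₂) * x ^ q₂ := by positivity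
      rw [e]
      have h5 : x ^ (p - q₁) * x ^ q₁ ≤ A ^ (p - q₁) * x ^ q₁ := by gcongr
      linarith
    · have e : x ^ p = x ^ (p - q₂) * x ^ q₂ := by
        rw [← Real.rpow_add h0]; congr 1; ring
      have h3 : x ^ (p - q₂) ≤ A ^ (p - q₂) :=
        Real.rpow_le_rpow_of_nonpos hA h (by linarith)
      have h4 : 0 ≤ A ^ (p - q₁) * x ^ q₁ := by positivity
      rw [e]
      have h5 : x ^ (p - q₂) * x ^ q₂ ≤ A ^ (p - q₂) * x ^ q₂ := by gcongr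
      linarith

theorem mb_interp {Z : ℂ → ℂ} (hZ : ∀ s ∈ Om r, DifferentiableAt ℂ Z s)
    {σ p q₁ q₂ β₁ β₂ β : ℝ} (hp : 0 < p) (h0 : 0 ≤ q₁) (h1 : q₁ ≤ p) (h2 : p ≤ q₂)
    (H1 : Mb Z q₁ σ β₁) (H2 : Mb Z q₂ σ β₂) (κ : ℝ) (hβ₁ : β₁ + κ * (p - q₁) ≤ β)
    (hβ₂ : β₂ - κ * (q₂ - p) ≤ β) : Mb Z p σ β := by
  intro ε hε
  have key : ∀ {q β₀ : ℝ}, Mb Z q σ β₀ → β₀ + κ * (p - q) ≤ β →
      (fun T : ℝ => T ^ (κ * (p - q)) * ∫ t in (1 : ℝ)..T, ‖Z ((σ : ℂ) + (t : ℂ) * I)‖ ^ q)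
      =O[atTop] fun T : ℝ => T ^ (β + ε) := by
    intro q β₀ H hβ
    refine ((isBigO_refl (fun T : ℝ => T ^ (κ * (p - q))) atTop).mul (H ε hε)).trans ?_
    refine IsBigO.trans (g := fun T : ℝ => T ^ (κ * (p - q) + (β₀ + ε))) ?_
      (rpow_bigO (by linarith))
    refine IsBigO.of_bound 1 ?_
    filter_upwards [eventually_gt_atTop (0 : ℝ)] with T hT
    rw [one_mul, Real.rpow_add hT (κ * (p - q))]
  have f1 := key H1 hβ₁
  have f2 := key H2 (by linarith)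
  refine IsBigO.trans ?_ (f1.add f2)
  refine IsBigO.of_bound 1 ?_
  filter_upwards [eventually_ge_atTop (1 : ℝ)] with T hT
  have hT0 : 0 < T := by linarith
  have hq₂ : 0 ≤ q₂ := by linarith
  have i1 := mb_int hZ σ h0 hT
  have i2 := mb_int hZ σ hq₂ hT
  have n0 : 0 ≤ ∫ t in (1 : ℝ)..T, ‖Z ((σ : ℂ) + (t : ℂ) * I)‖ ^ p :=
    intervalIntegral.integral_nonneg hT fun t _ => by positivity
  rw [one_mul, Real.norm_of_nonneg n0]
  refine le_trans ?_ (le_abs_self _)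
  have h3 : ∫ t in (1 : ℝ)..T, ‖Z ((σ : ℂ) + (t : ℂ) * I)‖ ^ p ≤
      ∫ t in (1 : ℝ)..T, (T ^ (κ * (p - q₁)) * ‖Z ((σ : ℂ) + (t : ℂ) * I)‖ ^ q₁ +
        T ^ (κ * (p - q₂)) * ‖Z ((σ : ℂ) + (t : ℂ) * I)‖ ^ q₂) := by
    refine intervalIntegral.integral_mono_on hT (mb_int hZ σ hp.le hT)
      ((i1.const_mul _).add (i2.const_mul _)) fun t _ => ?_
    have h4 := young (norm_nonneg (Z ((σ : ℂ) + (t : ℂ) * I))) (Real.rpow_pos_of_pos hT0 κ) hp h1 h2
    rwa [← Real.rpow_mul hT0.le, ← Real.rpow_mul hT0.le] at h4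
  refine h3.trans (le_of_eq ?_)
  rw [intervalIntegral.integral_add (i1.const_mul _) (i2.const_mul _),
    intervalIntegral.integral_const_mul, intervalIntegral.integral_const_mul]

lemma mb_zero (Z : ℂ → ℂ) (σ : ℝ) : Mb Z 0 σ 1 := by
  intro ε hε
  refine IsBigO.trans (g := fun T : ℝ => T ^ (1 : ℝ)) ?_ (rpow_bigO (by linarith))
  refine IsBigO.of_bound 1 ?_
  filter_upwards [eventually_ge_atTop (1 : ℝ)] with T hT
  simp only [Real.rpow_zero, intervalIntegral.integral_const, smul_eq_mul, mul_one, Real.rpow_one,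
    one_mul]
  rw [Real.norm_of_nonneg (by linarith), Real.norm_of_nonneg (by linarith)]
  linarith

/-- Hölder's inequality -/
lemma mb_lower {Z : ℂ → ℂ} (hZ : ∀ s ∈ Om r, DifferentiableAt ℂ Z s) {σ p q η : ℝ} (hp : 0 < p)
    (hpq : p ≤ q) (H : Mb Z q σ (1 + q * η)) : Mb Z p σ (1 + p * η) := by
  refine mb_interp hZ hp le_rfl hp.le hpq (mb_zero Z σ) H η ?_ ?_
  · linarith
  · linarith

lemma mb_of_pt {Z : ℂ → ℂ} (hZ : ∀ s ∈ Om r, DifferentiableAt ℂ Z s) {σ η p : ℝ} (hη : 0 ≤ η)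
    (h : Pt Z σ η) (hp : 0 < p) : Mb Z p σ (1 + p * η) := by
  obtain ⟨n, hn⟩ := exists_nat_ge p
  exact mb_lower hZ hp hn (mb_nat.2 fun ε hε => moment_of_pt hZ hη h n hε)

lemma mb_two (hr : 0 < r) (ha : 0 < a) (hw : ∀ j, 0 < w j) {Z : ℂ → ℂ} (hZ : Cont r a w Z)
    {σ η : ℝ} (hσ : 1 / 2 < σ) (hη : 0 ≤ η) (h : ∀ ε : ℝ, 0 < ε → Dio w (2 * σ) (1 + 2 * η + ε)) :
    Mb Z 2 σ (1 + 2 * η) := by
  intro ε hε
  obtain ⟨C, hC, h2⟩ := Pool.Agent.H312.Barnes.moment_two hr ha hw hZ.hol hZ.ser hσ.le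
    (θ := 1 + 2 * η + ε / 2) (by linarith) (h (ε / 2) (by positivity)) (half_pos hε)
  refine IsBigO.of_bound C ?_
  filter_upwards [eventually_ge_atTop (1 : ℝ)] with T hT
  have hT0 : 0 < T := by linarith
  rw [Real.norm_of_nonneg (intervalIntegral.integral_nonneg hT fun t _ => by positivity),
    Real.norm_of_nonneg (by positivity)]
  have h3 := h2 T hT
  have e : 1 + 2 * η + ε / 2 + ε / 2 = 1 + 2 * η + ε := by ring
  rw [e] at h3
  refine le_trans (le_of_eq ?_) h3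
  congr 1
  ext t
  norm_cast

/-- the criterion follows from a bound for any moment -/
theorem dio_of_mb (hr : 0 < r) (ha : 0 < a) (hw : ∀ j, 0 < w j) {Z : ℂ → ℂ} (hZ : Cont r a w Z)
    {σ η p : ℝ} (hσ : 1 / 2 < σ) (hη : 0 ≤ η) (hp : 0 < p) (h : Mb Z p σ (1 + p * η)) {ε : ℝ}
    (hε : 0 < ε) : Dio w (2 * σ) (1 + 2 * η + ε) := by
  have hone : ∀ {x : ℝ}, 0 ≤ x → Mb Z 1 σ (1 + x) →
      ∀ ε : ℝ, 0 < ε → Dio w (2 * σ) (1 + 2 * x + ε) := by
    intro x hx H ε hε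
    refine dio_of_moments ha hw hZ (n := 1) le_rfl hσ hx (fun ε hε => ?_) hε
    have h1 : Mb Z ((1 : ℕ) : ℝ) σ (1 + x) := by
      rw [Nat.cast_one]
      exact H
    have h2 := mb_nat.1 h1 ε hε
    have e : 1 + ((1 : ℕ) : ℝ) * x + ε = 1 + x + ε := by
      rw [Nat.cast_one, one_mul]
    rw [e]
    exact h2
  rcases le_total 1 p with h1 | h1
  · have h2 := mb_lower hZ.hol one_pos h1 h
    rw [one_mul] at h2
    exact hone hη h2 ε hε
  · rcases h1.eq_or_lt with h1 | h1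
    · rw [h1, one_mul] at h
      exact hone hη h ε hε
    set crit : ℝ → Prop := fun x => ∀ ε : ℝ, 0 < ε → Dio w (2 * σ) (1 + 2 * x + ε) with hcrit
    have step : ∀ x : ℝ, η ≤ x → crit x → crit ((2 * x * (1 - p) + p * η) / (2 - p)) := by
      intro x hx hc
      have hx0 : 0 ≤ x := hη.trans hx
      have h2p : 0 < 2 - p := by linarith
      refine hone ?_ ?_
      · apply div_nonneg _ h2p.le
        have : 0 ≤ x * (1 - p) := mul_nonneg hx0 (by linarith)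
        have : 0 ≤ p * η := by positivity
        linarith
      · refine mb_interp hZ.hol one_pos hp.le h1.le (by norm_num : (1 : ℝ) ≤ 2) h
          (mb_two hr ha hw hZ hσ hx0 hc) ((2 * x - p * η) / (2 - p)) ?_ ?_
        · refine le_of_eq ?_
          field_simp
          ring
        · refine le_of_eq ?_
          field_simp
          ring
    set S : Set ℝ := {x | η ≤ x ∧ crit x} with hS
    have hne : S.Nonempty := by
      refine ⟨max η (r - σ - 1 / 2), le_max_left _ _, fun ε hε => ?_⟩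
      have h3 := le_max_right η ((r : ℝ) - σ - 1 / 2)
      have h4 := le_max_left η ((r : ℝ) - σ - 1 / 2)
      exact Pool.Agent.H312.Barnes.dio_trivial w (by linarith) (by linarith)
    have hbd : BddBelow S := ⟨η, fun x hx => hx.1⟩
    set s : ℝ := sInf S with hs
    have hsη : η ≤ s := le_csInf hne fun x hx => hx.1
    have hcs : crit s := by
      intro ε hε
      obtain ⟨x, hx, hlt⟩ := exists_lt_of_csInf_lt hne (by linarith : s < s + ε / 4)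
      exact (hx.2 (ε / 4) (by positivity)).mono (by linarith)
    have h2p : 0 < 2 - p := by linarith
    have hst := step s hsη hcs
    have hmem : (2 * s * (1 - p) + p * η) / (2 - p) ∈ S := by
      refine ⟨?_, hst⟩
      rw [le_div_iff₀ h2p]
      nlinarith
    have h5 : s ≤ (2 * s * (1 - p) + p * η) / (2 - p) := csInf_le hbd hmem
    rw [le_div_iff₀ h2p] at h5
    have h6 : s = η := le_antisymm (by nlinarith) hsη
    rw [h6] at hcs
    exact hcs ε hε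

/-- **All moments.** -/
theorem mb_iff (hr : 0 < r) (ha : 0 < a) (hw : ∀ j, 0 < w j) {Z : ℂ → ℂ} (hZ : Cont r a w Z)
    {σ η p : ℝ} (hσ : 1 / 2 < σ) (hη : 0 ≤ η) (hp : 0 < p) (hpη : p ≤ 2 ∨ 1 / 2 ≤ η) :
    Mb Z p σ (1 + p * η) ↔ ∀ ε : ℝ, 0 < ε → Dio w (2 * σ) (1 + 2 * η + ε) := by
  refine ⟨fun h ε hε => dio_of_mb hr ha hw hZ hσ hη hp h hε, fun h => ?_⟩
  rcases hpη with h1 | h1
  · exact mb_lower hZ.hol hp h1 (mb_two hr ha hw hZ hσ hη h)
  · exact mb_of_pt hZ.hol hη (pt_upper hr ha hw hZ (by linarith) h1 h) hp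

end Pool.Agent.H312.Sub
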